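import Mathlib

/-! The exit statements of the sweep (`k > 2`), pointwise, in the `q`-half-plane.

`q0, q1, q2, q3` are the consecutive points `q_0, q_{-1}, q_{-2}, q_{-3}`; `d0, d1, d2` the lifted
logarithms of the steps `D_0 = q_0 - q_{-1}`, `D_{-1} = q_{-1} - q_{-2}`, `D_{-2} = q_{-2} - q_{-3}`;
`X1, X2, X3` the principal logarithms of `xi_{-1}, xi_{-2}, xi_{-3}` (`xi ^ 2 = 1 + q ^ 2`).

`pv k C X d = (xi / D) ^ k / C`, so that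
* `p_{-1} = pv k C X1 d0`, `p_{-2} = pv k C X2 d1`, `p_{-3} = pv k C X3 d2`,
* `f_{-1} = pv k C X1 d1`, `f_{-2} = pv k C X2 d2`, and `p_{-j} + f_{-j} = 1` (`f1`, `f2` below),
  `f_{-3} = 1 - p_{-3}`. -/

set_option autoImplicit false

namespace EQS

open Complex

/-- `(xi / D) ^ k / C` with lifted logarithms -/
noncomputable def pv (k C : ℝ) (X d : ℂ) : ℂ := exp ((k : ℂ) * (X - d)) / (C : ℂ)

/-- three consecutive backward steps; `q1, q2, q3` in the open second quadrant, `q0` anywhere in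
`Re ≤ 0` (its imaginary part is free),
`p_{-1}` may lie on the boundary of the right half plane -/
structure St (k C : ℝ) (q0 q1 q2 q3 d0 d1 d2 X1 X2 X3 : ℂ) : Prop where
  hk : 2 < k
  hC : 1 < C
  x1 : exp (2 * X1) = 1 + q1 ^ 2
  x2 : exp (2 * X2) = 1 + q2 ^ 2
  x3 : exp (2 * X3) = 1 + q3 ^ 2
  a1 : -(Real.pi / 2) < X1.im ∧ X1.im < 0
  a2 : -(Real.pi / 2) < X2.im ∧ X2.im < 0
  a3 : -(Real.pi / 2) < X3.im ∧ X3.im < 0
  s0 : q0 = q1 + exp d0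
  s1 : q1 = q2 + exp d1
  s2 : q2 = q3 + exp d2
  f1 : pv k C X1 d1 + pv k C X1 d0 = 1
  f2 : pv k C X2 d2 + pv k C X2 d1 = 1
  r0 : q0.re ≤ 0
  i1 : 0 < q1.im
  i2 : 0 < q2.im
  i3 : 0 < q3.im
  D0 : 0 < (exp d0).re
  D1 : 0 < (exp d1).re
  D2 : 0 < (exp d2).re
  p1 : |k * (X1 - d0).im| ≤ Real.pi / 2
  p2 : |k * (X2 - d1).im| < Real.pi / 2
  p3 : |k * (X3 - d2).im| < Real.pi / 2

/-- The exit from the half plane `Re f_{-1} < 1` is impossible for `k ≥ K`: a state with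
`Re p_{-1} = 0` violates the Schwarz-Pick inequality between `q_{-1}` and `q_{-2}` for the function
`q ↦ p_{-2}` with positive real part on `Re q < Re q_0`. -/
def ExitHalf (K : ℝ) : Prop :=
  ∀ (k C : ℝ) (q0 q1 q2 q3 d0 d1 d2 X1 X2 X3 : ℂ), K ≤ k →
    St k C q0 q1 q2 q3 d0 d1 d2 X1 X2 X3 → -(Real.pi / 4) ≤ X1.im →
    |k * (X1 - d0).im| = Real.pi / 2 →
    ‖exp d1‖ ^ 2 * ((pv k C X2 d1).re * (pv k C X3 d2).re) <
      ‖pv k C X2 d1 - pv k C X3 d2‖ ^ 2 * ((exp d0).re * (exp d0 + exp d1).re)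

/-- The exit from the unit disc `|f_{-1}| < 1` is impossible for `2 < k ≤ K`: a state with
`|f_{-1}| = 1`, `|f_{-2}| < 1`, `|f_{-3}| < 1` violates the Schwarz-Pick inequality between
`q_{-1}` and `q_{-2}`. (`f_{-2} = 1 - p_{-2}`, `f_{-3} = 1 - p_{-3}`; by Theorem H
`Re f_{-1} < 1/2` where `|arg xi_{-1}| > pi/4`.) -/
def ExitDisc (K : ℝ) : Prop :=
  ∀ (k C : ℝ) (q0 q1 q2 q3 d0 d1 d2 X1 X2 X3 : ℂ), k ≤ K →
    St k C q0 q1 q2 q3 d0 d1 d2 X1 X2 X3 →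
    (X1.im < -(Real.pi / 4) → (pv k C X1 d1).re < 1 / 2) →
    ‖1 - pv k C X1 d0‖ = 1 → ‖1 - pv k C X2 d1‖ < 1 → ‖1 - pv k C X3 d2‖ < 1 →
    ‖exp d1‖ ^ 2 * ((1 - ‖1 - pv k C X2 d1‖ ^ 2) * (1 - ‖1 - pv k C X3 d2‖ ^ 2)) <
      4 * ‖pv k C X2 d1 - pv k C X3 d2‖ ^ 2 * ((exp d0).re * (exp d0 + exp d1).re)

end EQS
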