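import Pool.Agent.Lib.MP_226de1_co.Sw.Defs
import Pool.Agent.Lib.MP_226de1_co.H.QBase
import Pool.Agent.Lib.MP_226de1_co.H.BodyBase
import Pool.Agent.Lib.MP_226de1_co.H.Local

/-! The germ at infinity: `exists_Bs`. -/

set_option autoImplicit false

namespace EQW

open Complex Set Filter Topology Metric
open EQH (CK)

variable {k μ ρ : ℝ} {α lX lD : ℂ → ℂ} {G : Set ℂ}

private theorem ev_left {P : ℂ → Prop} (h : ∀ᶠ x in comap Complex.re atBot, P x) :
    ∃ b : ℝ, ∀ x : ℂ, x.re < b → P x := by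
  rw [eventually_comap] at h
  obtain ⟨b, hb⟩ := eventually_atBot.1 h
  exact ⟨b, fun x hx => hb x.re hx.le x rfl⟩

theorem exists_Bs' (h : EQH.TCh k μ ρ α lX lD) (hG : Tgt G) :
    ∃ (R : ℝ) (DI XI : ℂ → ℂ),
      Bs k μ (Real.log ρ) R G (EQH.qT α) (EQH.LT lX) (EQH.LT lD) DI XI ∧
      (∀ z ∈ Ar R, DI z = exp (EQH.LT lD (XI z))) ∧
      (∀ z ∈ Ar R, z.im = 0 → (XI z).im = 0) ∧
      ∀ b : ℝ, ∃ B : ℝ, ∀ z ∈ Ar R, B < ‖z‖ → (XI z).re < b := by
  have hρ := h.hρ
  have hμ := h.hμ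
  have hk := h.hk
  have hμ0 : 0 < μ := by linarith
  have hl : 0 < Real.log μ := Real.log_pos hμ
  have hpi := Real.pi_pos
  have hCh := h.toCh
  have hLp := hCh.loop
  have hQd := hCh.qd hLp
  obtain ⟨R0, XI, hQ⟩ := EQH.exists_QB h
  set q := EQH.qT α with hq
  set LX := EQH.LT lX with hLX
  set LD := EQH.LT lD with hLD
  set f0 : ℝ := 1 / (1 + μ ^ k) with hf0
  have hmk : 0 < μ ^ k := Real.rpow_pos_of_pos hμ0 k
  have hf00 : 0 < f0 := by positivity
  have hf01 : f0 < 1 := by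
    rw [hf0, div_lt_one (by positivity)]
    linarith
  have e1 : ∀ᶠ x in comap Complex.re atBot, EQH.ff k μ LX LD x ∈ G :=
    hCh.flim (hG.op.mem_nhds (hG.unit f0 hf00 hf01))
  have e2 : ∀ᶠ x in comap Complex.re atBot, ‖LD x + x - (Real.log (μ - 1) : ℂ)‖ < 1 := by
    have := hCh.lD (ball_mem_nhds _ (zero_lt_one' ℝ))
    filter_upwards [this] with x hx
    simpa [dist_eq_norm] using hx
  obtain ⟨b2, hb2⟩ := ev_left (e1.and e2)
  obtain ⟨b1, hb1⟩ := hQ.inv
  obtain ⟨R1, hR1⟩ := hQ.lim 1 one_pos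
  obtain ⟨R3, hR3⟩ := hQ.limD 1 one_pos
  set R : ℝ := max (max R0 R1) (max R3 (Real.exp (1 - b2))) with hR
  have hR0 : 0 < R := lt_of_lt_of_le (by linarith [hQ.hR]) ((le_max_left R0 R1).trans (le_max_left _ _))
  have sub0 : ∀ z ∈ Ar R, z.re < 0 ∧ R0 < ‖z‖ := fun z hz =>
    ⟨hz.1, lt_of_le_of_lt ((le_max_left R0 R1).trans (le_max_left _ _)) hz.2⟩
  have ne0 : ∀ z : ℂ, z.re < 0 → z ≠ 0 := by
    rintro z hz rfl
    simp at hz
  have imXI : ∀ z ∈ Ar R, |(XI z).im| < Real.pi / 2 := by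
    intro z hz
    obtain ⟨h1, h2⟩ := sub0 z hz
    rcases lt_trichotomy z.im 0 with h3 | h3 | h3
    · have := hQ.imX' z h1 h2 h3
      rw [abs_lt]
      constructor <;> linarith
    · rw [hQ.im0 z h1 h2 h3, abs_zero]
      positivity
    · have := hQ.imX z h1 h2 h3
      rw [abs_lt]
      constructor <;> linarith
  have reXI : ∀ z : ℂ, z.re < 0 → R1 < ‖z‖ → |(XI z).re + Real.log ‖z‖| < 1 := by
    intro z h1 h2
    have h3 := hR1 z h1 h2
    have h4 := (Complex.abs_re_le_norm _).trans_lt h3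
    rwa [add_re, log_re, norm_neg] at h4
  have reb2 : ∀ z ∈ Ar R, (XI z).re < b2 := by
    intro z hz
    have h1 : R1 < ‖z‖ := lt_of_le_of_lt ((le_max_right R0 R1).trans (le_max_left _ _)) hz.2
    have h2 : Real.exp (1 - b2) < ‖z‖ :=
      lt_of_le_of_lt ((le_max_right R3 _).trans (le_max_right _ _)) hz.2
    have h3 := reXI z hz.1 h1
    have h4 : 1 - b2 < Real.log ‖z‖ := by
      rw [← Real.log_exp (1 - b2)]
      exact Real.log_lt_log (Real.exp_pos _) h2
    have := (abs_lt.1 h3).2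
    linarith
  have LDim : ∀ z ∈ Ar R, -Real.pi < (LD (XI z)).im ∧ (LD (XI z)).im ≤ Real.pi := by
    intro z hz
    have h1 := (hb2 (XI z) (reb2 z hz)).2
    have h2 := (Complex.abs_im_le_norm _).trans_lt h1
    rw [sub_im, add_im, ofReal_im, sub_zero] at h2
    have h3 := abs_lt.1 h2
    have h4 := abs_lt.1 (imXI z hz)
    have h5 := Real.pi_gt_three
    constructor <;> linarith
  have logD : ∀ z ∈ Ar R, Complex.log (exp (LD (XI z))) = LD (XI z) := fun z hz =>
    Complex.log_exp (LDim z hz).1 (LDim z hz).2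
  have LXeq : ∀ z ∈ Ar R, LXq z = LX (XI z) := by
    intro z hz
    obtain ⟨h1, h2⟩ := sub0 z hz
    unfold LXq
    rw [hQ.logX z h1 h2, mul_div_cancel_left₀ _ two_ne_zero]
  have grow : ∀ z ∈ Ar R, z - exp (LD (XI z)) ∈ Ar R := by
    intro z hz
    obtain ⟨h1, h2⟩ := sub0 z hz
    have h3 := hQ.grow z h1 h2
    have h4 := hQ.reD z h1 h2
    refine ⟨?_, hz.2.trans h3⟩
    rw [sub_re]
    linarith
  have fDeq : ∀ z ∈ Ar R, fD k μ (fun z => exp (LD (XI z))) z = EQH.ff k μ LX LD (XI z) := by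
    intro z hz
    unfold fD EQH.ff
    rw [LXeq z hz, logD z hz]
  have eqn : ∀ z ∈ Ar R, TD k μ (fun z => exp (LD (XI z))) (z - exp (LD (XI z))) = z := by
    intro z hz
    obtain ⟨h1, h2⟩ := sub0 z hz
    unfold TD LS
    rw [fDeq _ (grow z hz), LXeq _ (grow z hz), ← hQ.fT z h1 h2]
    ring
  have key : ∀ w ∈ Ar R, (XI w).re + Real.log μ < b1 →
      q (XI w + Real.log μ) = TD k μ (fun z => exp (LD (XI z))) w ∧
      XI (q (XI w + Real.log μ)) = XI w + Real.log μ := by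
    intro w hw hwb
    have h1 : (XI w + Real.log μ).re < b1 := by simpa using hwb
    have h2 : |(XI w + Real.log μ).im| < Real.pi / 2 := by simpa using imXI w hw
    obtain ⟨h3, h4, h5⟩ := hb1 _ h1 h2
    refine ⟨?_, h5⟩
    set z := q (XI w + Real.log μ) with hz
    have h6 := hQ.fT z h3 h4
    have h7 := hQ.stepX z h3 h4
    have h8 := hQ.grow z h3 h4
    have h9 := hQ.reD z h3 h4
    rw [h7, h5, add_sub_cancel_right] at h6
    have h10 : q (XI (z - exp (LD (XI z)))) = z - exp (LD (XI z)) := by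
      apply hQ.qX
      · rw [sub_re]
        linarith
      · linarith
    rw [h7, h5, add_sub_cancel_right, hQ.qX w (sub0 w hw).1 (sub0 w hw).2] at h10
    have h11 : TD k μ (fun z => exp (LD (XI z))) w = w + exp (LD (XI w + Real.log μ)) := by
      unfold TD LS
      rw [fDeq w hw, LXeq w hw, ← h6]
    rw [h11]
    linear_combination -h10
  have hB0 : ∀ b : ℝ, ∃ B0 : ℝ, ∀ w ∈ Ar R, B0 < ‖w‖ → (XI w).re + Real.log μ < b := by
    intro b
    refine ⟨max R1 (Real.exp (1 - b + Real.log μ)), fun w hw hwB => ?_⟩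
    have h1 : R1 < ‖w‖ := lt_of_le_of_lt (le_max_left _ _) hwB
    have h2 : Real.exp (1 - b + Real.log μ) < ‖w‖ := lt_of_le_of_lt (le_max_right _ _) hwB
    have h3 := reXI w hw.1 h1
    have h4 : 1 - b + Real.log μ < Real.log ‖w‖ := by
      rw [← Real.log_exp (1 - b + Real.log μ)]
      exact Real.log_lt_log (Real.exp_pos _) h2
    have := (abs_lt.1 h3).2
    linarith
  have e3 : ∀ᶠ x in comap Complex.re atBot, ‖q x * exp x - (-1)‖ < 1 / 2 := by
    have := hCh.lq (ball_mem_nhds _ (show (0 : ℝ) < 1 / 2 by norm_num))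
    filter_upwards [this] with x hx
    simpa [dist_eq_norm] using hx
  obtain ⟨b3, hb3⟩ := ev_left e3
  -- `T w` is far away if `w` is
  have tfar : ∀ A : ℝ, ∃ B : ℝ, ∀ w ∈ Ar R, B < ‖w‖ →
      A < ‖TD k μ (fun z => exp (LD (XI z))) w‖ := by
    intro A
    have hA' : 0 < max A R := lt_of_lt_of_le hR0 (le_max_right _ _)
    obtain ⟨B, hB⟩ := hB0 (min b1 (min b3 (-Real.log (2 * max A R))))
    refine ⟨B, fun w hw hwB => ?_⟩
    have h1 := hB w hw hwB
    have h2 : (XI w).re + Real.log μ < b1 := lt_of_lt_of_le h1 (min_le_left _ _)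
    have h3 : (XI w).re + Real.log μ < b3 :=
      lt_of_lt_of_le h1 ((min_le_right _ _).trans (min_le_left _ _))
    have h4 : (XI w).re + Real.log μ < -Real.log (2 * max A R) :=
      lt_of_lt_of_le h1 ((min_le_right _ _).trans (min_le_right _ _))
    obtain ⟨h5, -⟩ := key w hw h2
    rw [← h5]
    set x : ℂ := XI w + Real.log μ with hx
    have hxr : x.re = (XI w).re + Real.log μ := by simp [hx]
    have h6 := hb3 x (by rw [hxr]; exact h3)
    have h7 : 1 / 2 < ‖q x * exp x‖ := by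
      have h8 : ‖(-1 : ℂ)‖ ≤ ‖q x * exp x‖ + ‖q x * exp x - (-1)‖ := by
        have := norm_sub_norm_le (-1 : ℂ) (q x * exp x)
        rw [norm_sub_rev] at this
        linarith
      rw [norm_neg, norm_one] at h8
      linarith
    rw [norm_mul, norm_exp] at h7
    have h8 : Real.exp x.re * (2 * max A R) < 1 := by
      have : Real.exp x.re < Real.exp (-Real.log (2 * max A R)) := by
        apply Real.exp_lt_exp.2
        rw [hxr]
        exact h4
      rw [Real.exp_neg, Real.exp_log (by positivity)] at this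
      calc Real.exp x.re * (2 * max A R) < (2 * max A R)⁻¹ * (2 * max A R) := by
            apply mul_lt_mul_of_pos_right this (by positivity)
        _ = 1 := inv_mul_cancel₀ (by positivity)
    have h9 : max A R < ‖q x‖ := by
      by_contra hcon
      have h10 := not_lt.1 hcon
      have h11 : ‖q x‖ * Real.exp x.re ≤ max A R * Real.exp x.re :=
        mul_le_mul_of_nonneg_right h10 (Real.exp_pos _).le
      nlinarith
    exact lt_of_le_of_lt (le_max_left _ _) h9
  refine ⟨R, fun z => exp (LD (XI z)), XI, ?_, fun z _ => rfl,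
    fun z hz h0 => hQ.im0 z (sub0 z hz).1 (sub0 z hz).2 h0, fun b => ?_⟩
  rotate_left
  · obtain ⟨B, hB⟩ := hB0 b
    exact ⟨B, fun w hw hwB => by have := hB w hw hwB; linarith⟩
  have hXd : ∀ z ∈ Ar R, DifferentiableAt ℂ XI z := by
    intro z hz
    obtain ⟨h1, h2⟩ := sub0 z hz
    have ho : IsOpen {z : ℂ | z.re < 0 ∧ R0 < ‖z‖} :=
      (isOpen_lt Complex.continuous_re continuous_const).inter
        (isOpen_lt continuous_const continuous_norm)
    exact hQ.dXI.differentiableAt (ho.mem_nhds ⟨h1, h2⟩)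
  have hXl : ∀ z ∈ Ar R, (XI z).re < Real.log ρ + Real.log μ := by
    intro z hz
    have := hQ.reX z (sub0 z hz).1 (sub0 z hz).2
    linarith
  constructor
  · exact hR0
  · intro z hz
    have h1 : DifferentiableAt ℂ LD (XI z) := hCh.dD' (hXl z hz)
    exact ((h1.comp z (hXd z hz)).cexp).differentiableWithinAt
  · intro z hz
    exact hQ.reD z (sub0 z hz).1 (sub0 z hz).2
  · intro z hz
    show exp (LD (XI ((starRingEnd ℂ) z))) = (starRingEnd ℂ) (exp (LD (XI z)))
    rw [hQ.cj z (sub0 z hz).1 (sub0 z hz).2, hCh.Dcj _ (hXl z hz), Complex.exp_conj]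
  · intro z hz hi
    obtain ⟨h1, h2⟩ := sub0 z hz
    have h3 := hQ.stepX z h1 h2
    have h4 := hQ.imX z h1 h2 hi
    have h5 : q (XI (z - exp (LD (XI z)))) = z - exp (LD (XI z)) :=
      hQ.qX _ (sub0 _ (grow z hz)).1 (sub0 _ (grow z hz)).2
    rw [← h5, h3]
    have h6 : (XI z - Real.log μ).re < Real.log ρ := by
      have := hQ.reX z h1 h2
      simp only [sub_re, ofReal_re]
      linarith
    refine (hQd.quad _ h6 ?_ ?_).2
    · simpa using h4.1
    · simpa using h4.2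
  · intro z hz
    exact (hQ.grow z (sub0 z hz).1 (sub0 z hz).2).le
  · intro z hz
    have h1 := fDeq _ (grow z hz)
    show fD k μ (fun z => exp (LD (XI z))) (z - exp (LD (XI z))) ∈ G
    rw [h1]
    exact (hb2 _ (reb2 _ (grow z hz))).1
  · exact eqn
  · intro z hz
    exact (hXd z hz).differentiableWithinAt
  · intro z hz hi
    exact hQ.imX z (sub0 z hz).1 (sub0 z hz).2 hi
  · intro z hz
    exact hQ.stepX z (sub0 z hz).1 (sub0 z hz).2
  · intro z hz
    exact hQ.reX z (sub0 z hz).1 (sub0 z hz).2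
  · intro z hz
    exact hQ.qX z (sub0 z hz).1 (sub0 z hz).2
  · intro z hz
    exact (logD z hz).symm
  · -- `D + (μ - 1) q = μ (α (t/μ) - α t) / t`, `t = exp x`
    have hρμ : 0 < μ * ρ := by positivity
    have hm0 : (0 : ℂ) ∈ ball (0 : ℂ) (μ * ρ) := mem_ball_self hρμ
    have hαan : AnalyticAt ℂ α 0 := (h.dα.analyticOnNhd isOpen_ball) 0 hm0
    have hα' : HasDerivAt α 0 0 := by
      have h1 : HasDerivAt α (deriv α 0) 0 := hαan.differentiableAt.hasDerivAt
      have h2 : HasDerivAt (fun t : ℂ => α (-t)) (-deriv α 0) 0 := by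
        have h3 : HasDerivAt α (deriv α 0) (-0) := by rwa [neg_zero]
        have := h3.comp (0 : ℂ) (hasDerivAt_neg (0 : ℂ))
        simpa [Function.comp_def] using this
      have h4 : (fun t : ℂ => α (-t)) =ᶠ[𝓝 0] α := by
        filter_upwards [ball_mem_nhds (0 : ℂ) hρμ] with t ht
        exact h.even t (mem_ball_zero_iff.1 ht)
      have h5 := (h2.congr_of_eventuallyEq h4.symm).unique h1
      have h6 : deriv α 0 = 0 := by linear_combination (-1 / 2 : ℂ) * h5
      rwa [h6] at h1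
    intro ε hε
    have hs : ∀ᶠ t in 𝓝[≠] (0 : ℂ), ‖t⁻¹ * (α t - 1)‖ < ε / (2 * μ) := by
      have h1 := hα'.tendsto_slope_zero
      simp only [zero_add, h.α0, smul_eq_mul] at h1
      have h2 := h1 (ball_mem_nhds (0 : ℂ) (show 0 < ε / (2 * μ) by positivity))
      filter_upwards [h2] with t ht
      exact mem_ball_zero_iff.1 ht
    obtain ⟨δ, hδ, hδall⟩ : ∃ δ : ℝ, 0 < δ ∧ ∀ t : ℂ, t ≠ 0 → ‖t‖ < δ →
        ‖t⁻¹ * (α t - 1)‖ < ε / (2 * μ) := by
      rw [eventually_nhdsWithin_iff, Metric.eventually_nhds_iff] at hs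
      obtain ⟨δ, hδ, h1⟩ := hs
      exact ⟨δ, hδ, fun t h0 ht => h1 (by rwa [dist_zero_right]) h0⟩
    obtain ⟨B, hB⟩ := hB0 (Real.log δ)
    refine ⟨B, fun z hz hzB => ?_⟩
    have h1 := hB z hz hzB
    have hx := hXl z hz
    set x := XI z with hx'
    have h2 : exp (LD x) = q x - q (x - Real.log μ) := hCh.expD _ hx
    have h3 : q x = z := hQ.qX z (sub0 z hz).1 (sub0 z hz).2
    have ht0 : exp x ≠ 0 := exp_ne_zero x
    have htn : ‖exp x‖ < δ := by
      rw [norm_exp]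
      exact (Real.lt_log_iff_exp_lt hδ).1 (by linarith)
    have htn' : ‖exp x / μ‖ < δ := by
      rw [norm_div, Complex.norm_real, Real.norm_of_nonneg hμ0.le]
      exact (div_le_self (norm_nonneg _) hμ.le).trans_lt htn
    have e1 : exp (-(x - Real.log μ)) = (exp x)⁻¹ * μ := by
      rw [neg_sub, Complex.exp_sub, ← Complex.ofReal_exp, Real.exp_log hμ0]
      field_simp
    have e2 : exp (x - Real.log μ) = exp x / μ := by
      rw [Complex.exp_sub, ← Complex.ofReal_exp, Real.exp_log hμ0]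
    have hμc : (μ : ℂ) ≠ 0 := by exact_mod_cast hμ0.ne'
    have h4 : exp (LD x) + ((μ - 1 : ℝ) : ℂ) * z =
        ((exp x / μ)⁻¹ * (α (exp x / μ) - 1)) - μ * ((exp x)⁻¹ * (α (exp x) - 1)) := by
      rw [h2, ← h3]
      show -exp (-x) * α (exp x) - -exp (-(x - Real.log μ)) * α (exp (x - Real.log μ)) +
        ((μ - 1 : ℝ) : ℂ) * (-exp (-x) * α (exp x)) = _
      rw [e1, e2, Complex.exp_neg]
      push_cast
      field_simp
      ring
    show ‖exp (LD x) + ((μ - 1 : ℝ) : ℂ) * z‖ < ε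
    rw [h4]
    have h5 := hδall _ (div_ne_zero ht0 hμc) htn'
    have h6 := hδall _ ht0 htn
    have h7 : ε / (2 * μ) < ε / 2 := by
      apply div_lt_div_of_pos_left hε (by norm_num) (by linarith)
    calc ‖((exp x / μ)⁻¹ * (α (exp x / μ) - 1)) - μ * ((exp x)⁻¹ * (α (exp x) - 1))‖
        ≤ ‖(exp x / μ)⁻¹ * (α (exp x / μ) - 1)‖ + ‖(μ : ℂ) * ((exp x)⁻¹ * (α (exp x) - 1))‖ :=
          norm_sub_le _ _
      _ < ε / 2 + ε / 2 := by
          rw [norm_mul (μ : ℂ), Complex.norm_real, Real.norm_of_nonneg hμ0.le]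
          have : μ * ‖(exp x)⁻¹ * (α (exp x) - 1)‖ < μ * (ε / (2 * μ)) :=
            mul_lt_mul_of_pos_left h6 hμ0
          have e : μ * (ε / (2 * μ)) = ε / 2 := by field_simp
          rw [e] at this
          linarith
      _ = ε := by ring
  · exact tfar
  · obtain ⟨B1, hB1⟩ := hB0 b1
    obtain ⟨B2, hB2⟩ := tfar R
    refine ⟨max B1 B2, fun w hw hwB _ => ?_⟩
    have h1 : B1 < ‖w‖ := lt_of_le_of_lt (le_max_left _ _) hwB
    have h2 : B2 < ‖w‖ := lt_of_le_of_lt (le_max_right _ _) hwB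
    refine ⟨hB2 w hw h2, ?_⟩
    obtain ⟨h3, h4⟩ := key w hw (hB1 w hw h1)
    have h5 : (XI w + Real.log μ).re < Real.log ρ + Real.log μ := by
      have := hQ.reX w (sub0 w hw).1 (sub0 w hw).2
      simpa using this
    have h6 := hCh.expD _ h5
    show TD k μ (fun z => exp (LD (XI z))) w -
      exp (LD (XI (TD k μ (fun z => exp (LD (XI z))) w))) = w
    rw [← h3, h4, h6, add_sub_cancel_right, hQ.qX w (sub0 w hw).1 (sub0 w hw).2]
    ring

/-- on the real axis near `-infinity` the germ is the real unstable curve `Vr` -/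
def RBase (k μ Q : ℝ) (DI : ℂ → ℂ) : Prop :=
  ∀ x : ℝ, x ≤ -Q → (DI (x : ℂ)).im = 0 ∧ 0 < (DI (x : ℂ)).re ∧
    ∃ t, 0 < t ∧ t ≤ EQK.tcr k μ ∧
      EQK.Vr k μ t = (-x * (μ - 1) / (DI (x : ℂ)).re, (μ - 1) / (DI (x : ℂ)).re)

/-- THE START: Theorem H, the germ at infinity, the real base. -/
theorem exists_germ (hk : 2 < k) (hμ : 1 < μ) (hG : Tgt G) :
    ∃ (u R Q : ℝ) (q LX LD DI XI : ℂ → ℂ), EQH.HL k μ u q LX LD ∧
      Bs k μ u R G q LX LD DI XI ∧ R < Q ∧ RBase k μ Q DI := by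
  obtain ⟨ρ0, h0⟩ := EQH.exists_TCh (k := k) (μ := μ) (by linarith) hμ
  obtain ⟨ρ, α', lX', lD', hT, ⟨hA, -, hAD⟩, -, hH⟩ := EQH.theoremH h0
  obtain ⟨R, DI, XI, hB, hDI, hX0, hXb⟩ := exists_Bs' hT hG
  obtain ⟨b, hb⟩ := EQH.base_chart (k := k) (by linarith) hμ
  have hev : ∀ᶠ t in 𝓝 (0 : ℂ), α' t = EQH.aT k μ t ∧ lD' t = EQH.lDT k μ t := hA.and hAD
  obtain ⟨δ, hδ, hδall⟩ := Metric.eventually_nhds_iff.1 hev
  obtain ⟨B, hBB⟩ := hXb (min b (Real.log δ))
  refine ⟨Real.log ρ, R, max B R + 1, _, _, _, DI, XI, hH, hB, ?_, ?_⟩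
  · linarith [le_max_right B R]
  · intro x hx
    have hR := hB.hR
    have hB1 := le_max_left B R
    have hB2 := le_max_right B R
    have hx0 : x < 0 := by linarith
    have hxn : ‖(x : ℂ)‖ = -x := by
      rw [Complex.norm_real, Real.norm_of_nonpos hx0.le]
    have hxA : (x : ℂ) ∈ Ar R := ⟨by simpa using hx0, by rw [hxn]; linarith⟩
    have h1 := hX0 _ hxA (Complex.ofReal_im x)
    have h2 := hBB _ hxA (by rw [hxn]; linarith)
    set y : ℝ := (XI x).re with hy
    have h3 : XI x = (y : ℂ) := Complex.ext (by simp [hy]) (by simp [h1])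
    have hyb : y < b := h2.trans_le (min_le_left _ _)
    have hyδ : y < Real.log δ := h2.trans_le (min_le_right _ _)
    have hyδ' : Real.exp y < δ := (Real.lt_log_iff_exp_lt hδ).1 hyδ
    have h4 := hδall (y := exp (y : ℂ)) (by
      rw [dist_zero_right, norm_exp, Complex.ofReal_re]
      exact hyδ')
    have h5 : EQH.LT lD' (XI x) = EQH.LD0 k μ (y : ℂ) := by
      rw [← EQH.LT_lDT, h3]
      unfold EQH.LT
      rw [h4.2]
    have h6 : EQH.q0 k μ (y : ℂ) = x := by
      rw [← EQH.qT_aT, ← hB.qX _ hxA, h3]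
      unfold EQH.qT
      rw [h4.1]
    obtain ⟨c1, c2, c3, c4, c5⟩ := hb y hyb
    have h7 := hDI _ hxA
    rw [h5] at h7
    rw [h6] at c5
    rw [h7]
    exact ⟨c3, c4, Real.exp y, Real.exp_pos y, c1, by simpa using c5⟩

end EQW
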