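import Pool.Agent.Lib.MP_226de1_co.Sw.RealE
import Pool.Agent.Lib.MP_226de1_co.Sw.Germ

/-! The germ at infinity. -/

set_option autoImplicit false

namespace EQW

open Complex Set Filter Topology Metric
open EQH (CK HL ff)

variable {k μ : ℝ} {dn dp : Bool → ℝ → ℝ}

/-- `EQH.exists_TCh`, `EQH.theoremH`, `EQH.exists_QB`: `DI z = exp (LD (XI z))`; `f → 1/(1 + μ^k) ∈ G` at
infinity; `far`, `inj`: `T w = q (XI w + log μ)` near infinity. `BD`: `EQH.base_chart`. -/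
theorem exists_Bs {G : Set ℂ} (hG : Tgt G) (hk : 2 < k) (hL : EQK.LineSys k μ dn dp) :
    ∃ (u R : ℝ) (q LX LD DI XI : ℂ → ℂ), HL k μ u q LX LD ∧ Bs k μ u R G q LX LD DI XI ∧
      BD k μ dn dp DI := by
  obtain ⟨u, R, Q, q, LX, LD, DI, XI, hH, hB, -, hR⟩ := exists_germ hk hL.hμ hG
  exact ⟨u, R, q, LX, LD, DI, XI, hH, hB, hL, Q, fun x hx => (hR x hx).2.2⟩

end EQW
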