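import Pool.Agent.Lib.MP_226de1_co.Sw.Defs

/-! Elementary facts about `LXq`, `fD`, `TD`. -/

set_option autoImplicit false

namespace EQW

open Complex Set Filter Topology Metric
open EQH (CK)

variable {k μ : ℝ}

private theorem sb_re (z : ℂ) : (1 + z ^ 2).re = 1 + z.re ^ 2 - z.im ^ 2 := by
  simp only [pow_two, add_re, one_re, mul_re]
  ring

private theorem sb_im (z : ℂ) : (1 + z ^ 2).im = 2 * z.re * z.im := by
  simp only [pow_two, add_im, one_im, mul_im]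
  ring

private theorem sb_LXq (z : ℂ) : LXq z = ((1 / 2 : ℝ) : ℂ) * log (1 + z ^ 2) := by
  unfold LXq
  push_cast
  ring

private theorem sb_LXq_im (z : ℂ) : (LXq z).im = arg (1 + z ^ 2) / 2 := by
  rw [sb_LXq, im_ofReal_mul, log_im]
  ring

private theorem sb_LXq_re (z : ℂ) : (LXq z).re = Real.log ‖1 + z ^ 2‖ / 2 := by
  rw [sb_LXq, re_ofReal_mul, log_re]
  ring

private theorem sb_arg {p : ℂ} (h : p ∈ slitPlane) : -Real.pi < arg p ∧ arg p < Real.pi :=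
  ⟨neg_pi_lt_arg p, lt_of_le_of_ne (arg_le_pi p) (mem_slitPlane_iff_arg.1 h).1⟩

/-- for `Re z < 0`: `1 + z ^ 2` real and `≤ 0` would need `Im z = 0`, then `1 + z ^ 2 ≥ 1`. -/
theorem one_add_sq_slit {z : ℂ} (hz : z.re < 0) : 1 + z ^ 2 ∈ slitPlane := by
  rw [mem_slitPlane_iff]
  by_cases h : z.im = 0
  · left
    rw [sb_re, h]
    nlinarith [sq_nonneg z.re]
  · right
    rw [sb_im]
    exact mul_ne_zero (mul_ne_zero two_ne_zero hz.ne) h

theorem LXq_diff {z : ℂ} (hz : z.re < 0) : DifferentiableAt ℂ LXq z := by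
  have h : DifferentiableAt ℂ (fun z : ℂ => 1 + z ^ 2) z := by fun_prop
  exact (h.clog (one_add_sq_slit hz)).div_const 2

theorem exp_two_LXq {z : ℂ} (hz : z.re < 0) : exp (2 * LXq z) = 1 + z ^ 2 := by
  have h : 2 * LXq z = log (1 + z ^ 2) := by
    unfold LXq
    ring
  rw [h, exp_log (slitPlane_ne_zero (one_add_sq_slit hz))]

/-- `|arg (1 + z ^ 2)| < pi` -/
theorem LXq_im_abs {z : ℂ} (hz : z.re < 0) : |(LXq z).im| < Real.pi / 2 := by
  obtain ⟨h1, h2⟩ := sb_arg (one_add_sq_slit hz)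
  rw [sb_LXq_im, abs_lt]
  constructor <;> linarith

/-- second quadrant: `Im (1 + z ^ 2) = 2 Re z Im z < 0` -/
theorem LXq_im {z : ℂ} (hz : z.re < 0) (hi : 0 < z.im) :
    -(Real.pi / 2) < (LXq z).im ∧ (LXq z).im < 0 := by
  obtain ⟨h1, -⟩ := sb_arg (one_add_sq_slit hz)
  have h3 : arg (1 + z ^ 2) < 0 := by
    rw [arg_neg_iff, sb_im]
    nlinarith
  rw [sb_LXq_im]
  constructor <;> linarith

/-- `Re (1 + z ^ 2) ≥ 0` gives `|arg xi| ≤ pi / 4` -/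
theorem LXq_im_le {z : ℂ} (hz : 0 ≤ (1 + z ^ 2).re) : |(LXq z).im| ≤ Real.pi / 4 := by
  have h := abs_arg_le_pi_div_two_iff.2 hz
  rw [abs_le] at h
  rw [sb_LXq_im, abs_le]
  constructor <;> linarith [h.1, h.2]

theorem LXq_cj {z : ℂ} (hz : z.re < 0) :
    LXq ((starRingEnd ℂ) z) = (starRingEnd ℂ) (LXq z) := by
  have h1 : 1 + ((starRingEnd ℂ) z) ^ 2 = (starRingEnd ℂ) (1 + z ^ 2) := by
    simp
  rw [sb_LXq, sb_LXq, h1, log_conj _ (mem_slitPlane_iff_arg.1 (one_add_sq_slit hz)).1,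
    map_mul, conj_ofReal]

/-- real for real `z` -/
theorem LXq_real (x : ℝ) : LXq (x : ℂ) = ((Real.log (1 + x ^ 2) / 2 : ℝ) : ℂ) := by
  unfold LXq
  rw [ofReal_div, ofReal_log (by positivity)]
  push_cast
  rfl

theorem fD_diff {D : ℂ → ℂ} {z : ℂ} (hz : z.re < 0) (hD : DifferentiableAt ℂ D z)
    (h0 : 0 < (D z).re) : DifferentiableAt ℂ (fD k μ D) z := by
  have h1 : DifferentiableAt ℂ (fun z => log (D z)) z := hD.clog (Or.inl h0)
  exact ((((LXq_diff hz).sub h1).const_mul (k : ℂ)).cexp).div_const _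

/-- `fD` depends only on the value of `D` at the point -/
theorem fD_congr {D D' : ℂ → ℂ} {z : ℂ} (h : D z = D' z) : fD k μ D z = fD k μ D' z := by
  unfold fD
  rw [h]

theorem TD_congr {D D' : ℂ → ℂ} {z : ℂ} (h : D z = D' z) : TD k μ D z = TD k μ D' z := by
  unfold TD
  rw [fD_congr h]

theorem fD_ne_zero (hμ : 1 < μ) (D : ℂ → ℂ) (z : ℂ) : fD k μ D z ≠ 0 :=
  div_ne_zero (exp_ne_zero _) (ofReal_ne_zero.2 (EQH.CK_pos hμ).ne')

theorem TD_diff {D : ℂ → ℂ} {z : ℂ} (hz : z.re < 0) (hD : DifferentiableAt ℂ D z)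
    (h0 : 0 < (D z).re) (h1 : 1 - fD k μ D z ∈ slitPlane) :
    DifferentiableAt ℂ (TD k μ D) z := by
  have h2 : DifferentiableAt ℂ (fun w => log (1 - fD k μ D w)) z :=
    ((differentiableAt_const 1).sub (fD_diff hz hD h0)).clog h1
  have h3 : DifferentiableAt ℂ (fun w => LXq w - ((1 / k : ℝ) : ℂ) *
      ((Real.log (CK k μ) : ℂ) + log (1 - fD k μ D w))) z :=
    (LXq_diff hz).sub (((differentiableAt_const _).add h2).const_mul _)
  exact differentiableAt_id.add h3.cexp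

theorem slit_of_re {p : ℂ} (h : 0 ≤ p.re) (h0 : p ≠ 0) : p ∈ slitPlane := by
  rw [mem_slitPlane_iff]
  rcases h.lt_or_eq with h1 | h1
  · exact Or.inl h1
  · right
    intro h2
    exact h0 (Complex.ext h1.symm h2)

/-- `Re p ≥ 0`, `p ≠ 0`: `|arg p| ≤ pi / 2` -/
theorem log_im_le {p : ℂ} (h : 0 ≤ p.re) : |(log p).im| ≤ Real.pi / 2 := by
  rw [log_im]
  exact abs_arg_le_pi_div_two_iff.2 h

theorem fD_cj {D : ℂ → ℂ} {z : ℂ} (hz : z.re < 0) (h0 : 0 < (D z).re)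
    (hD : D ((starRingEnd ℂ) z) = (starRingEnd ℂ) (D z)) :
    fD k μ D ((starRingEnd ℂ) z) = (starRingEnd ℂ) (fD k μ D z) := by
  have h1 : (D z).arg ≠ Real.pi := (mem_slitPlane_iff_arg.1 (Or.inl h0)).1
  unfold fD
  rw [LXq_cj hz, hD, log_conj _ h1, map_div₀, conj_ofReal, ← exp_conj, map_mul, map_sub,
    conj_ofReal]

theorem TD_cj {D : ℂ → ℂ} {z : ℂ} (hz : z.re < 0) (h0 : 0 < (D z).re)
    (hD : D ((starRingEnd ℂ) z) = (starRingEnd ℂ) (D z)) (h1 : 1 - fD k μ D z ∈ slitPlane) :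
    TD k μ D ((starRingEnd ℂ) z) = (starRingEnd ℂ) (TD k μ D z) := by
  have h2 : (1 - fD k μ D z).arg ≠ Real.pi := (mem_slitPlane_iff_arg.1 h1).1
  have h3 : 1 - (starRingEnd ℂ) (fD k μ D z) = (starRingEnd ℂ) (1 - fD k μ D z) := by
    rw [map_sub, map_one]
  unfold TD LS
  rw [fD_cj hz h0 hD, LXq_cj hz, h3, log_conj _ h2, map_add, ← exp_conj, map_sub, map_mul,
    map_add, conj_ofReal, conj_ofReal]

/-- For real `x`, and `D x > 0` real: `f = ((1+x^2)^(1/2) / D)^k / C` is real and positive. -/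
theorem fD_real {D : ℂ → ℂ} {x d : ℝ} (hμ : 1 < μ) (hd : 0 < d) (hD : D x = d) :
    fD k μ D x = (((Real.sqrt (1 + x ^ 2) / d) ^ k / CK k μ : ℝ) : ℂ) := by
  have hx : 0 < 1 + x ^ 2 := by positivity
  have hs : 0 < Real.sqrt (1 + x ^ 2) := Real.sqrt_pos.2 hx
  unfold fD
  rw [LXq_real, hD, ← ofReal_log hd.le,
    Real.rpow_def_of_pos (div_pos hs hd), Real.log_div hs.ne' hd.ne', Real.log_sqrt hx.le,
    ofReal_div (Real.exp _), ofReal_exp]
  congr 2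
  push_cast
  ring

/-- `exp (LS X f) ^ (-k) = C (1 - f) exp (- k X)` in the form used for moduli -/
theorem norm_exp_LS (hk : 0 < k) (hμ : 1 < μ) {X f : ℂ} (hf : f ≠ 1) :
    ‖exp (LS k μ X f)‖ = Real.exp X.re * (CK k μ * ‖1 - f‖) ^ (-(1 / k)) := by
  have hC : 0 < CK k μ := EQH.CK_pos hμ
  have hf' : 0 < ‖1 - f‖ := norm_pos_iff.2 (sub_ne_zero.2 hf.symm)
  rw [norm_exp, Real.rpow_def_of_pos (mul_pos hC hf'), ← Real.exp_add,
    Real.log_mul hC.ne' hf'.ne']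
  congr 1
  unfold LS
  rw [sub_re, re_ofReal_mul, add_re, ofReal_re, log_re]
  ring

/-- continuity of the forward step in both variables -/
theorem LS_cont {X f : ℂ} (h : 1 - f ∈ slitPlane) :
    ContinuousAt (fun p : ℂ × ℂ => LS k μ p.1 p.2) (X, f) := by
  have h1 : ContinuousAt (fun p : ℂ × ℂ => log (1 - p.2)) (X, f) := by
    have h2 : ContinuousAt (fun p : ℂ × ℂ => 1 - p.2) (X, f) := by fun_prop
    exact h2.clog h
  have h3 : ContinuousAt (fun p : ℂ × ℂ => p.1) (X, f) := continuousAt_fst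
  unfold LS
  exact h3.sub (continuousAt_const.mul (continuousAt_const.add h1))

/-- moduli: `‖f‖ = (‖xi‖ / ‖D‖)^k / C` -/
theorem norm_fD (hμ : 1 < μ) {D : ℂ → ℂ} {z : ℂ} (hz : 1 + z ^ 2 ≠ 0) (h0 : D z ≠ 0) :
    ‖fD k μ D z‖ = (Real.sqrt ‖1 + z ^ 2‖ / ‖D z‖) ^ k / CK k μ := by
  have hC : 0 < CK k μ := EQH.CK_pos hμ
  have h1 : 0 < ‖1 + z ^ 2‖ := norm_pos_iff.2 hz
  have hs : 0 < Real.sqrt ‖1 + z ^ 2‖ := Real.sqrt_pos.2 h1
  have h2 : 0 < ‖D z‖ := norm_pos_iff.2 h0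
  unfold fD
  rw [norm_div, norm_exp, norm_real, Real.norm_of_nonneg hC.le]
  congr 1
  rw [Real.rpow_def_of_pos (div_pos hs h2), Real.log_div hs.ne' h2.ne', Real.log_sqrt h1.le]
  congr 1
  rw [re_ofReal_mul, sub_re, sb_LXq_re, log_re]
  ring

end EQW
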