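import Pool.Agent.Lib.MP_226de1_co.Sw.Sym
import Pool.Agent.Lib.MP_226de1_co.Sw.Germ
import Pool.Agent.Lib.MP_226de1_co.H.BodyEnd

/-! The body: `D` on the real axis is the pair `dn, dp` of any line system; on the imaginary axis
near `0`, `Re f = 1/2`. -/

set_option autoImplicit false

namespace EQW

open Complex Set Filter Topology Metric
open EQH (CK)
open EQK (LineSys)

variable {k μ u m R Q : ℝ} {G : Set ℂ} {q LX LD DI XI D : ℂ → ℂ} {dn dp : Bool → ℝ → ℝ}

/-- the recursion on the real axis -/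
theorem rec_real (hk : 0 < k) (hμ : 1 < μ) {w d dw : ℝ} (hDw : D w = dw) (hdw : 0 < dw)
    (hf : (fD k μ D w).re < 1) (hT : TD k μ D w = (w + d : ℝ)) :
    0 < d ∧ d ^ (-k) + dw ^ (-k) = CK k μ * (1 + w ^ 2) ^ (-(k / 2)) := by
  have hC : 0 < CK k μ := EQH.CK_pos hμ
  have h1 : (0 : ℝ) < 1 + w ^ 2 := by positivity
  have hS : 0 < Real.sqrt (1 + w ^ 2) := Real.sqrt_pos.2 h1
  set F : ℝ := (Real.sqrt (1 + w ^ 2) / dw) ^ k / CK k μ with hF
  have hfF : fD k μ D w = (F : ℂ) := fD_real hμ hdw hDw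
  have hF1 : F < 1 := by
    rw [hfF, ofReal_re] at hf
    exact hf
  have hF1' : 0 < 1 - F := by linarith
  have hLS : exp (LS k μ (LXq w) (fD k μ D w)) =
      ((Real.exp (Real.log (1 + w ^ 2) / 2 - 1 / k * (Real.log (CK k μ) +
        Real.log (1 - F))) : ℝ) : ℂ) := by
    unfold LS
    rw [hfF, LXq_real]
    have e1 : Complex.log (1 - (F : ℂ)) = ((Real.log (1 - F) : ℝ) : ℂ) := by
      rw [Complex.ofReal_log hF1'.le]
      push_cast
      rfl
    rw [e1, Complex.ofReal_exp]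
    congr 1
    push_cast
    ring
  have hd : d = Real.exp (Real.log (1 + w ^ 2) / 2 - 1 / k * (Real.log (CK k μ) +
        Real.log (1 - F))) := by
    have := hT
    unfold TD at this
    rw [hLS, ← Complex.ofReal_add, Complex.ofReal_inj] at this
    linarith
  have hd0 : 0 < d := by
    rw [hd]
    exact Real.exp_pos _
  refine ⟨hd0, ?_⟩
  have e2 : d ^ (-k) = (1 + w ^ 2) ^ (-(k / 2)) * (CK k μ * (1 - F)) := by
    rw [Real.rpow_def_of_pos hd0, Real.rpow_def_of_pos h1]
    conv_lhs => rw [hd]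
    rw [Real.log_exp]
    have : CK k μ * (1 - F) = Real.exp (Real.log (CK k μ) + Real.log (1 - F)) := by
      rw [Real.exp_add, Real.exp_log hC, Real.exp_log hF1']
    rw [this, ← Real.exp_add]
    congr 1
    field_simp
    ring
  have e3 : (1 + w ^ 2) ^ (-(k / 2)) * (CK k μ * F) = dw ^ (-k) := by
    rw [hF, mul_div_cancel₀ _ hC.ne', Real.div_rpow hS.le hdw.le]
    have hSk : Real.sqrt (1 + w ^ 2) ^ k = (1 + w ^ 2) ^ (k / 2) := by
      rw [Real.sqrt_eq_rpow, ← Real.rpow_mul h1.le]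
      congr 1
      ring
    rw [hSk, Real.rpow_neg h1.le, Real.rpow_neg hdw.le]
    have : (1 + w ^ 2) ^ (k / 2) ≠ 0 := (Real.rpow_pos_of_pos h1 _).ne'
    field_simp
  rw [e2, ← e3]
  ring

/-- real continuation: `E > 0` on `q < b` with the recursion, `E = DI` near `-infinity` -/
theorem real_dn (hL : LineSys k μ dn dp) (hR : RBase k μ Q DI) {b : ℝ} {E : ℝ → ℝ}
    (hE : ∀ q, q < b → 0 < E q)
    (hrec : ∀ q, q < b → E q ^ (-k) + E (q - E q) ^ (-k) =
      CK k μ * (1 + (q - E q) ^ 2) ^ (-(k / 2)))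
    (hbase : ∀ q : ℝ, q ≤ -Q → q < b → E q = (DI (q : ℂ)).re) :
    ∀ q, q < b → ∀ s, E q = dn s q ∧ E q = dp s (-q) := by
  have hb : ∀ q, q ≤ -Q → q < b → ∃ t, 0 < t ∧ t ≤ EQK.tcr k μ ∧
      EQK.Vr k μ t = (-q * (μ - 1) / E q, (μ - 1) / E q) := by
    intro q h1 h2
    obtain ⟨-, -, h3⟩ := hR q h1
    rw [hbase q h1 h2]
    exact h3
  intro q hq s
  exact ⟨EQH.E_eq_dn hL hE hrec hb q hq s, EQH.E_eq_dp hL hE hrec hb q hq s⟩

/-- for real `w < -m`: `D w` is real and positive -/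
theorem SW.ofReal (h : SW k μ m R G DI D) (hB : Bs k μ u R G q LX LD DI XI) {x : ℝ}
    (hx : x < -m) : D x = ((D x).re : ℂ) ∧ 0 < (D x).re := by
  have hx' : (x : ℂ) ∈ Hp m := by
    show (x : ℂ).re < -m
    simpa using hx
  exact ⟨Complex.ext (by simp) (by simpa using SW.real hB h hx' (Complex.ofReal_im x)),
    h.reD _ hx'⟩

/-- the recursion for `SW` on the real axis; `d` is the value of `D` or of an extension of `D` at
the real point `x`. -/
theorem SW.recr (hk : 0 < k) (hμ : 1 < μ) (hT : Tgt G) (h : SW k μ m R G DI D)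
    (hB : Bs k μ u R G q LX LD DI XI) {x d : ℝ} (hx : x - d < -m)
    (hf : fD k μ D ((x - d : ℝ) : ℂ) ∈ G) (he : TD k μ D ((x - d : ℝ) : ℂ) = x) :
    0 < d ∧ d ^ (-k) + (D ((x - d : ℝ) : ℂ)).re ^ (-k) =
      CK k μ * (1 + (x - d) ^ 2) ^ (-(k / 2)) := by
  obtain ⟨h1, h2⟩ := h.ofReal hB hx
  have h3 := hT.re _ hf
  exact rec_real hk hμ h1 h2 h3 (by rw [he]; push_cast; ring)

theorem SW.dn_eq (hL : LineSys k μ dn dp) (hT : Tgt G) (h : SW k μ m R G DI D)
    (hB : Bs k μ u R G q LX LD DI XI) (hR : RBase k μ Q DI) (hRQ : R < Q) {x : ℝ}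
    (hx : x < -m) (s : Bool) : D x = (dn s x : ℂ) ∧ D x = (dp s (-x) : ℂ) := by
  have hk : 0 < k := by linarith [hL.hk]
  have hm := h.hm
  have h0 := real_dn (b := -m) (E := fun x : ℝ => (D x).re) hL hR
    (fun x hx => (h.ofReal hB hx).2) ?_ ?_ x hx s
  · obtain ⟨h1, -⟩ := h.ofReal hB hx
    refine ⟨?_, ?_⟩
    · rw [← h0.1]
      exact h1
    · rw [← h0.2]
      exact h1
  · intro x hx
    obtain ⟨h1, h2⟩ := h.ofReal hB hx
    have hx' : (x : ℂ) ∈ Hp m := by
      show (x : ℂ).re < -m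
      simpa using hx
    have h3 : ((x - (D x).re : ℝ) : ℂ) = (x : ℂ) - D x := by
      conv_rhs => rw [h1]
      push_cast
      rfl
    refine (h.recr hk hL.hμ hT hB (x := x) (d := (D x).re) (by linarith) ?_ ?_).2
    · rw [h3]
      exact h.tgt _ hx'
    · rw [h3]
      exact h.eqn _ hx'
  · intro x hx1 hx2
    have hx' : (x : ℂ) ∈ Hp m := by
      show (x : ℂ).re < -m
      simpa using hx2
    have hR0 := hB.hR
    show (D x).re = (DI x).re
    rw [h.ag _ hx']
    rw [Complex.norm_real, Real.norm_of_nonpos (by linarith)]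
    linarith

/-- THE BODY CONDITION at `q = 0`: if `D` on `Re z < 0` continues to a ball at `0` then there
`f(z) + f(-z) = 1`. -/
theorem body_zero (hL : LineSys k μ dn dp) (hT : Tgt G) (h : SW k μ 0 R G DI D)
    (hB : Bs k μ u R G q LX LD DI XI) (hR : RBase k μ Q DI) (hRQ : R < Q) {ε : ℝ} (hε : 0 < ε)
    (hε1 : ε ≤ 1) {D' : ℂ → ℂ} (hd : DifferentiableOn ℂ D' (ball 0 ε))
    (hag : ∀ z ∈ ball (0 : ℂ) ε, z ∈ Hp 0 → D' z = D z)
    (hall : ∀ z ∈ ball (0 : ℂ) ε, 0 < (D' z).re ∧ z - D' z ∈ Hp 0 ∧ fD k μ D (z - D' z) ∈ G ∧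
      TD k μ D (z - D' z) = z) :
    (∀ z ∈ ball (0 : ℂ) ε, D' ((starRingEnd ℂ) z) = (starRingEnd ℂ) (D' z)) ∧
    (∀ z ∈ ball (0 : ℂ) ε, DifferentiableAt ℂ (fD k μ D') z) ∧
    (∀ z ∈ ball (0 : ℂ) ε, fD k μ D' z + fD k μ D' (-z) = 1) ∧
    ∀ v : ℝ, |v| < ε → (fD k μ D' (v * I)).re = 1 / 2 := by
  have hk : 0 < k := by linarith [hL.hk]
  have hμ := hL.hμ
  have hC : 0 < CK k μ := EQH.CK_pos hμ
  have hsq : ∀ z ∈ ball (0 : ℂ) ε, 0 < (1 + z ^ 2).re := by
    intro z hz
    rw [mem_ball_zero_iff] at hz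
    have h1 : ‖z ^ 2‖ < 1 := by
      rw [norm_pow]
      have := norm_nonneg z
      nlinarith
    have h2 := (abs_lt.1 ((Complex.abs_re_le_norm (z ^ 2)).trans_lt h1)).1
    rw [add_re, one_re]
    linarith
  have hcjb : ∀ z ∈ ball (0 : ℂ) ε, (starRingEnd ℂ) z ∈ ball (0 : ℂ) ε := by
    intro z hz
    rw [mem_ball_zero_iff] at hz ⊢
    rwa [Complex.norm_conj]
  have hcj : ∀ z ∈ ball (0 : ℂ) ε, D' ((starRingEnd ℂ) z) = (starRingEnd ℂ) (D' z) := by
    have h1 : AnalyticOnNhd ℂ D' (ball (0 : ℂ) ε) := hd.analyticOnNhd isOpen_ball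
    have h2 : DifferentiableOn ℂ (fun z => (starRingEnd ℂ) (D' ((starRingEnd ℂ) z)))
        (ball (0 : ℂ) ε) := by
      intro z hz
      have h3 : DifferentiableAt ℂ D' ((starRingEnd ℂ) z) :=
        hd.differentiableAt (isOpen_ball.mem_nhds (hcjb z hz))
      have h4 := h3.conj_conj
      rw [Complex.conj_conj] at h4
      exact h4.differentiableWithinAt
    have h2' := h2.analyticOnNhd isOpen_ball
    have hz0 : ((-(ε / 2) : ℝ) : ℂ) ∈ ball (0 : ℂ) ε := by
      rw [mem_ball_zero_iff, Complex.norm_real, norm_neg, Real.norm_of_nonneg (by linarith)]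
      linarith
    have hev : D' =ᶠ[𝓝 ((-(ε / 2) : ℝ) : ℂ)]
        fun z => (starRingEnd ℂ) (D' ((starRingEnd ℂ) z)) := by
      have ho : ball (0 : ℂ) ε ∩ Hp 0 ∈ 𝓝 ((-(ε / 2) : ℝ) : ℂ) := by
        apply (isOpen_ball.inter (isOpen_Hp 0)).mem_nhds
        refine ⟨hz0, ?_⟩
        show ((-(ε / 2) : ℝ) : ℂ).re < -0
        rw [ofReal_re]
        linarith
      filter_upwards [ho] with z hz
      rw [hag z hz.1 hz.2, hag _ (hcjb z hz.1) (Hp_cj hz.2), SW.cj hB h hz.2, Complex.conj_conj]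
    have h4 := h1.eqOn_of_preconnected_of_eventuallyEq h2'
      (convex_ball _ _).isPreconnected hz0 hev
    intro z hz
    have h5 := h4 (hcjb z hz)
    simp only [Complex.conj_conj] at h5
    exact h5
  have hfd : ∀ z ∈ ball (0 : ℂ) ε, DifferentiableAt ℂ (fD k μ D') z := by
    intro z hz
    have h1 : DifferentiableAt ℂ D' z := hd.differentiableAt (isOpen_ball.mem_nhds hz)
    have h2 : D' z ∈ slitPlane := Or.inl (hall z hz).1
    have h3 : DifferentiableAt ℂ LXq z := by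
      unfold LXq
      have h4 : DifferentiableAt ℂ (fun z : ℂ => 1 + z ^ 2) z := by fun_prop
      exact (h4.clog (Or.inl (hsq z hz))).div_const _
    unfold fD
    exact (((h3.sub (h1.clog h2)).const_mul _).cexp).div_const _
  have hfcj : ∀ z ∈ ball (0 : ℂ) ε,
      fD k μ D' ((starRingEnd ℂ) z) = (starRingEnd ℂ) (fD k μ D' z) := by
    intro z hz
    have h1 : (starRingEnd ℂ) (Complex.log (D' z)) = Complex.log (D' ((starRingEnd ℂ) z)) := by
      rw [hcj z hz, Complex.log_conj]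
      exact (Complex.mem_slitPlane_iff_arg.1 (Or.inl (hall z hz).1)).1
    have h2 : (starRingEnd ℂ) (LXq z) = LXq ((starRingEnd ℂ) z) := by
      unfold LXq
      rw [show 1 + ((starRingEnd ℂ) z) ^ 2 = (starRingEnd ℂ) (1 + z ^ 2) by simp,
        Complex.log_conj _ (Complex.mem_slitPlane_iff_arg.1 (Or.inl (hsq z hz))).1,
        map_div₀, Complex.conj_ofNat]
    unfold fD
    rw [map_div₀, ← Complex.exp_conj, map_mul, map_sub, h1, h2, Complex.conj_ofReal,
      Complex.conj_ofReal]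
  have hreal : ∀ x : ℝ, |x| < ε → D' x = ((D' x).re : ℂ) := by
    intro x hx
    have hx' : (x : ℂ) ∈ ball (0 : ℂ) ε := by
      rw [mem_ball_zero_iff, Complex.norm_real]
      exact hx
    have h1 := hcj _ hx'
    rw [Complex.conj_ofReal] at h1
    exact (Complex.conj_eq_iff_re.1 h1.symm).symm
  -- the real line
  have hbody : ∀ x : ℝ, |x| < ε →
      (D' x).re ^ (-k) + (D' ((-x : ℝ) : ℂ)).re ^ (-k) =
        CK k μ * (1 + x ^ 2) ^ (-(k / 2)) := by
    set E : ℝ → ℝ := fun x => if x < 0 then (D x).re else (D' x).re with hE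
    have hEn : ∀ x : ℝ, x < 0 → E x = (D x).re := fun x hx => by simp only [hE, if_pos hx]
    have hEp : ∀ x : ℝ, 0 ≤ x → E x = (D' x).re := fun x hx => by
      simp only [hE, if_neg (not_lt.2 hx)]
    have hmemb : ∀ x : ℝ, 0 ≤ x → x < ε → (x : ℂ) ∈ ball (0 : ℂ) ε := by
      intro x h1 h2
      rw [mem_ball_zero_iff, Complex.norm_real, Real.norm_of_nonneg h1]
      exact h2
    have hEpos : ∀ x, x < ε → 0 < E x := by
      intro x hx
      by_cases hx0 : x < 0
      · rw [hEn x hx0]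
        exact (h.ofReal hB (by linarith)).2
      · rw [hEp x (not_lt.1 hx0)]
        exact (hall _ (hmemb x (not_lt.1 hx0) hx)).1
    have hErec : ∀ x, x < ε → E x ^ (-k) + E (x - E x) ^ (-k) =
        CK k μ * (1 + (x - E x) ^ 2) ^ (-(k / 2)) := by
      intro x hx
      have h0 := hEpos x hx
      by_cases hx0 : x < 0
      · obtain ⟨h1, h2⟩ := h.ofReal hB (x := x) (by linarith)
        have hx' : (x : ℂ) ∈ Hp 0 := by
          show (x : ℂ).re < -0
          simpa using hx0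
        have h3 : ((x - (D x).re : ℝ) : ℂ) = (x : ℂ) - D x := by
          conv_rhs => rw [h1]
          push_cast
          rfl
        have h4 := (h.recr hk hL.hμ hT hB (x := x) (d := (D x).re) (by linarith)
          (by rw [h3]; exact h.tgt _ hx') (by rw [h3]; exact h.eqn _ hx')).2
        rw [← hEn x hx0, ← hEn (x - E x) (by linarith)] at h4
        exact h4
      · have hx1 := not_lt.1 hx0
        have h1 := hreal x (by rw [abs_of_nonneg hx1]; exact hx)
        have h3 : ((x - (D' x).re : ℝ) : ℂ) = (x : ℂ) - D' x := by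
          conv_rhs => rw [h1]
          push_cast
          rfl
        obtain ⟨-, h5, h6, h7⟩ := hall _ (hmemb x hx1 hx)
        rw [← h3] at h5 h6 h7
        have h8 : x - (D' x).re < -0 := by
          have : (((x - (D' x).re : ℝ) : ℂ)).re < -0 := h5
          rwa [ofReal_re] at this
        have h4 := (h.recr hk hL.hμ hT hB (x := x) (d := (D' x).re) h8 h6 h7).2
        rw [← hEp x hx1, ← hEn (x - E x) (by rw [hEp x hx1]; linarith)] at h4
        exact h4
    have hEb : ∀ x, x ≤ -Q → x < ε → ∃ t, 0 < t ∧ t ≤ EQK.tcr k μ ∧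
        EQK.Vr k μ t = (-x * (μ - 1) / E x, (μ - 1) / E x) := by
      intro x h1 h2
      have hR0 := hB.hR
      have hx0 : x < 0 := by linarith
      obtain ⟨-, -, h3⟩ := hR x h1
      have hx' : (x : ℂ) ∈ Hp 0 := by
        show (x : ℂ).re < -0
        simpa using hx0
      rw [hEn x hx0, h.ag _ hx' (by
        rw [Complex.norm_real, Real.norm_of_nonpos (by linarith)]
        linarith)]
      exact h3
    have hend := EQH.body_end hL hEpos hErec hEb
    have hEx : ∀ x : ℝ, |x| < ε → E x = (D' x).re := by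
      intro x hx
      by_cases hx0 : x < 0
      · rw [hEn x hx0, hag]
        · rw [mem_ball_zero_iff, Complex.norm_real]
          exact hx
        · show (x : ℂ).re < -0
          simpa using hx0
      · exact hEp x (not_lt.1 hx0)
    intro x hx
    have := hend x hx
    rw [hEx x hx, hEx (-x) (by rwa [abs_neg])] at this
    exact this
  have hsum : ∀ x : ℝ, |x| < ε → fD k μ D' x + fD k μ D' (-x) = 1 := by
    intro x hx
    have hx2 : |(-x)| < ε := by rwa [abs_neg]
    have h1 : (0 : ℝ) < 1 + x ^ 2 := by positivity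
    have hmem : ∀ y : ℝ, |y| < ε → (y : ℂ) ∈ ball (0 : ℂ) ε := by
      intro y hy
      rw [mem_ball_zero_iff, Complex.norm_real]
      exact hy
    have hp : ∀ y : ℝ, |y| < ε → 0 < (D' y).re := fun y hy => (hall _ (hmem y hy)).1
    have hF : ∀ y : ℝ, |y| < ε → fD k μ D' y =
        (((1 + y ^ 2) ^ (k / 2) * (D' y).re ^ (-k) / CK k μ : ℝ) : ℂ) := by
      intro y hy
      have hy1 : (0 : ℝ) < 1 + y ^ 2 := by positivity
      have hS : 0 < Real.sqrt (1 + y ^ 2) := Real.sqrt_pos.2 hy1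
      rw [fD_real hμ (hp y hy) (hreal y hy)]
      congr 2
      rw [Real.div_rpow hS.le (hp y hy).le, Real.rpow_neg (hp y hy).le]
      have hSk : Real.sqrt (1 + y ^ 2) ^ k = (1 + y ^ 2) ^ (k / 2) := by
        rw [Real.sqrt_eq_rpow, ← Real.rpow_mul hy1.le]
        congr 1
        ring
      rw [hSk]
      rfl
    have h2 : fD k μ D' (-(x : ℂ)) =
        (((1 + x ^ 2) ^ (k / 2) * (D' ((-x : ℝ) : ℂ)).re ^ (-k) / CK k μ : ℝ) : ℂ) := by
      have := hF (-x) hx2
      rw [neg_sq] at this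
      rw [← this]
      push_cast
      rfl
    rw [hF x hx, h2, ← Complex.ofReal_add, ← add_div, ← mul_add, hbody x hx, Real.rpow_neg h1.le]
    have h3 : (1 + x ^ 2) ^ (k / 2) ≠ 0 := (Real.rpow_pos_of_pos h1 _).ne'
    rw [show (1 + x ^ 2) ^ (k / 2) * (CK k μ * ((1 + x ^ 2) ^ (k / 2))⁻¹) / CK k μ = 1 by
      field_simp]
    simp
  have hnegb : ∀ z ∈ ball (0 : ℂ) ε, -z ∈ ball (0 : ℂ) ε := by
    intro z hz
    rw [mem_ball_zero_iff] at hz ⊢
    rwa [norm_neg]
  have hid : ∀ z ∈ ball (0 : ℂ) ε, fD k μ D' z + fD k μ D' (-z) = 1 := by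
    have h1 : DifferentiableOn ℂ (fun z => fD k μ D' z + fD k μ D' (-z)) (ball (0 : ℂ) ε) := by
      intro z hz
      have h2 : DifferentiableAt ℂ (fun z : ℂ => fD k μ D' (-z)) z :=
        DifferentiableAt.comp (f := fun z : ℂ => -z) (g := fD k μ D') z (hfd _ (hnegb z hz))
          differentiableAt_id.neg
      exact ((hfd z hz).add h2).differentiableWithinAt
    have h1' := h1.analyticOnNhd isOpen_ball
    have h2 : AnalyticOnNhd ℂ (fun _ : ℂ => (1 : ℂ)) (ball (0 : ℂ) ε) := analyticOnNhd_const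
    have h0 : (0 : ℂ) ∈ ball (0 : ℂ) ε := mem_ball_self hε
    have hfr : ∃ᶠ z in 𝓝[≠] (0 : ℂ), (fun z => fD k μ D' z + fD k μ D' (-z)) z =
        (fun _ : ℂ => (1 : ℂ)) z := by
      have ht : Tendsto (fun x : ℝ => (x : ℂ)) (𝓝[≠] 0) (𝓝[≠] 0) := by
        apply tendsto_nhdsWithin_iff.2
        refine ⟨?_, ?_⟩
        · have := Complex.continuous_ofReal.tendsto 0
          rw [Complex.ofReal_zero] at this
          exact this.mono_left nhdsWithin_le_nhds
        · filter_upwards [self_mem_nhdsWithin] with x hx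
          simpa using hx
      apply ht.frequently
      apply Eventually.frequently
      have h3 : ∀ᶠ x : ℝ in 𝓝[≠] 0, |x| < ε := by
        have : ball (0 : ℝ) ε ∈ 𝓝 (0 : ℝ) := ball_mem_nhds _ hε
        filter_upwards [nhdsWithin_le_nhds this] with x hx
        simpa [Real.dist_eq] using hx
      filter_upwards [h3] with x hx
      exact hsum x hx
    have h4 := h1'.eqOn_of_preconnected_of_frequently_eq h2
      (convex_ball _ _).isPreconnected h0 hfr
    intro z hz
    exact h4 hz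
  refine ⟨hcj, hfd, hid, fun v hv => ?_⟩
  have hvb : ((v : ℂ) * I) ∈ ball (0 : ℂ) ε := by
    rw [mem_ball_zero_iff, norm_mul, Complex.norm_I, mul_one, Complex.norm_real]
    exact hv
  have h1 := hid _ hvb
  have h2 := hfcj _ hvb
  rw [map_mul, Complex.conj_ofReal, Complex.conj_I, mul_neg] at h2
  rw [h2] at h1
  have h3 := congrArg Complex.re h1
  rw [add_re, Complex.conj_re, one_re] at h3
  linarith

end EQW
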