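import Pool.Agent.Lib.MP_226de1_co.Sw.Link

/-! The corner: `X z → u + i pi/2` as `z → i` in `Re z < 0` (`m = 0`). -/

set_option autoImplicit false

namespace EQW

open Complex Set Filter Topology Metric
open EQH (CK)

variable {k μ u m R : ℝ} {G : Set ℂ} {q LX LD DI XI D X : ℂ → ℂ}

/-- the open half strip on the left of the corner -/
def Om (u : ℝ) : Set ℂ := {x : ℂ | x.re < u ∧ 0 < x.im ∧ x.im < Real.pi / 2}

theorem isOpen_Om (u : ℝ) : IsOpen (Om u) :=
  (isOpen_lt Complex.continuous_re continuous_const).inter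
    ((isOpen_lt continuous_const Complex.continuous_im).inter
      (isOpen_lt Complex.continuous_im continuous_const))

theorem convex_Om (u : ℝ) : Convex ℝ (Om u) :=
  (convex_halfSpace_re_lt u).inter ((convex_halfSpace_im_gt 0).inter (convex_halfSpace_im_lt _))

private theorem mem_Ar0 (h : SW k μ 0 R G DI D) {z : ℂ} (hz : z ∈ Hp 0) (hn : R < ‖z‖) :
    z ∈ Ar R := ⟨h.reneg hz, hn⟩

/-- `q` maps `Om u` into the open second quadrant and `X (q x) = x` there. -/
theorem X_q (hl : EQH.HL k μ u q LX LD) (hB : Bs k μ u R G q LX LD DI XI)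
    (h : SW k μ 0 R G DI D) (hX : XC k μ 0 R D XI X) {x : ℂ} (hx : x ∈ Om u) :
    q x ∈ Hq 0 ∧ X (q x) = x := by
  have hlm : 0 < Real.log μ := Real.log_pos hl.ch.hμ
  have hq : ∀ x ∈ Om u, q x ∈ Hq 0 := by
    intro x hx
    have := hl.qd.quad x hx.1 hx.2.1 hx.2.2
    exact ⟨by simpa using this.1, this.2⟩
  refine ⟨hq x hx, ?_⟩
  have hqd : ∀ x ∈ Om u, DifferentiableAt ℂ q x := by
    intro x hx
    have : x.re < u + Real.log μ := by linarith [hx.1]
    exact hl.ch.dq.differentiableAt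
      ((isOpen_lt Complex.continuous_re continuous_const).mem_nhds this)
  have hXd : ∀ z ∈ Hp 0, DifferentiableAt ℂ X z := fun z hz =>
    hX.dX.differentiableAt ((isOpen_Hp 0).mem_nhds hz)
  have hF : DifferentiableOn ℂ (fun x => X (q x)) (Om u) := fun x hx =>
    (DifferentiableAt.comp (g := X) x (hXd _ (Hq_sub 0 (hq x hx)))
      (hqd x hx)).differentiableWithinAt
  -- a far point
  let z1 : ℂ := ⟨-1, |R| + 1⟩
  have hz1 : z1 ∈ Hq 0 := by
    constructor
    · show (-1 : ℝ) < -0
      norm_num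
    · show 0 < |R| + 1
      positivity
  have hz1n : R < ‖z1‖ := by
    have h1 := Complex.abs_im_le_norm z1
    have h2 : |z1.im| = |R| + 1 := abs_of_pos (by positivity)
    have h3 := le_abs_self R
    linarith
  have hz1A : z1 ∈ Ar R := mem_Ar0 h (Hq_sub 0 hz1) hz1n
  set x1 := XI z1 with hx1
  have hx1O : x1 ∈ Om u := ⟨hB.reX z1 hz1A, hB.imX z1 hz1A hz1.2⟩
  have hev : (fun x => X (q x)) =ᶠ[𝓝 x1] fun x => x := by
    have hXId : DifferentiableOn ℂ XI (Ar R) := hB.dX
    have hXIa : AnalyticAt ℂ XI z1 := hXId.analyticAt ((isOpen_Ar R).mem_nhds hz1A)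
    have hne : ¬ ∀ᶠ z in 𝓝 z1, XI z = XI z1 := by
      intro hc
      have e1 : ∀ᶠ z in 𝓝 z1, z ∈ Ar R := (isOpen_Ar R).mem_nhds hz1A
      have e2 : ∀ᶠ z in 𝓝 z1, z = z1 := by
        filter_upwards [hc, e1] with z h1 h2
        rw [← hB.qX z h2, h1, hB.qX z1 hz1A]
      have e3 : ∃ᶠ z in 𝓝[≠] z1, z ≠ z1 := by
        apply Filter.Eventually.frequently
        exact self_mem_nhdsWithin
      exact e3 (by
        filter_upwards [e2.filter_mono nhdsWithin_le_nhds] with z hz hz'
        exact hz' hz)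
    have hmap : 𝓝 (XI z1) ≤ Filter.map XI (𝓝 z1) := by
      rcases hXIa.eventually_constant_or_nhds_le_map_nhds with hc | hc
      · exact absurd hc hne
      · exact hc
    have e1 : ∀ᶠ z in 𝓝 z1, X (q (XI z)) = XI z := by
      have e1 : ∀ᶠ z in 𝓝 z1, z ∈ Hq 0 := (isOpen_Hq 0).mem_nhds hz1
      have e2 : ∀ᶠ z : ℂ in 𝓝 z1, R < ‖z‖ :=
        continuousAt_const.eventually_lt continuous_norm.continuousAt hz1n
      filter_upwards [e1, e2] with z h1 h2
      have hA := mem_Ar0 h (Hq_sub 0 h1) h2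
      rw [hB.qX z hA, hX.ag z (Hq_sub 0 h1) h2]
    exact hmap e1
  have hEq := (hF.analyticOnNhd (isOpen_Om u)).eqOn_of_preconnected_of_eventuallyEq
    (differentiableOn_id.analyticOnNhd (isOpen_Om u)) (convex_Om u).isPreconnected hx1O hev
  exact hEq hx

/-- The corner lemma. -/
theorem corner (hl : EQH.HL k μ u q LX LD) (hk : 2 ≤ k) (hB : Bs k μ u R G q LX LD DI XI)
    (h : SW k μ 0 R G DI D) (hX : XC k μ 0 R D XI X) {δ : ℝ}
    (hδ : 0 < δ) : ∃ r : ℝ, 0 < r ∧ ∀ z ∈ Hp 0, ‖z - I‖ < r →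
      ‖X z - ⟨u, Real.pi / 2⟩‖ < δ := by
  have hlm : 0 < Real.log μ := Real.log_pos hl.ch.hμ
  set xc : ℂ := ⟨u, Real.pi / 2⟩ with hxc
  have hqd : ∀ x : ℂ, x.re < u + Real.log μ → DifferentiableAt ℂ q x := fun x hx =>
    hl.ch.dq.differentiableAt ((isOpen_lt Complex.continuous_re continuous_const).mem_nhds hx)
  have hxcre : xc.re < u + Real.log μ := by
    show u < u + Real.log μ
    linarith
  have hqa : AnalyticAt ℂ q xc :=
    hl.ch.dq.analyticAt ((isOpen_lt Complex.continuous_re continuous_const).mem_nhds hxcre)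
  -- isolated preimage of `I`
  have hiso : ∀ᶠ x in 𝓝[≠] xc, q x ≠ I := by
    have h1 : AnalyticAt ℂ (fun x => q x - I) xc := hqa.sub analyticAt_const
    rcases h1.eventually_eq_zero_or_eventually_ne_zero with hc | hc
    · exfalso
      have hd : deriv q xc = 0 := by
        have h2 : (fun x => q x - I) =ᶠ[𝓝 xc] fun _ => (0 : ℂ) := hc
        have h3 := h2.deriv_eq
        rwa [deriv_sub_const, deriv_const] at h3
      have := hl.dcorner.2
      rw [← hxc, hd] at this
      simp at this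
    · filter_upwards [hc] with x hx h0
      exact hx (by rw [h0, sub_self])
  obtain ⟨δ0, hδ0, hball⟩ := Metric.mem_nhdsWithin_iff.mp hiso
  -- the working radius
  set d : ℝ := min (δ / 2) (min (δ0 / 2) (Real.log μ / 2)) with hd
  have hd0 : 0 < d := by
    apply lt_min (by linarith) (lt_min (by linarith) (by linarith))
  have hd1 : d ≤ δ / 2 := min_le_left _ _
  have hd2 : d ≤ δ0 / 2 := (min_le_right _ _).trans (min_le_left _ _)
  have hd3 : d ≤ Real.log μ / 2 := (min_le_right _ _).trans (min_le_right _ _)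
  have hre : ∀ x : ℂ, ‖x - xc‖ ≤ d → x.re < u + Real.log μ := by
    intro x hx
    have h1 := (Complex.abs_re_le_norm (x - xc)).trans hx
    rw [sub_re] at h1
    have h2 := (abs_le.mp h1).2
    have h3 : xc.re = u := rfl
    rw [h3] at h2
    linarith
  -- `q` stays away from `I` on the circle
  have hsph : ∃ r0 : ℝ, 0 < r0 ∧ ∀ x ∈ sphere xc d, r0 ≤ ‖q x - I‖ := by
    have hcomp : IsCompact (sphere xc d) := isCompact_sphere xc d
    have hne : (sphere xc d).Nonempty := NormedSpace.sphere_nonempty.mpr hd0.le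
    have hcont : ContinuousOn (fun x => ‖q x - I‖) (sphere xc d) := by
      intro x hx
      have hx' : ‖x - xc‖ ≤ d := by
        rw [mem_sphere_iff_norm] at hx; exact hx.le
      exact ((hqd x (hre x hx')).continuousAt.sub continuousAt_const).norm.continuousWithinAt
    obtain ⟨x0, hx0, hmin⟩ := hcomp.exists_isMinOn hne hcont
    refine ⟨‖q x0 - I‖, ?_, fun x hx => hmin hx⟩
    rw [norm_pos_iff, sub_ne_zero]
    have hx0' : ‖x0 - xc‖ = d := by rwa [mem_sphere_iff_norm] at hx0
    have : x0 ∈ ball xc δ0 ∩ {xc}ᶜ := by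
      constructor
      · rw [mem_ball_iff_norm, hx0']; linarith
      · intro hc
        rw [mem_singleton_iff] at hc
        rw [hc, sub_self, norm_zero] at hx0'
        linarith
    exact hball this
  obtain ⟨r0, hr0, hr0'⟩ := hsph
  set r : ℝ := min r0 (1 / 2) with hr
  have hrpos : 0 < r := lt_min hr0 (by norm_num)
  have hr1 : r ≤ r0 := min_le_left _ _
  have hr2 : r ≤ 1 / 2 := min_le_right _ _
  set N : Set ℂ := Hp 0 ∩ ball I r with hN
  have hNconv : Convex ℝ N := (convex_Hp 0).inter (convex_ball I r)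
  have hNq : N ⊆ Hq 0 := by
    rintro z ⟨h1, h2⟩
    refine ⟨h1, ?_⟩
    rw [mem_ball_iff_norm] at h2
    have h3 := (Complex.abs_im_le_norm (z - I)).trans h2.le
    rw [sub_im, I_im] at h3
    have := (abs_le.mp h3).1
    linarith
  have hNo : IsOpen N := (isOpen_Hp 0).inter isOpen_ball
  have hXc : ∀ z ∈ Hp 0, ContinuousAt X z := fun z hz =>
    (hX.dX.differentiableAt ((isOpen_Hp 0).mem_nhds hz)).continuousAt
  -- the good set
  set S : Set ℂ := {z : ℂ | z ∈ N ∧ X z ∈ ball xc d} with hS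
  have hSo : IsOpen S := by
    rw [isOpen_iff_mem_nhds]
    rintro z ⟨h1, h2⟩
    have e1 : ∀ᶠ y in 𝓝 z, y ∈ N := hNo.mem_nhds h1
    have e2 : ∀ᶠ y in 𝓝 z, X y ∈ ball xc d := (hXc z h1.1).eventually (isOpen_ball.mem_nhds h2)
    filter_upwards [e1, e2] with y h3 h4 using ⟨h3, h4⟩
  -- nonempty
  have hSne : (N ∩ S).Nonempty := by
    have hq0 : q xc = I := hl.corner
    have e1 : ∀ᶠ x in 𝓝 xc, q x ∈ ball I r := by
      have := (hqd xc hxcre).continuousAt.eventually (isOpen_ball.mem_nhds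
        (show q xc ∈ ball I r by rw [hq0]; exact mem_ball_self hrpos))
      exact this
    have e2 : ∀ᶠ x in 𝓝 xc, x ∈ ball xc d := ball_mem_nhds xc hd0
    have hclo : xc ∈ closure (Om u) := by
      rw [Metric.mem_closure_iff]
      intro ε hε
      have hp := Real.pi_pos
      set e : ℝ := min (ε / 4) (Real.pi / 4) with he
      have he0 : 0 < e := lt_min (by linarith) (by linarith)
      have he1 : e ≤ ε / 4 := min_le_left _ _
      have he2 : e ≤ Real.pi / 4 := min_le_right _ _
      refine ⟨⟨u - e, Real.pi / 2 - e⟩, ⟨?_, ?_, ?_⟩, ?_⟩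
      · show u - e < u
        linarith
      · show 0 < Real.pi / 2 - e
        linarith
      · show Real.pi / 2 - e < Real.pi / 2
        linarith
      · rw [dist_eq_norm]
        have h1 := Complex.norm_le_abs_re_add_abs_im (xc - ⟨u - e, Real.pi / 2 - e⟩)
        have h2 : (xc - (⟨u - e, Real.pi / 2 - e⟩ : ℂ)).re = e := by
          rw [sub_re]; show u - (u - e) = e; ring
        have h3 : (xc - (⟨u - e, Real.pi / 2 - e⟩ : ℂ)).im = e := by
          rw [sub_im]; show Real.pi / 2 - (Real.pi / 2 - e) = e; ring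
        rw [h2, h3, abs_of_pos he0] at h1
        linarith
    obtain ⟨x, hx1, hx2⟩ := ((mem_closure_iff_frequently.mp hclo).and_eventually
      (e1.and e2)).exists
    have h3 := X_q hl hB h hX hx1
    have h4 : q x ∈ N := ⟨Hq_sub 0 h3.1, hx2.1⟩
    refine ⟨q x, h4, h4, ?_⟩
    rw [h3.2]
    exact hx2.2
  have hsub : N ⊆ S := by
    apply hNconv.isPreconnected.subset_of_closure_inter_subset hSo hSne
    rintro z ⟨hcl, hz⟩
    refine ⟨hz, ?_⟩
    have hfr := mem_closure_iff_frequently.mp hcl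
    have hle : X z ∈ closedBall xc d := by
      rw [← closure_ball xc hd0.ne']
      rw [mem_closure_iff_frequently]
      have := (hXc z hz.1).tendsto.frequently (hfr.mono fun y hy => hy.2)
      exact this
    rw [mem_closedBall_iff_norm] at hle
    rw [mem_ball_iff_norm]
    rcases hle.lt_or_eq with h1 | h1
    · exact h1
    · exfalso
      have h2 : X z ∈ sphere xc d := by rw [mem_sphere_iff_norm]; exact h1
      have h3 := hr0' _ h2
      have h4 := (link hl hk hB h hX (hNq hz) (hre _ hle)).1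
      rw [h4] at h3
      have h5 := hz.2
      rw [mem_ball_iff_norm] at h5
      linarith
  refine ⟨r, hrpos, ?_⟩
  intro z hz hzr
  have h1 := (hsub ⟨hz, by rwa [mem_ball_iff_norm]⟩).2
  rw [mem_ball_iff_norm] at h1
  linarith

end EQW
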