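import Pool.Agent.Lib.MP_226de1_co.H.Main
import Pool.Agent.Lib.MP_226de1_co.H.A4
import Pool.Agent.Lib.MP_226de1_co.E1.K.LineSys

/-! The sweep of the half planes `Re z < -m` in the `q`-plane, `k > 2`: definitions.

`z` is the coordinate `q`, `D z = q_0 - q_{-1}`, the preimage is `z - D z`, the forward map is `TD`,
`fD` is `f = (xi/D)^k / C`, the target of `f_{-1}` is the open set `G` (a parameter, contained in
`Re f < 1`). `DI`, `XI` are the germs of `D` and of the `x`-coordinate at `z = infinity`, defined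
on `Ar R = {Re z < 0, R < |z|}`. -/

set_option autoImplicit false

namespace EQW

open Complex Set Filter Topology Metric
open EQH (CK)

/-- the half plane `Re z < -m` -/
def Hp (m : ℝ) : Set ℂ := {z : ℂ | z.re < -m}

/-- its upper half -/
def Hq (m : ℝ) : Set ℂ := {z : ℂ | z.re < -m ∧ 0 < z.im}

/-- the left half plane near infinity -/
def Ar (R : ℝ) : Set ℂ := {z : ℂ | z.re < 0 ∧ R < ‖z‖}

/-- `log xi`, `xi ^ 2 = 1 + z ^ 2`, principal branch (analytic on `Re z < 0`) -/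
noncomputable def LXq (z : ℂ) : ℂ := log (1 + z ^ 2) / 2

/-- `f = (xi/D)^k / C` -/
noncomputable def fD (k μ : ℝ) (D : ℂ → ℂ) (z : ℂ) : ℂ :=
  exp ((k : ℂ) * (LXq z - log (D z))) / (CK k μ : ℂ)

/-- `log` of the forward step `D_1`, as a function of `xi_0` and `f_0` -/
noncomputable def LS (k μ : ℝ) (X f : ℂ) : ℂ :=
  X - (1 / k : ℝ) * ((Real.log (CK k μ) : ℂ) + log (1 - f))

/-- the forward map `T w = w + D_1` -/
noncomputable def TD (k μ : ℝ) (D : ℂ → ℂ) (w : ℂ) : ℂ :=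
  w + exp (LS k μ (LXq w) (fD k μ D w))

/-- admissible targets -/
structure Tgt (G : Set ℂ) : Prop where
  op : IsOpen G
  re : ∀ f ∈ G, f.re < 1
  cj : ∀ f ∈ G, (starRingEnd ℂ) f ∈ G
  unit : ∀ x : ℝ, 0 < x → x < 1 → (x : ℂ) ∈ G

/-- the germ at infinity and its link with the chart `q, LX, LD` (`u` = corner of the chart) -/
structure Bs (k μ u R : ℝ) (G : Set ℂ) (q LX LD DI XI : ℂ → ℂ) : Prop where
  hR : 0 < R
  dD : DifferentiableOn ℂ DI (Ar R)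
  reD : ∀ z ∈ Ar R, 0 < (DI z).re
  cjD : ∀ z ∈ Ar R, DI ((starRingEnd ℂ) z) = (starRingEnd ℂ) (DI z)
  imD : ∀ z ∈ Ar R, 0 < z.im → 0 < (z - DI z).im
  grow : ∀ z ∈ Ar R, ‖z‖ ≤ ‖z - DI z‖
  tgt : ∀ z ∈ Ar R, fD k μ DI (z - DI z) ∈ G
  eqn : ∀ z ∈ Ar R, TD k μ DI (z - DI z) = z
  dX : DifferentiableOn ℂ XI (Ar R)
  imX : ∀ z ∈ Ar R, 0 < z.im → 0 < (XI z).im ∧ (XI z).im < Real.pi / 2
  stepX : ∀ z ∈ Ar R, XI (z - DI z) = XI z - Real.log μ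
  reX : ∀ z ∈ Ar R, (XI z).re < u
  qX : ∀ z ∈ Ar R, q (XI z) = z
  LDX : ∀ z ∈ Ar R, LD (XI z) = log (DI z)
  /-- `DI z = -(μ - 1) z + O(1/z)` -/
  asym : ∀ ε : ℝ, 0 < ε → ∃ B : ℝ, ∀ z ∈ Ar R, B < ‖z‖ → ‖DI z + ((μ - 1 : ℝ) : ℂ) * z‖ < ε
  /-- `T` is proper at infinity -/
  far : ∀ A : ℝ, ∃ B : ℝ, ∀ w ∈ Ar R, B < ‖w‖ → A < ‖TD k μ DI w‖
  /-- `T` is the inverse of `z ↦ z - DI z` near infinity -/
  inj : ∃ B : ℝ, ∀ w ∈ Ar R, B < ‖w‖ → (TD k μ DI w).re < 0 →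
    R < ‖TD k μ DI w‖ ∧ TD k μ DI w - DI (TD k μ DI w) = w

/-- the continuation `D` of `DI` to `Re z < -m`, with target `G` -/
structure SW (k μ m R : ℝ) (G : Set ℂ) (DI D : ℂ → ℂ) : Prop where
  hm : 0 ≤ m
  dD : DifferentiableOn ℂ D (Hp m)
  reD : ∀ z ∈ Hp m, 0 < (D z).re
  tgt : ∀ z ∈ Hp m, fD k μ D (z - D z) ∈ G
  eqn : ∀ z ∈ Hp m, TD k μ D (z - D z) = z
  ag : ∀ z ∈ Hp m, R < ‖z‖ → D z = DI z

/-- the `x`-coordinate on `Re z < -m` -/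
structure XC (k μ m R : ℝ) (D XI X : ℂ → ℂ) : Prop where
  dX : DifferentiableOn ℂ X (Hp m)
  imX : ∀ z ∈ Hq m, 0 < (X z).im ∧ (X z).im < Real.pi / 2
  stepX : ∀ z ∈ Hp m, X (z - D z) = X z - Real.log μ
  ag : ∀ z ∈ Hp m, R < ‖z‖ → X z = XI z

/-- `D` continues analytically near the boundary point `z₀` of `Re z < -m`, with the properties
of `SW` -/
def LocExt (k μ m : ℝ) (G : Set ℂ) (D : ℂ → ℂ) (z₀ : ℂ) : Prop :=
  ∃ ε : ℝ, 0 < ε ∧ ∃ D' : ℂ → ℂ, DifferentiableOn ℂ D' (ball z₀ ε) ∧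
    (∀ z ∈ ball z₀ ε, z ∈ Hp m → D' z = D z) ∧
    ∀ z ∈ ball z₀ ε, 0 < (D' z).re ∧ z - D' z ∈ Hp m ∧ fD k μ D (z - D' z) ∈ G ∧
      TD k μ D (z - D' z) = z

/-- A backward orbit `q 0, q 1 = q_{-1}, ...` in the open second quadrant (`q 0` may lie on the
imaginary axis), `f n = f_{-n}`; all `f n`, `n ≥ 2`, in the target `G`, `f 1` in its closure; `h` is the
analytic function `f ∘ (preimage)` on `Re z < Re q_0`, with values in `G`. -/
structure Orb (k μ : ℝ) (G : Set ℂ) (q f : ℕ → ℂ) (h : ℂ → ℂ) : Prop where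
  hk : 2 < k
  hμ : 1 < μ
  q0re : (q 0).re ≤ 0
  qim : ∀ n, 0 < (q n).im
  qre : ∀ n, (q (n + 1)).re < (q n).re
  /-- `D_{-n} = xi_{-n-1} (C p_{-n-1})^(-1/k)`, principal branches -/
  step : ∀ n, q n - q (n + 1) = exp (LS k μ (LXq (q (n + 1))) (f (n + 1)))
  /-- `f_{-n} = (xi_{-n}/D_{-n})^k / C`, principal branches -/
  fn : ∀ n, 1 ≤ n → f n = exp ((k : ℂ) * (LXq (q n) - log (q n - q (n + 1)))) / (CK k μ : ℂ)
  fG : ∀ n, 2 ≤ n → f n ∈ G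
  f1 : f 1 ∈ closure G
  f1ne : f 1 ≠ 1
  /-- `|arg xi| > pi/4` implies `Re f < 1/2` (Theorem H) -/
  half : ∀ n, 1 ≤ n → (1 + (q n) ^ 2).re < 0 → (f n).re < 1 / 2
  dh : DifferentiableOn ℂ h {z : ℂ | z.re < (q 0).re}
  hG : ∀ z : ℂ, z.re < (q 0).re → h z ∈ G
  hcj : ∀ z : ℂ, z.re < (q 0).re → h ((starRingEnd ℂ) z) = (starRingEnd ℂ) (h z)
  hq : ∀ n, 1 ≤ n → h (q n) = f (n + 1)

/-- THE EXIT LEMMA for the target `G`: the only analytic input of the sweep. -/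
def ExitG (k : ℝ) (G : Set ℂ) : Prop :=
  ∀ (μ : ℝ) (q f : ℕ → ℂ) (h : ℂ → ℂ), Orb k μ G q f h → f 1 ∈ G

theorem isOpen_Hp (m : ℝ) : IsOpen (Hp m) := isOpen_lt Complex.continuous_re continuous_const

theorem isOpen_Hq (m : ℝ) : IsOpen (Hq m) :=
  (isOpen_lt Complex.continuous_re continuous_const).inter
    (isOpen_lt continuous_const Complex.continuous_im)

theorem isOpen_Ar (R : ℝ) : IsOpen (Ar R) :=
  (isOpen_lt Complex.continuous_re continuous_const).inter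
    (isOpen_lt continuous_const continuous_norm)

theorem convex_Hp (m : ℝ) : Convex ℝ (Hp m) := convex_halfSpace_re_lt (-m)

theorem convex_Hq (m : ℝ) : Convex ℝ (Hq m) :=
  (convex_halfSpace_re_lt (-m)).inter (convex_halfSpace_im_gt 0)

theorem Hq_sub (m : ℝ) : Hq m ⊆ Hp m := fun _ h => h.1

theorem Hp_mono {m m' : ℝ} (h : m' ≤ m) : Hp m ⊆ Hp m' := by
  intro z hz
  have : z.re < -m := hz
  show z.re < -m'
  linarith

theorem Hp_cj {m : ℝ} {z : ℂ} (h : z ∈ Hp m) : (starRingEnd ℂ) z ∈ Hp m := by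
  have : z.re < -m := h
  show ((starRingEnd ℂ) z).re < -m
  simpa using this

end EQW
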