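import Pool.Agent.Lib.MP_226de1_co.Sw.Uniq

/-! Extension across a boundary point `z₀`, `Re z₀ = -m`, `Im z₀ > 0`, from a limit preimage. -/

set_option autoImplicit false

namespace EQW

open Complex Set Filter Topology Metric
open EQH (CK HL ff)

variable {k μ u m R : ℝ} {G : Set ℂ} {q LX LD DI XI D X : ℂ → ℂ}

private theorem good_nhds (hG : Tgt G) (h : SW k μ m R G DI D) {w : ℂ} (hw : w ∈ Hq m)
    (hf : fD k μ D w ∈ G) : {w' | w' ∈ Hq m ∧ fD k μ D w' ∈ G} ∈ 𝓝 w := by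
  have h1 : ∀ᶠ w' in 𝓝 w, w' ∈ Hq m := (isOpen_Hq m).mem_nhds hw
  have h2 : ∀ᶠ w' in 𝓝 w, fD k μ D w' ∈ G :=
    (h.fdiff (Hq_sub m hw)).continuousAt.eventually (hG.op.mem_nhds hf)
  exact h1.and h2

/-- `T' ≠ 0` at a preimage `w ∈ Hq m` of a boundary point. `T` is not locally constant at `w`:
`ws j = zs j - D (zs j) → w` and `T (ws j) = zs j ∈ Hq m` (`SW.eqn`), but `T w = z₀ ∉ Hq m`.
If `deriv T w = 0`, `two_pre` gives two different preimages near `w` of every `z ≠ z₀` near `z₀`, in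
particular of `z = z₀ - s`, `s > 0` small, which is in `Hq m`; both preimages are in `Hq m` and have
`f ∈ G` (`f` is continuous at `w`): contradiction to `uniq`. -/
theorem deriv_T_ne (hG : Tgt G) (hE : ExitG k G) (hH : HL k μ u q LX LD) (hk : 2 < k)
    (hB : Bs k μ u R G q LX LD DI XI) (h : SW k μ m R G DI D) (hX : XC k μ m R D XI X) {w z₀ : ℂ}
    (hw : w ∈ Hq m) (hf : fD k μ D w ∈ G) (hz : z₀.re = -m) (hzi : 0 < z₀.im)
    (hT : TD k μ D w = z₀) {zs : ℕ → ℂ} (hzs : ∀ j, zs j ∈ Hq m)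
    (hws : Tendsto (fun j => zs j - D (zs j)) atTop (𝓝 w)) :
    deriv (TD k μ D) w ≠ 0 := by
  intro hd
  have hwp : w ∈ Hp m := Hq_sub m hw
  have hTa := T_analytic hG h hwp hf
  have hnc : ¬ ∀ᶠ w' in 𝓝 w, TD k μ D w' = TD k μ D w := by
    intro hc
    obtain ⟨j, hj⟩ := (hws.eventually hc).exists
    rw [h.eqn _ (Hq_sub m (hzs j)), hT] at hj
    have h1 : (zs j).re < -m := (hzs j).1
    rw [hj, hz] at h1
    exact lt_irrefl _ h1
  have hN := good_nhds hG h hw hf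
  have h2 := two_pre hTa hd hnc hN
  rw [hT] at h2
  have h3 : Tendsto (fun s : ℝ => z₀ - (s : ℂ)) (𝓝[>] 0) (𝓝 z₀) := by
    have h4 : ContinuousAt (fun s : ℝ => z₀ - (s : ℂ)) 0 := by fun_prop
    have h5 := h4.tendsto
    simp only [ofReal_zero, sub_zero] at h5
    exact h5.mono_left nhdsWithin_le_nhds
  obtain ⟨s, hs, hs0⟩ := ((h3.eventually h2).and self_mem_nhdsWithin).exists
  have hs0' : (0 : ℝ) < s := hs0
  have hne : z₀ - (s : ℂ) ≠ z₀ := by
    intro he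
    have h6 : (s : ℂ) = 0 := by linear_combination -he
    exact hs0'.ne' (by exact_mod_cast h6)
  have hmem : z₀ - (s : ℂ) ∈ Hq m := by
    constructor
    · have : (z₀ - (s : ℂ)).re = z₀.re - s := by simp
      rw [this, hz]
      linarith
    · have : (z₀ - (s : ℂ)).im = z₀.im := by simp
      rw [this]
      exact hzi
  obtain ⟨a, ha, b, hb, hab, hTa', hTb'⟩ := hs hne
  have e1 := uniq hG hE hH hk hB h hX ha.1 hmem ha.2 hTa'
  have e2 := uniq hG hE hH hk hB h hX hb.1 hmem hb.2 hTb'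
  exact hab (e1.trans e2.symm)

/-- Local inverse `τ` of `T` near `z₀` (`local_inverse`), `D' z = z - τ z`. For `z ∈ Hq m` near `z₀`:
`τ z ∈ Hq m`, `f (τ z) ∈ G`, `T (τ z) = z`, so `τ z = z - D z` by `uniq`. `Re D' > 0` near `z₀` because
`Re w < -m = Re z₀`. -/
theorem locExt_of (hG : Tgt G) (hE : ExitG k G) (hH : HL k μ u q LX LD) (hk : 2 < k)
    (hB : Bs k μ u R G q LX LD DI XI) (h : SW k μ m R G DI D) (hX : XC k μ m R D XI X) {w z₀ : ℂ}
    (hw : w ∈ Hq m) (hf : fD k μ D w ∈ G) (hz : z₀.re = -m) (hzi : 0 < z₀.im)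
    (hT : TD k μ D w = z₀) {zs : ℕ → ℂ} (hzs : ∀ j, zs j ∈ Hq m)
    (hws : Tendsto (fun j => zs j - D (zs j)) atTop (𝓝 w)) :
    LocExt k μ m G D z₀ := by
  have hwp : w ∈ Hp m := Hq_sub m hw
  have hd := deriv_T_ne hG hE hH hk hB h hX hw hf hz hzi hT hzs hws
  obtain ⟨τ, hτa, hτ0, hτr, -⟩ := local_inverse (T_analytic hG h hwp hf) hd
  rw [hT] at hτa hτ0 hτr
  have hN := good_nhds hG h hw hf
  have hτc : ContinuousAt τ z₀ := hτa.continuousAt
  have e1 : ∀ᶠ z in 𝓝 z₀, τ z ∈ Hq m ∧ fD k μ D (τ z) ∈ G := by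
    have := hτc.tendsto
    rw [hτ0] at this
    exact this.eventually hN
  have e2 : ∀ᶠ z in 𝓝 z₀, 0 < z.im :=
    continuous_im.continuousAt.eventually (lt_mem_nhds hzi)
  have e3 : ∀ᶠ z in 𝓝 z₀, 0 < (z - τ z).re := by
    have hc : ContinuousAt (fun z => (z - τ z).re) z₀ :=
      continuous_re.continuousAt.comp (continuousAt_id.sub hτc)
    refine hc.eventually (lt_mem_nhds ?_)
    show 0 < (z₀ - τ z₀).re
    rw [hτ0, sub_re, hz]
    have : w.re < -m := hw.1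
    linarith
  have e4 : ∀ᶠ z in 𝓝 z₀, AnalyticAt ℂ τ z := hτa.eventually_analyticAt
  obtain ⟨ε, hε, hball⟩ := Metric.eventually_nhds_iff_ball.1
    ((e1.and e2).and ((e3.and e4).and hτr))
  refine ⟨ε, hε, fun z => z - τ z, ?_, ?_, ?_⟩
  · intro z hzb
    have h4 := (hball z hzb).2.1.2
    exact (differentiableAt_id.sub h4.differentiableAt).differentiableWithinAt
  · intro z hzb hzp
    obtain ⟨⟨h1, h2⟩, -, h5⟩ := hball z hzb
    have := uniq hG hE hH hk hB h hX h1.1 ⟨hzp, h2⟩ h1.2 h5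
    show z - τ z = D z
    rw [this]
    ring
  · intro z hzb
    obtain ⟨⟨h1, h2⟩, ⟨h3, -⟩, h5⟩ := hball z hzb
    have e : z - (z - τ z) = τ z := by ring
    refine ⟨h3, ?_, ?_, ?_⟩
    · show z - (z - τ z) ∈ Hp m
      rw [e]
      exact Hq_sub m h1.1
    · show fD k μ D (z - (z - τ z)) ∈ G
      rw [e]
      exact h1.2
    · show TD k μ D (z - (z - τ z)) = z
      rw [e]
      exact h5

end EQW
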