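import Pool.Agent.Lib.MP_226de1_co.Sw.Uniq
import Pool.Agent.Lib.MP_226de1_co.Sw.Body
import Pool.Agent.Lib.MP_226de1_co.H.RealLip
import Pool.Agent.Lib.MP_226de1_co.H.BodyBase

/-! The real axis: body data. -/

set_option autoImplicit false

namespace EQW

open Complex Set Filter Topology Metric
open EQH (CK HL ff)

variable {k μ u m R : ℝ} {G : Set ℂ} {q LX LD DI XI D X : ℂ → ℂ} {dn dp : Bool → ℝ → ℝ}

/-- a line system whose unstable curve near infinity is described by `DI` -/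
structure BD (k μ : ℝ) (dn dp : Bool → ℝ → ℝ) (DI : ℂ → ℂ) : Prop where
  ls : EQK.LineSys k μ dn dp
  base : ∃ Q0 : ℝ, ∀ q : ℝ, q ≤ -Q0 → ∃ t, 0 < t ∧ t ≤ EQK.tcr k μ ∧
    EQK.Vr k μ t = (-q * (μ - 1) / (DI q).re, (μ - 1) / (DI q).re)

/-- The recursion on the real axis in the form of `EQH.E_eq_dn`: for real `q` in the domain with
`D q = e > 0`, `w = q - e` real, `D w = e' > 0`: `T w = q` means
`e^(-k) + e'^(-k) = C (1 + w^2)^(-k/2)`. -/
theorem real_rec (hk : 0 < k) (hμ : 1 < μ) {D : ℂ → ℂ} {x e e' : ℝ} (he : 0 < e) (he' : 0 < e')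
    (hD : D ((x - e : ℝ) : ℂ) = (e' : ℂ)) (hf : (fD k μ D ((x - e : ℝ) : ℂ)).re < 1)
    (hT : TD k μ D ((x - e : ℝ) : ℂ) = (x : ℂ)) :
    e ^ (-k) + e' ^ (-k) = CK k μ * (1 + (x - e) ^ 2) ^ (-(k / 2)) := by
  refine (rec_real (w := x - e) (d := e) (dw := e') hk hμ hD he' hf ?_).2
  rw [hT]
  congr 1
  ring

/-- conversely -/
theorem T_of_rec (hk : 0 < k) (hμ : 1 < μ) {D : ℂ → ℂ} {w e e' : ℝ} (he : 0 < e) (he' : 0 < e')
    (hD : D (w : ℂ) = (e' : ℂ))
    (hr : e ^ (-k) + e' ^ (-k) = CK k μ * (1 + w ^ 2) ^ (-(k / 2))) :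
    TD k μ D (w : ℂ) = ((w + e : ℝ) : ℂ) ∧ 0 < (fD k μ D (w : ℂ)).re ∧
      (fD k μ D (w : ℂ)).re < 1 ∧ (fD k μ D (w : ℂ)).im = 0 := by
  have hC : 0 < CK k μ := EQH.CK_pos hμ
  have h1 : (0 : ℝ) < 1 + w ^ 2 := by positivity
  have hS : 0 < Real.sqrt (1 + w ^ 2) := Real.sqrt_pos.2 h1
  set F : ℝ := (Real.sqrt (1 + w ^ 2) / e') ^ k / CK k μ with hF
  have hF0 : 0 < F := div_pos (Real.rpow_pos_of_pos (div_pos hS he') k) hC
  have hfF : fD k μ D w = (F : ℂ) := fD_real hμ he' hD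
  have e3 : (1 + w ^ 2) ^ (-(k / 2)) * (CK k μ * F) = e' ^ (-k) := by
    rw [hF, mul_div_cancel₀ _ hC.ne', Real.div_rpow hS.le he'.le]
    have hSk : Real.sqrt (1 + w ^ 2) ^ k = (1 + w ^ 2) ^ (k / 2) := by
      rw [Real.sqrt_eq_rpow, ← Real.rpow_mul h1.le]
      congr 1
      ring
    rw [hSk, Real.rpow_neg h1.le, Real.rpow_neg he'.le]
    have : (1 + w ^ 2) ^ (k / 2) ≠ 0 := (Real.rpow_pos_of_pos h1 _).ne'
    field_simp
  have hw0 : 0 < (1 + w ^ 2) ^ (-(k / 2)) := Real.rpow_pos_of_pos h1 _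
  have e4 : e ^ (-k) = (1 + w ^ 2) ^ (-(k / 2)) * (CK k μ * (1 - F)) := by
    have : e ^ (-k) = CK k μ * (1 + w ^ 2) ^ (-(k / 2)) - e' ^ (-k) := by linarith
    rw [this, ← e3]; ring
  have hF1 : 0 < 1 - F := by
    have h2 : 0 < e ^ (-k) := Real.rpow_pos_of_pos he _
    rw [e4] at h2
    have h3 : 0 < CK k μ * (1 - F) := pos_of_mul_pos_right h2 hw0.le
    exact pos_of_mul_pos_right h3 hC.le
  have hLS : exp (LS k μ (LXq w) (fD k μ D w)) =
      ((Real.exp (Real.log (1 + w ^ 2) / 2 - 1 / k * (Real.log (CK k μ) +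
        Real.log (1 - F))) : ℝ) : ℂ) := by
    unfold LS
    rw [hfF, LXq_real]
    have e1 : Complex.log (1 - (F : ℂ)) = ((Real.log (1 - F) : ℝ) : ℂ) := by
      rw [Complex.ofReal_log hF1.le]
      push_cast
      rfl
    rw [e1, Complex.ofReal_exp]
    congr 1
    push_cast
    ring
  set d : ℝ := Real.exp (Real.log (1 + w ^ 2) / 2 - 1 / k * (Real.log (CK k μ) +
        Real.log (1 - F))) with hd
  have hd0 : 0 < d := Real.exp_pos _
  have e2 : d ^ (-k) = (1 + w ^ 2) ^ (-(k / 2)) * (CK k μ * (1 - F)) := by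
    rw [Real.rpow_def_of_pos hd0, Real.rpow_def_of_pos h1]
    conv_lhs => rw [hd]
    rw [Real.log_exp]
    have : CK k μ * (1 - F) = Real.exp (Real.log (CK k μ) + Real.log (1 - F)) := by
      rw [Real.exp_add, Real.exp_log hC, Real.exp_log hF1]
    rw [this, ← Real.exp_add]
    congr 1
    field_simp
    ring
  have hde : d = e := EQH.rpow_neg_inj hk hd0 he (by rw [e2, e4])
  refine ⟨?_, ?_, ?_, ?_⟩
  · unfold TD
    rw [hLS, hde]
    push_cast
    rfl
  · rw [hfF, ofReal_re]; exact hF0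
  · rw [hfF, ofReal_re]; linarith
  · rw [hfF, ofReal_im]

/-- `D = dn s` on the real points of `Hp m`: `EQH.E_eq_dn` with `E q = (D q).re`, `ε0 = -m` -/
theorem real_eq (hG : Tgt G) (hB : Bs k μ u R G q LX LD DI XI) (h : SW k μ m R G DI D)
    (hbd : BD k μ dn dp DI) (s : Bool) {x : ℝ} (hx : x < -m) : D (x : ℂ) = (dn s x : ℂ) := by
  obtain ⟨Q0, hQ0⟩ := hbd.base
  have hR0 := hB.hR
  have hRB : RBase k μ (max Q0 (R + 1)) DI := by
    intro y hy
    have h1 : y ≤ -Q0 := hy.trans (neg_le_neg (le_max_left _ _))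
    have h2 : y ≤ -(R + 1) := hy.trans (neg_le_neg (le_max_right _ _))
    have hA : (y : ℂ) ∈ Ar R := by
      refine ⟨?_, ?_⟩
      · rw [ofReal_re]; linarith
      · rw [Complex.norm_real, Real.norm_of_nonpos (by linarith)]; linarith
    refine ⟨?_, hB.reD _ hA, hQ0 y h1⟩
    have h3 := hB.cjD _ hA
    rw [Complex.conj_ofReal] at h3
    exact Complex.conj_eq_iff_im.1 h3.symm
  exact (h.dn_eq hbd.ls hG hB hRB (lt_of_lt_of_le (by linarith) (le_max_right Q0 (R + 1))) hx s).1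

/-- EXTENSION AT THE REAL BOUNDARY POINT. Let `x₀ = -m ≤ 0`, `w₀ = x₀ - dn s x₀ < -m`. By `nxt`:
`dp (!s) w₀ = dn s x₀`, `D w₀ = dn (!s) w₀` (`real_eq`), `EQH.rel_neg` at `w₀` and `T_of_rec` give
`T w₀ = x₀`, `0 < f w₀ < 1`, so `f w₀ ∈ G` (`Tgt.unit`). `deriv T w₀ ≠ 0`: `T (x - dn s x) = x` for real
`x ≤ x₀` near `x₀`, and `|(x - dn s x) - w₀| ≤ (1 + K) |x - x₀|` (`EQH.dn_lip`; note
`T (x - dn s x) = x` also from `real_eq`). `local_inverse` at `w₀`: `τ`; `D' z = z - τ z`; for real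
`x < x₀` near `x₀`, `x - D x = x - dn s x → w₀`, so `τ x = x - D x`; identity theorem on the convex set
`ball ∩ Hp m` (agreement on a real segment: frequently near a point of it). -/
theorem real_ext (hG : Tgt G) (hB : Bs k μ u R G q LX LD DI XI) (h : SW k μ m R G DI D)
    (hbd : BD k μ dn dp DI) : LocExt k μ m G D ((-m : ℝ) : ℂ) := by
  have hL := hbd.ls
  have hk0 : 0 < k := by linarith [hL.hk]
  have hm := h.hm
  set x₀ : ℝ := -m with hx₀
  have hx₀0 : x₀ ≤ 0 := by linarith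
  set d₀ : ℝ := dn true x₀ with hd₀
  have hd₀0 : 0 < d₀ := hL.dn_pos true x₀
  set w₀ : ℝ := x₀ - d₀ with hw₀
  have hw₀m : w₀ < -m := by rw [hw₀, hx₀]; linarith
  have hw₀H : (w₀ : ℂ) ∈ Hp m := by
    show (w₀ : ℂ).re < -m
    rw [ofReal_re]; exact hw₀m
  have hnx : dp false w₀ = d₀ := hL.nxt true x₀
  have he'0 : 0 < dn false w₀ := hL.dn_pos false w₀
  have hrec : d₀ ^ (-k) + dn false w₀ ^ (-k) = CK k μ * (1 + w₀ ^ 2) ^ (-(k / 2)) := by
    have := EQH.rel_neg hL false w₀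
    rw [hnx] at this
    linarith
  obtain ⟨hT0, hf0, hf1, hfi⟩ := T_of_rec (D := D) hk0 hL.hμ hd₀0 he'0
    (real_eq hG hB h hbd false hw₀m) hrec
  have hT0' : TD k μ D (w₀ : ℂ) = (x₀ : ℂ) := by
    rw [hT0]
    congr 1
    rw [hw₀]; ring
  have hfG : fD k μ D (w₀ : ℂ) ∈ G := by
    have : fD k μ D (w₀ : ℂ) = (((fD k μ D (w₀ : ℂ)).re : ℝ) : ℂ) :=
      Complex.ext (by simp) (by simp [hfi])
    rw [this]
    exact hG.unit _ hf0 hf1
  have hTa : AnalyticAt ℂ (TD k μ D) (w₀ : ℂ) := T_analytic hG h hw₀H hfG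
  -- on the real axis
  have hreal : ∀ x : ℝ, x < x₀ → D (x : ℂ) = (dn true x : ℂ) ∧
      TD k μ D ((x - dn true x : ℝ) : ℂ) = (x : ℂ) := by
    intro x hx
    have h1 := real_eq hG hB h hbd true (x := x) (by rw [← hx₀]; exact hx)
    have h2 : (x : ℂ) ∈ Hp m := by
      show (x : ℂ).re < -m
      rw [ofReal_re, ← hx₀]; exact hx
    have h3 := h.eqn _ h2
    rw [h1] at h3
    refine ⟨h1, ?_⟩
    rw [← h3]
    push_cast
    rw [h3]
  obtain ⟨K, δ, hK, hδ, hlip⟩ := EQH.dn_lip hL true hx₀0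
  have hlip' : ∀ x : ℝ, x < x₀ → x₀ - δ < x →
      ‖((x - dn true x : ℝ) : ℂ) - (w₀ : ℂ)‖ ≤ (1 + K) * (x₀ - x) := by
    intro x h1 h2
    have h3 := hlip x (by linarith) (by rw [abs_lt]; constructor <;> linarith)
    rw [← Complex.ofReal_sub, Complex.norm_real, Real.norm_eq_abs]
    have h4 : x - dn true x - w₀ = (x - x₀) - (dn true x - dn true x₀) := by
      rw [hw₀, hd₀]; ring
    rw [h4]
    have h5 : |x - x₀| = x₀ - x := by
      rw [abs_sub_comm]; exact abs_of_pos (by linarith)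
    rw [h5] at h3
    calc |x - x₀ - (dn true x - dn true x₀)| ≤ |x - x₀| + |dn true x - dn true x₀| :=
          abs_sub _ _
      _ ≤ (1 + K) * (x₀ - x) := by rw [h5]; linarith
  -- the derivative
  have hderiv : deriv (TD k μ D) (w₀ : ℂ) ≠ 0 := by
    intro hd0
    have h1 : HasDerivAt (TD k μ D) 0 (w₀ : ℂ) := by
      rw [← hd0]; exact hTa.differentiableAt.hasDerivAt
    have h2 := (hasDerivAt_iff_isLittleO.mp h1).bound (show (0 : ℝ) < 1 / (2 * (1 + K)) by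
      positivity)
    obtain ⟨ρ, hρ, hb⟩ := Metric.eventually_nhds_iff.mp h2
    set x : ℝ := x₀ - min (δ / 2) (ρ / (2 * (1 + K))) with hx
    have hmin0 : 0 < min (δ / 2) (ρ / (2 * (1 + K))) := lt_min (by linarith) (by positivity)
    have hx1 : x < x₀ := by linarith
    have hx2 : x₀ - δ < x := by
      have := min_le_left (δ / 2) (ρ / (2 * (1 + K)))
      linarith
    have h3 := hlip' x hx1 hx2
    have h4 : (1 + K) * (x₀ - x) < ρ := by
      have h5 : x₀ - x ≤ ρ / (2 * (1 + K)) := by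
        have := min_le_right (δ / 2) (ρ / (2 * (1 + K)))
        linarith
      calc (1 + K) * (x₀ - x) ≤ (1 + K) * (ρ / (2 * (1 + K))) :=
            mul_le_mul_of_nonneg_left h5 (by linarith)
        _ = ρ / 2 := by field_simp
        _ < ρ := by linarith
    have h5 := hb (y := ((x - dn true x : ℝ) : ℂ)) (by
      rw [dist_eq_norm]; exact lt_of_le_of_lt h3 h4)
    rw [(hreal x hx1).2, hT0', smul_zero, sub_zero, ← Complex.ofReal_sub, Complex.norm_real,
      Real.norm_eq_abs, abs_sub_comm, abs_of_pos (by linarith : 0 < x₀ - x)] at h5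
    have h6 : 1 / (2 * (1 + K)) * ‖((x - dn true x : ℝ) : ℂ) - (w₀ : ℂ)‖ ≤ (x₀ - x) / 2 := by
      calc 1 / (2 * (1 + K)) * ‖((x - dn true x : ℝ) : ℂ) - (w₀ : ℂ)‖
          ≤ 1 / (2 * (1 + K)) * ((1 + K) * (x₀ - x)) :=
            mul_le_mul_of_nonneg_left h3 (by positivity)
        _ = (x₀ - x) / 2 := by field_simp
    linarith
  obtain ⟨τ, hτa, hτ0, hτr, hτl⟩ := local_inverse hTa hderiv
  rw [hT0'] at hτa hτ0 hτr
  -- continuity facts near `x₀`
  have hτc : ContinuousAt τ (x₀ : ℂ) := hτa.continuousAt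
  have hDa : DifferentiableAt ℂ D (w₀ : ℂ) := h.diffAt hw₀H
  have hfc : ContinuousAt (fD k μ D) (w₀ : ℂ) := (h.fdiff hw₀H).continuousAt
  have e1 : ∀ᶠ z in 𝓝 (x₀ : ℂ), τ z ∈ Hp m := by
    apply hτc.eventually
    rw [hτ0]
    exact (isOpen_Hp m).mem_nhds hw₀H
  have e2 : ∀ᶠ z in 𝓝 (x₀ : ℂ), fD k μ D (τ z) ∈ G := by
    have h1 : ∀ᶠ w in 𝓝 (τ (x₀ : ℂ)), fD k μ D w ∈ G := by
      rw [hτ0]
      exact hfc.eventually (hG.op.mem_nhds hfG)
    exact hτc.eventually h1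
  have e3 : ∀ᶠ z in 𝓝 (x₀ : ℂ), 0 < (z - τ z).re := by
    have h1 : ContinuousAt (fun z => (z - τ z).re) (x₀ : ℂ) :=
      Complex.continuous_re.continuousAt.comp (continuousAt_id.sub hτc)
    apply continuousAt_const.eventually_lt h1
    rw [hτ0, ← Complex.ofReal_sub, ofReal_re, hw₀]
    linarith
  have e4 := hτa.eventually_analyticAt
  obtain ⟨ε, hε, hball⟩ := Metric.eventually_nhds_iff_ball.mp
    (e1.and (e2.and (e3.and (e4.and hτr))))
  -- real points: `τ x = x - D x`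
  have hreal2 : ∀ᶠ x : ℝ in 𝓝[<] x₀, τ (x : ℂ) = (x : ℂ) - D (x : ℂ) := by
    have h1 : Tendsto (fun x : ℝ => ((x - dn true x : ℝ) : ℂ)) (𝓝[<] x₀) (𝓝 (w₀ : ℂ)) := by
      rw [tendsto_iff_norm_sub_tendsto_zero]
      have h2 : Tendsto (fun x : ℝ => (1 + K) * (x₀ - x)) (𝓝[<] x₀) (𝓝 0) := by
        have h3 : ContinuousAt (fun x : ℝ => (1 + K) * (x₀ - x)) x₀ := by fun_prop
        have h4 := h3.tendsto
        simp only [sub_self, mul_zero] at h4
        exact h4.mono_left nhdsWithin_le_nhds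
      refine squeeze_zero' (Eventually.of_forall fun _ => norm_nonneg _) ?_ h2
      have h5 : ∀ᶠ x : ℝ in 𝓝[<] x₀, x₀ - δ < x :=
        nhdsWithin_le_nhds (lt_mem_nhds (by linarith))
      filter_upwards [self_mem_nhdsWithin, h5] with x h6 h7 using hlip' x h6 h7
    filter_upwards [h1.eventually hτl, self_mem_nhdsWithin] with x h2 h3
    have h4 := hreal x h3
    rw [h4.2] at h2
    rw [h2, h4.1]
    push_cast
    rfl
  refine ⟨ε, hε, fun z => z - τ z, ?_, ?_, ?_⟩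
  · intro z hz
    exact (differentiableAt_id.sub (hball z hz).2.2.2.1.differentiableAt).differentiableWithinAt
  · -- identity theorem
    have hUo : IsOpen (ball (x₀ : ℂ) ε ∩ Hp m) := isOpen_ball.inter (isOpen_Hp m)
    have hUc : Convex ℝ (ball (x₀ : ℂ) ε ∩ Hp m) := (convex_ball _ _).inter (convex_Hp m)
    have hf : AnalyticOnNhd ℂ (fun z => z - τ z) (ball (x₀ : ℂ) ε ∩ Hp m) := by
      intro z hz
      exact analyticAt_id.sub (hball z hz.1).2.2.2.1
    have hg : AnalyticOnNhd ℂ D (ball (x₀ : ℂ) ε ∩ Hp m) :=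
      (h.dD.mono inter_subset_right).analyticOnNhd hUo
    obtain ⟨η, hη, hηall⟩ := mem_nhdsLT_iff_exists_Ioo_subset.mp hreal2
    set x₁ : ℝ := max ((η + x₀) / 2) (x₀ - ε / 2) with hx₁
    have hη' : η < x₀ := hη
    have hx₁1 : x₁ < x₀ := max_lt (by linarith) (by linarith)
    have hx₁2 : η < x₁ := lt_max_of_lt_left (by linarith)
    have hx₁3 : x₀ - ε < x₁ := lt_max_of_lt_right (by linarith)
    have hx₁m : (x₁ : ℂ) ∈ ball (x₀ : ℂ) ε ∩ Hp m := by
      refine ⟨?_, ?_⟩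
      · rw [mem_ball_iff_norm, ← Complex.ofReal_sub, Complex.norm_real, Real.norm_eq_abs,
          abs_lt]
        constructor <;> linarith
      · show (x₁ : ℂ).re < -m
        rw [ofReal_re, ← hx₀]; exact hx₁1
    have hfr : ∃ᶠ z in 𝓝[≠] (x₁ : ℂ), (fun z => z - τ z) z = D z := by
      have ht : Tendsto (fun x : ℝ => (x : ℂ)) (𝓝[≠] x₁) (𝓝[≠] (x₁ : ℂ)) := by
        apply tendsto_nhdsWithin_iff.2
        refine ⟨?_, ?_⟩
        · exact (Complex.continuous_ofReal.tendsto x₁).mono_left nhdsWithin_le_nhds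
        · filter_upwards [self_mem_nhdsWithin] with x hx
          simpa using hx
      apply ht.frequently
      apply Eventually.frequently
      have h3 : ∀ᶠ x : ℝ in 𝓝[≠] x₁, x ∈ Ioo η x₀ :=
        nhdsWithin_le_nhds (Ioo_mem_nhds hx₁2 hx₁1)
      filter_upwards [h3] with x hx
      have := hηall hx
      have h4 : τ (x : ℂ) = (x : ℂ) - D (x : ℂ) := this
      show (x : ℂ) - τ (x : ℂ) = D (x : ℂ)
      rw [h4]; ring
    have h4 := hf.eqOn_of_preconnected_of_frequently_eq hg hUc.isPreconnected hx₁m hfr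
    intro z hz hzm
    exact h4 ⟨hz, hzm⟩
  · intro z hz
    obtain ⟨h1, h2, h3, h4, h5⟩ := hball z hz
    have e : z - (z - τ z) = τ z := by ring
    simp only [e]
    exact ⟨h3, h1, h2, h5⟩

end EQW
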