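import Pool.Agent.Lib.MP_226de1_co.Sw.RealE
import Pool.Agent.Lib.MP_226de1_co.Sw.Body

/-! The start of the end: near `q = 0` the imaginary axis is regular. -/

set_option autoImplicit false

namespace EQW

open Complex Set Filter Topology Metric
open EQH (CK HL ff)

variable {k μ u m R : ℝ} {G : Set ℂ} {q LX LD DI XI D X : ℂ → ℂ} {dn dp : Bool → ℝ → ℝ}

theorem BD.rbase (hB : Bs k μ u R G q LX LD DI XI) (hbd : BD k μ dn dp DI) :
    ∃ Q : ℝ, R < Q ∧ RBase k μ Q DI := by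
  obtain ⟨Q0, hQ0⟩ := hbd.base
  have hR := hB.hR
  refine ⟨max Q0 R + 1, by linarith [le_max_right Q0 R], fun x hx => ?_⟩
  have h1 := le_max_left Q0 R
  have h2 := le_max_right Q0 R
  have hx0 : x < 0 := by linarith
  have hA : (x : ℂ) ∈ Ar R := by
    refine ⟨by simpa using hx0, ?_⟩
    rw [Complex.norm_real, Real.norm_of_nonpos hx0.le]
    linarith
  refine ⟨?_, hB.reD _ hA, hQ0 x (by linarith)⟩
  have h3 := hB.cjD _ hA
  rw [Complex.conj_ofReal] at h3
  exact Complex.conj_eq_iff_im.1 h3.symm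

/-- the common form of `reg_start`, with `Reg` written out -/
theorem reg_start' (hG : Tgt G) (hk : 2 < k) (hB : Bs k μ u R G q LX LD DI XI)
    (h : SW k μ 0 R G DI D) (hbd : BD k μ dn dp DI) : ∃ v₀ : ℝ, 0 < v₀ ∧
      ∀ v : ℝ, 0 ≤ v → v < v₀ →
  ∃ ε : ℝ, 0 < ε ∧ ∃ D' : ℂ → ℂ, DifferentiableOn ℂ D' (ball (v * I) ε) ∧
    (∀ z ∈ ball ((v : ℂ) * I) ε, z ∈ Hp 0 → D' z = D z) ∧
    (∀ z ∈ ball ((v : ℂ) * I) ε, 0 < (D' z).re) ∧
    ∀ z ∈ ball ((v : ℂ) * I) ε, z.re = 0 →
      (exp (-(k : ℂ) * log (D' z))).re = CK k μ / 2 * Real.exp (-(k / 2) * Real.log (1 - z.im ^ 2)) ∧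
      |(log (D' z)).im| < Real.pi / (2 * k) := by
  have hL := hbd.ls
  have hμ := hL.hμ
  have hk0 : 0 < k := by linarith
  have hC : 0 < CK k μ := EQH.CK_pos hμ
  obtain ⟨Q, hRQ, hR⟩ := BD.rbase hB hbd
  obtain ⟨ε, hε, D', hd, hag, hall⟩ := real_ext hG hB h hbd
  have e0 : ((-0 : ℝ) : ℂ) = 0 := by simp
  rw [e0] at hd hag hall
  set ε' : ℝ := min ε 1 with hε'
  have hε0 : 0 < ε' := lt_min hε one_pos
  have hsub : ball (0 : ℂ) ε' ⊆ ball 0 ε := ball_subset_ball (min_le_left _ _)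
  obtain ⟨hcj, -, -, hhalf⟩ := body_zero hL hG h hB hR hRQ hε0 (min_le_right _ _) (hd.mono hsub)
    (fun z hz => hag z (hsub hz)) (fun z hz => hall z (hsub hz))
  have h00 : (0 : ℂ) ∈ ball (0 : ℂ) ε' := mem_ball_self hε0
  have hD0 : (Complex.log (D' 0)).im = 0 := by
    have h1 := hcj 0 h00
    rw [map_zero] at h1
    have h2 : (D' 0).im = 0 := Complex.conj_eq_iff_im.1 h1.symm
    have h3 : D' 0 = ((D' 0).re : ℂ) := Complex.ext rfl h2
    rw [log_im, h3, Complex.arg_ofReal_of_nonneg (hall 0 (hsub h00)).1.le]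
  have hcont : ContinuousAt (fun z => (Complex.log (D' z)).im) 0 := by
    have h1 : ContinuousAt D' 0 := (hd.differentiableAt (ball_mem_nhds 0 hε)).continuousAt
    exact Complex.continuous_im.continuousAt.comp (h1.clog (Or.inl (hall 0 (hsub h00)).1))
  have hev : ∀ᶠ z in 𝓝 (0 : ℂ), |(Complex.log (D' z)).im| < Real.pi / (2 * k) := by
    have h1 : Tendsto (fun z => |(Complex.log (D' z)).im|) (𝓝 0) (𝓝 |(Complex.log (D' 0)).im|) :=
      hcont.abs
    rw [hD0, abs_zero] at h1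
    exact h1 (Iio_mem_nhds (by positivity))
  obtain ⟨δ, hδ, hδall⟩ := Metric.eventually_nhds_iff.1 hev
  set η : ℝ := min ε' δ / 2 with hη
  have hη0 : 0 < η := by
    rw [hη]
    have := lt_min hε0 hδ
    linarith
  refine ⟨η, hη0, fun v hv0 hv => ⟨η, hη0, D', ?_⟩⟩
  have hin : ∀ z ∈ ball ((v : ℂ) * I) η, ‖z‖ < min ε' δ := by
    intro z hz
    rw [mem_ball_iff_norm] at hz
    have h1 : ‖(v : ℂ) * I‖ = v := by
      rw [norm_mul, Complex.norm_I, mul_one, Complex.norm_real, Real.norm_of_nonneg hv0]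
    have h2 : ‖z‖ ≤ ‖z - (v : ℂ) * I‖ + ‖(v : ℂ) * I‖ := by
      have := norm_add_le (z - (v : ℂ) * I) ((v : ℂ) * I)
      rwa [sub_add_cancel] at this
    rw [h1] at h2
    have h3 : min ε' δ = η + η := by rw [hη]; ring
    rw [h3]
    linarith
  have hin1 : ∀ z ∈ ball ((v : ℂ) * I) η, z ∈ ball (0 : ℂ) ε' := by
    intro z hz
    rw [mem_ball_zero_iff]
    exact (hin z hz).trans_le (min_le_left _ _)
  refine ⟨?_, fun z hz hz0 => hag z (hsub (hin1 z hz)) hz0,
    fun z hz => (hall z (hsub (hin1 z hz))).1, fun z hz hz0 => ⟨?_, ?_⟩⟩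
  · intro z hz
    exact (hd.differentiableAt (isOpen_ball.mem_nhds (hsub (hin1 z hz)))).differentiableWithinAt
  · have hzn := hin1 z hz
    have e1 : z = (z.im : ℂ) * I := Complex.ext (by simp [hz0]) (by simp)
    have hzi : |z.im| < ε' := by
      rw [mem_ball_zero_iff] at hzn
      exact (Complex.abs_im_le_norm z).trans_lt hzn
    have hzi1 : |z.im| < 1 := hzi.trans_le (min_le_right _ _)
    have h1 := hhalf z.im hzi
    rw [← e1] at h1
    have hv2 : 0 < 1 - z.im ^ 2 := by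
      have := abs_lt.1 hzi1
      nlinarith
    have hLX : LXq z = ((Real.log (1 - z.im ^ 2) / 2 : ℝ) : ℂ) := by
      unfold LXq
      have e2 : 1 + z ^ 2 = ((1 - z.im ^ 2 : ℝ) : ℂ) := by
        conv_lhs => rw [e1]
        rw [mul_pow, I_sq]
        push_cast
        ring
      rw [e2, ← Complex.ofReal_log hv2.le]
      push_cast
      rfl
    unfold fD at h1
    have e3 : exp ((k : ℂ) * (LXq z - Complex.log (D' z))) =
        ((Real.exp (k / 2 * Real.log (1 - z.im ^ 2)) : ℝ) : ℂ) *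
          exp (-(k : ℂ) * Complex.log (D' z)) := by
      rw [Complex.ofReal_exp, ← Complex.exp_add, hLX]
      congr 1
      push_cast
      ring
    rw [e3, Complex.div_ofReal_re, Complex.re_ofReal_mul] at h1
    have e4 : Real.exp (-(k / 2) * Real.log (1 - z.im ^ 2)) *
        Real.exp (k / 2 * Real.log (1 - z.im ^ 2)) = 1 := by
      rw [← Real.exp_add]
      simp
    have h2 : Real.exp (k / 2 * Real.log (1 - z.im ^ 2)) *
        (exp (-(k : ℂ) * Complex.log (D' z))).re = CK k μ / 2 := by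
      rw [div_eq_iff hC.ne'] at h1
      rw [h1]
      ring
    calc (exp (-(k : ℂ) * Complex.log (D' z))).re
        = (Real.exp (-(k / 2) * Real.log (1 - z.im ^ 2)) *
        Real.exp (k / 2 * Real.log (1 - z.im ^ 2))) *
          (exp (-(k : ℂ) * Complex.log (D' z))).re := by rw [e4, one_mul]
      _ = CK k μ / 2 * Real.exp (-(k / 2) * Real.log (1 - z.im ^ 2)) := by
          rw [mul_assoc, h2]
          ring
  · apply hδall
    rw [dist_zero_right]
    exact (hin z hz).trans_le (min_le_right _ _)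

end EQW
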