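import Pool.Agent.Lib.MP_226de1_co.Sw.Lim
import Pool.Agent.Lib.MP_226de1_co.Sw.LocE
import Pool.Agent.Lib.MP_226de1_co.Sw.RealE
import Pool.Agent.Lib.MP_226de1_co.Sw.Corner
import Pool.Agent.Lib.MP_226de1_co.Sw.RegStart

/-! The end: `m = 0`. -/

set_option autoImplicit false

namespace EQW

open Complex Set Filter Topology Metric
open EQH (CK HL ff)

variable {k μ u m R : ℝ} {G : Set ℂ} {q LX LD DI XI D X : ℂ → ℂ} {dn dp : Bool → ℝ → ℝ}

/-- the point `iv` of the boundary is regular, `Re f = 1/2` on the imaginary axis near it, and `D` is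
in the sector `|arg| < pi/(2k)` there -/
def Reg (k μ : ℝ) (G : Set ℂ) (D : ℂ → ℂ) (v : ℝ) : Prop :=
  ∃ ε : ℝ, 0 < ε ∧ ∃ D' : ℂ → ℂ, DifferentiableOn ℂ D' (ball (v * I) ε) ∧
    (∀ z ∈ ball ((v : ℂ) * I) ε, z ∈ Hp 0 → D' z = D z) ∧
    (∀ z ∈ ball ((v : ℂ) * I) ε, 0 < (D' z).re) ∧
    ∀ z ∈ ball ((v : ℂ) * I) ε, z.re = 0 →
      (exp (-(k : ℂ) * log (D' z))).re = CK k μ / 2 * Real.exp (-(k / 2) * Real.log (1 - z.im ^ 2)) ∧
      |(log (D' z)).im| < Real.pi / (2 * k)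

private theorem distI (v v' : ℝ) : dist ((v' : ℂ) * I) ((v : ℂ) * I) = dist v' v := by
  rw [dist_eq_norm, ← sub_mul, norm_mul, norm_I, mul_one, ← ofReal_sub, norm_real, Real.dist_eq,
    Real.norm_eq_abs]

/-- `Reg` is an open condition -/
theorem Reg.open' {v : ℝ} (h : Reg k μ G D v) : ∀ᶠ v' in 𝓝 v, Reg k μ G D v' := by
  obtain ⟨ε, hε, D', h1, h2, h3, h4⟩ := h
  have hb : ∀ᶠ v' in 𝓝 v, v' ∈ ball v (ε / 2) := ball_mem_nhds v (by linarith)
  filter_upwards [hb] with v' hv'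
  have hsub : ball ((v' : ℂ) * I) (ε / 2) ⊆ ball ((v : ℂ) * I) ε := by
    apply ball_subset_ball'
    rw [mem_ball] at hv'
    rw [distI]
    linarith
  exact ⟨ε / 2, by linarith, D', h1.mono hsub, fun z hz => h2 z (hsub hz),
    fun z hz => h3 z (hsub hz), fun z hz => h4 z (hsub hz)⟩

/-- START: near `v = 0`. `real_ext` at `m = 0`; `E q = (D' q).re` on `q < ε0` (`= D q` for `q < 0`) satisfies
the hypotheses of `EQH.body_end`: `E(q)^(-k) + E(-q)^(-k) = C (1+q^2)^(-k/2)` for real small `q`; identity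
theorem for `exp (-k log D'(z)) + exp (-k log D'(-z)) - C exp (-k LXq' z)`, `LXq' = log (1 + z^2)/2` near `0`;
`D' (conj z) = conj (D' z)`, so at `z = iv` the two terms are conjugate. -/
theorem reg_start (hG : Tgt G) (hk : 2 < k) (hB : Bs k μ u R G q LX LD DI XI)
    (h : SW k μ 0 R G DI D) (hbd : BD k μ dn dp DI) : ∃ v₀ : ℝ, 0 < v₀ ∧
      ∀ v : ℝ, 0 ≤ v → v < v₀ → Reg k μ G D v :=
  reg_start' hG hk hB h hbd

private theorem agree {D₁ D₂ : ℂ → ℂ} {z : ℂ} (hz : z.re = 0) (h1 : ContinuousAt D₁ z)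
    (h2 : ContinuousAt D₂ z) (ha : ∀ᶠ y in 𝓝 z, y ∈ Hp 0 → D₁ y = D₂ y) : D₁ z = D₂ z := by
  have hcl : z ∈ closure (Hp 0) := by
    have e : Hp 0 = {z : ℂ | z.re < 0} := by
      ext y
      show y.re < -0 ↔ y.re < 0
      rw [neg_zero]
    rw [e, Complex.closure_setOfPred_re_lt]
    exact hz.le
  have : (𝓝[Hp 0] z).NeBot := mem_closure_iff_nhdsWithin_neBot.1 hcl
  have e1 : Tendsto D₁ (𝓝[Hp 0] z) (𝓝 (D₁ z)) := h1.mono_left nhdsWithin_le_nhds
  have e2 : Tendsto D₂ (𝓝[Hp 0] z) (𝓝 (D₂ z)) := h2.mono_left nhdsWithin_le_nhds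
  refine tendsto_nhds_unique_of_eventuallyEq e1 e2 ?_
  have e3 : ∀ᶠ y in 𝓝[Hp 0] z, y ∈ Hp 0 := self_mem_nhdsWithin
  filter_upwards [e3, nhdsWithin_le_nhds ha] with y h3 h4 using h4 h3

private theorem norm_bd (hk : 0 < k) (hμ : 1 < μ) {v : ℝ} (hv1 : v ^ 2 < 1) {e : ℂ}
    (he : 0 < e.re)
    (h : (exp (-(k : ℂ) * log e)).re = CK k μ / 2 * Real.exp (-(k / 2) * Real.log (1 - v ^ 2))) :
    ‖e‖ ≤ (2 / CK k μ) ^ (1 / k) * Real.sqrt (1 - v ^ 2) := by
  have hC : 0 < CK k μ := EQH.CK_pos hμ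
  have he0 : e ≠ 0 := by
    rintro rfl
    simp at he
  have hn : 0 < ‖e‖ := norm_pos_iff.2 he0
  have h1 : ‖exp (-(k : ℂ) * log e)‖ = Real.exp (-(k * Real.log ‖e‖)) := by
    rw [norm_exp]
    congr 1
    rw [neg_mul, neg_re, re_ofReal_mul, log_re]
  have h2 : CK k μ / 2 * Real.exp (-(k / 2) * Real.log (1 - v ^ 2)) ≤
      Real.exp (-(k * Real.log ‖e‖)) := by
    rw [← h, ← h1]
    exact (le_abs_self _).trans (abs_re_le_norm _)
  have h3 : CK k μ / 2 = Real.exp (-Real.log (2 / CK k μ)) := by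
    rw [Real.exp_neg, Real.exp_log (by positivity), inv_div]
  rw [h3, ← Real.exp_add, Real.exp_le_exp] at h2
  have h4 : Real.log ‖e‖ ≤ Real.log (2 / CK k μ) * (1 / k) + Real.log (1 - v ^ 2) / 2 := by
    have h5 : k * Real.log ‖e‖ ≤ Real.log (2 / CK k μ) + k / 2 * Real.log (1 - v ^ 2) := by
      linarith
    have h6 : k * (Real.log (2 / CK k μ) * (1 / k) + Real.log (1 - v ^ 2) / 2) =
        Real.log (2 / CK k μ) + k / 2 * Real.log (1 - v ^ 2) := by
      field_simp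
    rw [← h6] at h5
    exact le_of_mul_le_mul_left h5 hk
  have hx : 0 < 1 - v ^ 2 := by linarith
  calc ‖e‖ = Real.exp (Real.log ‖e‖) := (Real.exp_log hn).symm
    _ ≤ Real.exp (Real.log (2 / CK k μ) * (1 / k) + Real.log (1 - v ^ 2) / 2) :=
        Real.exp_le_exp.2 h4
    _ = (2 / CK k μ) ^ (1 / k) * Real.sqrt (1 - v ^ 2) := by
        rw [Real.exp_add, Real.rpow_def_of_pos (by positivity), Real.sqrt_eq_rpow,
          Real.rpow_def_of_pos hx]
        congr 2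
        ring

private theorem cone_of (hk : 2 < k) {e : ℂ} (he : 0 < e.re)
    (h : |(log e).im| < Real.pi / (2 * k)) : |e.im| < e.re := by
  have he0 : e ≠ 0 := by
    rintro rfl
    simp at he
  have hn : 0 < ‖e‖ := norm_pos_iff.2 he0
  have hpi := Real.pi_pos
  rw [log_im] at h
  have h1 : Real.pi / (2 * k) < Real.pi / 4 := by
    apply div_lt_div_of_pos_left hpi (by norm_num) (by linarith)
  have h2 : |arg e| < Real.pi / 4 := h.trans h1
  have h3 : Real.cos (Real.pi / 4) < Real.cos |arg e| :=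
    Real.cos_lt_cos_of_nonneg_of_le_pi (abs_nonneg _) (by linarith) h2
  have h4 : Real.sin |arg e| < Real.sin (Real.pi / 4) := by
    apply Real.sin_lt_sin_of_lt_of_le_pi_div_two (by linarith [abs_nonneg (arg e)]) (by linarith) h2
  rw [Real.cos_pi_div_four] at h3
  rw [Real.sin_pi_div_four] at h4
  rw [Real.cos_abs] at h3
  have h5 : |Real.sin (arg e)| = Real.sin |arg e| := by
    rcases le_total 0 (arg e) with h6 | h6
    · rw [abs_of_nonneg h6]
      exact abs_of_nonneg (Real.sin_nonneg_of_nonneg_of_le_pi h6 (by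
        have := (abs_lt.1 h2).2
        linarith))
    · rw [abs_of_nonpos h6, Real.sin_neg]
      apply abs_of_nonpos
      apply Real.sin_nonpos_of_nonpos_of_neg_pi_le h6
      have := (abs_lt.1 h2).1
      linarith
  rw [← Complex.norm_mul_cos_arg e, ← Complex.norm_mul_sin_arg e, abs_mul, abs_of_pos hn, h5]
  exact mul_lt_mul_of_pos_left (h4.trans h3) hn

/-- near a regular point with `v > 0` there are points of `Hq 0` where `D` is in the cone
`|Im D| ≤ Re D` and `‖D‖` is at most `2 (2/C)^(1/k) sqrt (1 - v^2)` (from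
`Re D^(-k) = (C/2)(1-v^2)^(-k/2)`, so `‖D'(iv)‖ ≤ (2/C)^(1/k) sqrt (1 - v^2)`). -/
theorem Reg.near (hk : 2 < k) (hμ : 1 < μ) {v : ℝ} (hv : 0 < v) (hv1 : v < 1)
    (h : Reg k μ G D v) {ε : ℝ} (hε : 0 < ε) : ∃ z ∈ Hq 0, ‖z - v * I‖ < ε ∧
      |(D z).im| ≤ (D z).re ∧ ‖D z‖ ≤ 2 * (2 / CK k μ) ^ (1 / k) * Real.sqrt (1 - v ^ 2) := by
  obtain ⟨ε0, hε0, D', h1, h2, h3, h4⟩ := h
  have hC : 0 < CK k μ := EQH.CK_pos hμ
  have hv2 : v ^ 2 < 1 := by nlinarith
  have hmem : (v : ℂ) * I ∈ ball ((v : ℂ) * I) ε0 := mem_ball_self hε0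
  have hcont : ContinuousAt D' ((v : ℂ) * I) :=
    (h1.differentiableAt (isOpen_ball.mem_nhds hmem)).continuousAt
  have hre : ((v : ℂ) * I).re = 0 := by simp
  have him : ((v : ℂ) * I).im = v := by simp
  obtain ⟨h5, h6⟩ := h4 _ hmem hre
  rw [him] at h5
  have h7 := norm_bd (by linarith) hμ hv2 (h3 _ hmem) h5
  have h8 := cone_of hk (h3 _ hmem) h6
  set A : ℝ := (2 / CK k μ) ^ (1 / k) * Real.sqrt (1 - v ^ 2) with hA
  have hA0 : 0 < A := by
    have : 0 < 1 - v ^ 2 := by linarith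
    positivity
  have e1 : ∀ᶠ z in 𝓝 ((v : ℂ) * I), ‖D' z‖ < 2 * A :=
    hcont.norm.eventually_lt continuousAt_const (by linarith)
  have e2 : ∀ᶠ z in 𝓝 ((v : ℂ) * I), |(D' z).im| < (D' z).re :=
    (Complex.continuous_im.continuousAt.comp hcont).abs.eventually_lt
      (Complex.continuous_re.continuousAt.comp hcont) h8
  have e3 : ∀ᶠ z in 𝓝 ((v : ℂ) * I), z ∈ ball ((v : ℂ) * I) (min ε ε0) :=
    ball_mem_nhds _ (lt_min hε hε0)
  have e4 : ∀ᶠ z : ℂ in 𝓝 ((v : ℂ) * I), 0 < z.im :=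
    (isOpen_lt continuous_const Complex.continuous_im).mem_nhds (by
      show 0 < ((v : ℂ) * I).im
      rw [him]
      exact hv)
  have hcl : (v : ℂ) * I ∈ closure (Hp 0) := by
    have e : Hp 0 = {z : ℂ | z.re < 0} := by
      ext y
      show y.re < -0 ↔ y.re < 0
      rw [neg_zero]
    rw [e, Complex.closure_setOfPred_re_lt]
    exact hre.le
  obtain ⟨z, hz1, hz2, hz3, hz4, hz5⟩ := ((mem_closure_iff_frequently.mp hcl).and_eventually
    (e1.and (e2.and (e3.and e4)))).exists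
  have hz6 : z ∈ ball ((v : ℂ) * I) ε0 := ball_subset_ball (min_le_right _ _) hz4
  have hz7 : z ∈ ball ((v : ℂ) * I) ε := ball_subset_ball (min_le_left _ _) hz4
  have h9 := h2 z hz6 hz1
  rw [h9] at hz2 hz3
  refine ⟨z, ⟨hz1, hz5⟩, by rwa [mem_ball_iff_norm] at hz7, hz3.le, ?_⟩
  rw [mul_assoc]
  exact hz2.le

private theorem refl_mem {v ε : ℝ} {z : ℂ} (hz : z ∈ ball ((v : ℂ) * I) ε) :
    -(starRingEnd ℂ) z ∈ ball ((v : ℂ) * I) ε := by
  rw [mem_ball_iff_norm] at hz ⊢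
  have e : -(starRingEnd ℂ) z - (v : ℂ) * I = -(starRingEnd ℂ) (z - (v : ℂ) * I) := by
    rw [map_sub, map_mul, conj_ofReal, conj_I]
    ring
  rw [e, norm_neg, norm_conj]
  exact hz

/-- the real-analytic identity: if `2 Re exp (-k log D') = C (1 - y^2)^(-k/2)` near one point of the
imaginary segment, then on the whole ball -/
private theorem ident {v ε : ℝ} (hball : ball ((v : ℂ) * I) ε ⊆ ball (0 : ℂ) 1)
    {D' : ℂ → ℂ} (hd : DifferentiableOn ℂ D' (ball ((v : ℂ) * I) ε))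
    (hre : ∀ z ∈ ball ((v : ℂ) * I) ε, 0 < (D' z).re) {v₀ : ℝ}
    (hv0 : (v₀ : ℂ) * I ∈ ball ((v : ℂ) * I) ε)
    (hid : ∀ᶠ y : ℝ in 𝓝 v₀, (exp (-(k : ℂ) * log (D' ((y : ℂ) * I)))).re =
      CK k μ / 2 * Real.exp (-(k / 2) * Real.log (1 - y ^ 2))) :
    ∀ z ∈ ball ((v : ℂ) * I) ε, z.re = 0 → (exp (-(k : ℂ) * log (D' z))).re =
      CK k μ / 2 * Real.exp (-(k / 2) * Real.log (1 - z.im ^ 2)) := by
  set B : Set ℂ := ball ((v : ℂ) * I) ε with hB
  set g : ℂ → ℂ := fun z => exp (-(k : ℂ) * log (D' z)) with hg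
  set g2 : ℂ → ℂ := fun y => g (-y) with hg2
  set L : ℂ → ℂ := fun z => (CK k μ : ℂ) * exp (-((k / 2 : ℝ) : ℂ) * log (1 + z ^ 2)) with hL
  have hgd : ∀ z ∈ B, DifferentiableAt ℂ g z := by
    intro z hz
    have h1 : DifferentiableAt ℂ D' z := hd.differentiableAt (isOpen_ball.mem_nhds hz)
    exact ((h1.clog (Or.inl (hre z hz))).const_mul _).cexp
  have hg2d : ∀ z ∈ B, DifferentiableAt ℂ (fun z => (starRingEnd ℂ) (g (-(starRingEnd ℂ) z))) z := by
    intro z hz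
    have h1 : DifferentiableAt ℂ g2 ((starRingEnd ℂ) z) :=
      DifferentiableAt.comp (f := fun z : ℂ => -z) (g := g) ((starRingEnd ℂ) z)
        (hgd _ (refl_mem hz)) differentiableAt_id.neg
    have h2 := h1.conj_conj
    rw [Complex.conj_conj] at h2
    exact h2
  have hLd : ∀ z ∈ B, DifferentiableAt ℂ L z := by
    intro z hz
    have h1 : DifferentiableAt ℂ (fun z : ℂ => 1 + z ^ 2) z := by fun_prop
    have h2 : 1 + z ^ 2 ∈ slitPlane := by
      left
      have h3 := hball hz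
      rw [mem_ball_zero_iff] at h3
      have h4 : ‖z ^ 2‖ < 1 := by
        rw [norm_pow]
        have := norm_nonneg z
        nlinarith
      have h5 := (abs_lt.1 ((Complex.abs_re_le_norm (z ^ 2)).trans_lt h4)).1
      rw [add_re, one_re]
      linarith
    exact (((h1.clog h2).const_mul _).cexp).const_mul _
  set F : ℂ → ℂ := fun z => g z + (starRingEnd ℂ) (g (-(starRingEnd ℂ) z)) - L z with hF
  have hFd : DifferentiableOn ℂ F B := fun z hz =>
    (((hgd z hz).add (hg2d z hz)).sub (hLd z hz)).differentiableWithinAt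
  -- the value of `F` on the imaginary axis
  have hFi : ∀ y : ℝ, y ^ 2 < 1 → F ((y : ℂ) * I) = ((2 * (g ((y : ℂ) * I)).re -
      CK k μ * Real.exp (-(k / 2) * Real.log (1 - y ^ 2)) : ℝ) : ℂ) := by
    intro y hy
    have e1 : -(starRingEnd ℂ) ((y : ℂ) * I) = (y : ℂ) * I := by
      rw [map_mul, conj_ofReal, conj_I]
      ring
    have e2 : (1 : ℂ) + ((y : ℂ) * I) ^ 2 = ((1 - y ^ 2 : ℝ) : ℂ) := by
      rw [mul_pow, I_sq]
      push_cast
      ring
    have e3 : L ((y : ℂ) * I) = ((CK k μ * Real.exp (-(k / 2) * Real.log (1 - y ^ 2)) : ℝ) : ℂ) := by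
      simp only [hL]
      rw [e2, ← ofReal_log (by linarith)]
      push_cast
      rfl
    simp only [hF]
    rw [e1, e3, Complex.add_conj]
    push_cast
    ring
  have hsq : ∀ y : ℝ, (y : ℂ) * I ∈ B → y ^ 2 < 1 := by
    intro y hy
    have h1 := hball hy
    rw [mem_ball_zero_iff, norm_mul, norm_I, mul_one, norm_real, Real.norm_eq_abs] at h1
    rw [← sq_abs]
    have := abs_nonneg y
    nlinarith
  have hfr : ∃ᶠ z in 𝓝[≠] ((v₀ : ℂ) * I), F z = (fun _ : ℂ => (0 : ℂ)) z := by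
    have ht : Tendsto (fun y : ℝ => (y : ℂ) * I) (𝓝[≠] v₀) (𝓝[≠] ((v₀ : ℂ) * I)) := by
      apply tendsto_nhdsWithin_iff.2
      refine ⟨?_, ?_⟩
      · have : Continuous (fun y : ℝ => (y : ℂ) * I) := by fun_prop
        exact (this.tendsto v₀).mono_left nhdsWithin_le_nhds
      · filter_upwards [self_mem_nhdsWithin] with y hy
        simpa using hy
    apply ht.frequently
    apply Eventually.frequently
    have e1 : ∀ᶠ y : ℝ in 𝓝 v₀, (y : ℂ) * I ∈ B := by
      have : Continuous (fun y : ℝ => (y : ℂ) * I) := by fun_prop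
      exact this.continuousAt.eventually (isOpen_ball.mem_nhds hv0)
    filter_upwards [nhdsWithin_le_nhds (e1.and hid)] with y hy
    show F ((y : ℂ) * I) = 0
    rw [hFi y (hsq y hy.1)]
    have : (g ((y : ℂ) * I)).re = CK k μ / 2 * Real.exp (-(k / 2) * Real.log (1 - y ^ 2)) := hy.2
    rw [this]
    push_cast
    ring
  have h4 := (hFd.analyticOnNhd isOpen_ball).eqOn_of_preconnected_of_frequently_eq
    (analyticOnNhd_const (v := (0 : ℂ))) (convex_ball _ _).isPreconnected hv0 hfr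
  intro z hz hz0
  have hzI : z = (z.im : ℂ) * I := by
    apply Complex.ext
    · simp [hz0]
    · simp
  have h5 : F z = 0 := h4 hz
  rw [hzI, hFi _ (hsq _ (by rw [← hzI]; exact hz)), ofReal_eq_zero, ← hzI] at h5
  show (g z).re = _
  linarith

/-- CLOSED. `v_j → v` regular, `0 < v < 1`: choose `z_j` from `Reg.near`, `limit_state` (`m = 0`) and
`locExt_of` give an extension `D'` near `iv`. On the interval of regular points near `v` the identity for
`Re D'^(-k)` holds, so it holds on the whole interval (real-analytic function of `v`: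
`exp (-k log D'(z)) + conj (exp (-k log D'(- conj z))) - C exp (-k log(1+z^2)/2)` is analytic near `iv` and vanishes
on a segment). `|Im log D'| < pi/(2k)` : `≤` at `v` by continuity, and equality contradicts
`Re D'^(-k) > 0`; then everywhere near. -/
theorem reg_closed (hG : Tgt G) (hE : ExitG k G) (hH : HL k μ u q LX LD) (hk : 2 < k)
    (hB : Bs k μ u R G q LX LD DI XI) (h : SW k μ 0 R G DI D) (hX : XC k μ 0 R D XI X)
    {vs : ℕ → ℝ} {v : ℝ} (hv : 0 < v) (hv1 : v < 1) (hr : ∀ j, Reg k μ G D (vs j))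
    (hl : Tendsto vs atTop (𝓝 v)) : Reg k μ G D v := by
  have hμ : 1 < μ := hH.ch.hμ
  have hC : 0 < CK k μ := EQH.CK_pos hμ
  have hpi := Real.pi_pos
  -- pass to a tail
  have hev : ∀ᶠ j in atTop, 0 < vs j ∧ vs j < 1 :=
    (hl.eventually (lt_mem_nhds hv)).and (hl.eventually (gt_mem_nhds hv1))
  obtain ⟨N, hN⟩ := eventually_atTop.1 hev
  set ws : ℕ → ℝ := fun j => vs (j + N) with hws
  have hwl : Tendsto ws atTop (𝓝 v) := (tendsto_add_atTop_iff_nat N).2 hl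
  have hw0 : ∀ j, 0 < ws j ∧ ws j < 1 := fun j => hN (j + N) (by omega)
  have hwr : ∀ j, Reg k μ G D (ws j) := fun j => hr (j + N)
  have hch : ∀ j : ℕ, ∃ z ∈ Hq 0, ‖z - ws j * I‖ < 1 / ((j : ℝ) + 1) ∧
      |(D z).im| ≤ (D z).re := by
    intro j
    obtain ⟨z, h1, h2, h3, -⟩ := (hwr j).near hk hμ (hw0 j).1 (hw0 j).2
      (ε := 1 / ((j : ℝ) + 1)) (by positivity)
    exact ⟨z, h1, h2, h3⟩
  choose zs hzs1 hzs2 hzs3 using hch
  have hwI : Tendsto (fun j => (ws j : ℂ) * I) atTop (𝓝 ((v : ℂ) * I)) := by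
    have : Continuous (fun y : ℝ => (y : ℂ) * I) := by fun_prop
    exact (this.tendsto v).comp hwl
  have hzl : Tendsto zs atTop (𝓝 ((v : ℂ) * I)) := by
    have h1 : Tendsto (fun j => zs j - (ws j : ℂ) * I) atTop (𝓝 0) := by
      rw [tendsto_zero_iff_norm_tendsto_zero]
      exact squeeze_zero (fun j => norm_nonneg _) (fun j => (hzs2 j).le)
        tendsto_one_div_add_atTop_nhds_zero_nat
    have h2 := h1.add hwI
    simpa using h2
  have hre : ((v : ℂ) * I).re = -0 := by simp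
  have him : ((v : ℂ) * I).im = v := by simp
  obtain ⟨w, hw, hfw, hTw, φ, hφ, hφl⟩ := limit_state hG hE hH hk hB h hX hzs1 hre
    (by rw [him]; exact hv) hzl (Or.inr ⟨by rw [him]; exact hv1, hzs3⟩)
  obtain ⟨ε0, hε0, D', hd, hag, hall⟩ := locExt_of hG hE hH hk hB h hX hw hfw hre
    (by rw [him]; exact hv) hTw (zs := fun j => zs (φ j)) (fun j => hzs1 (φ j)) hφl
  -- the working radius
  set ε1 : ℝ := min ε0 (1 - v) with hε1
  have hε1p : 0 < ε1 := lt_min hε0 (by linarith)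
  have hsub : ball ((v : ℂ) * I) ε1 ⊆ ball ((v : ℂ) * I) ε0 := ball_subset_ball (min_le_left _ _)
  have hball : ball ((v : ℂ) * I) ε1 ⊆ ball (0 : ℂ) 1 := by
    apply ball_subset_ball'
    have e1 : dist ((v : ℂ) * I) 0 = v := by
      rw [dist_zero_right, norm_mul, norm_I, mul_one, norm_real, Real.norm_of_nonneg hv.le]
    rw [e1]
    have := min_le_right ε0 (1 - v)
    linarith
  have hd1 : DifferentiableOn ℂ D' (ball ((v : ℂ) * I) ε1) := hd.mono hsub
  have hre1 : ∀ z ∈ ball ((v : ℂ) * I) ε1, 0 < (D' z).re := fun z hz => (hall z (hsub hz)).1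
  have hcont : ∀ z ∈ ball ((v : ℂ) * I) ε1, ContinuousAt D' z := fun z hz =>
    (hd1.differentiableAt (isOpen_ball.mem_nhds hz)).continuousAt
  -- comparison with the regular points
  have hcmp : ∀ v' : ℝ, Reg k μ G D v' → (v' : ℂ) * I ∈ ball ((v : ℂ) * I) ε1 →
      ∀ᶠ y : ℝ in 𝓝 v', (exp (-(k : ℂ) * log (D' ((y : ℂ) * I)))).re =
        CK k μ / 2 * Real.exp (-(k / 2) * Real.log (1 - y ^ 2)) ∧
        |(log (D' ((y : ℂ) * I))).im| < Real.pi / (2 * k) := by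
    intro v' hv' hmem
    obtain ⟨ε2, hε2, D2, g1, g2, g3, g4⟩ := hv'
    have hc : Continuous (fun y : ℝ => (y : ℂ) * I) := by fun_prop
    have e1 : ∀ᶠ y : ℝ in 𝓝 v', (y : ℂ) * I ∈ ball ((v : ℂ) * I) ε1 :=
      hc.continuousAt.eventually (isOpen_ball.mem_nhds hmem)
    have e2 : ∀ᶠ y : ℝ in 𝓝 v', (y : ℂ) * I ∈ ball ((v' : ℂ) * I) ε2 :=
      hc.continuousAt.eventually (isOpen_ball.mem_nhds (mem_ball_self hε2))
    filter_upwards [e1, e2] with y hy1 hy2
    have hy0 : ((y : ℂ) * I).re = 0 := by simp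
    have hyi : ((y : ℂ) * I).im = y := by simp
    have e3 : D' ((y : ℂ) * I) = D2 ((y : ℂ) * I) := by
      apply agree hy0 (hcont _ hy1)
        (g1.differentiableAt (isOpen_ball.mem_nhds hy2)).continuousAt
      filter_upwards [isOpen_ball.mem_nhds hy1, isOpen_ball.mem_nhds hy2] with z hz1 hz2 hz3
      rw [hag z (hsub hz1) hz3, g2 z hz2 hz3]
    have g5 := g4 _ hy2 hy0
    rw [← e3, hyi] at g5
    exact g5
  have hmem0 : (v : ℂ) * I ∈ ball ((v : ℂ) * I) ε1 := mem_ball_self hε1p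
  have hevj : ∀ᶠ j in atTop, (ws j : ℂ) * I ∈ ball ((v : ℂ) * I) ε1 :=
    hwI.eventually (isOpen_ball.mem_nhds hmem0)
  obtain ⟨j0, hj0⟩ := hevj.exists
  have hI := ident (k := k) (μ := μ) hball hd1 hre1 hj0
    ((hcmp _ (hwr j0) hj0).mono fun y hy => hy.1)
  -- the sector at `v`
  have hlogc : ∀ z ∈ ball ((v : ℂ) * I) ε1, ContinuousAt (fun z => (log (D' z)).im) z :=
    fun z hz => Complex.continuous_im.continuousAt.comp
      ((hcont z hz).clog (Or.inl (hre1 z hz)))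
  have hsec : |(log (D' ((v : ℂ) * I))).im| < Real.pi / (2 * k) := by
    have hle : |(log (D' ((v : ℂ) * I))).im| ≤ Real.pi / (2 * k) := by
      have t1 : Tendsto (fun j => |(log (D' ((ws j : ℂ) * I))).im|) atTop
          (𝓝 |(log (D' ((v : ℂ) * I))).im|) :=
        ((hlogc _ hmem0).tendsto.comp hwI).abs
      apply le_of_tendsto t1
      filter_upwards [hevj] with j hj
      exact (hcmp _ (hwr j) hj).self_of_nhds.2.le
    rcases hle.lt_or_eq with h1 | h1
    · exact h1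
    exfalso
    have h2 := hI _ hmem0 (by simp)
    have h3 : 0 < (exp (-(k : ℂ) * log (D' ((v : ℂ) * I)))).re := by
      rw [h2]
      positivity
    rw [exp_re] at h3
    have h4 : (-(k : ℂ) * log (D' ((v : ℂ) * I))).im = -(k * (log (D' ((v : ℂ) * I))).im) := by
      rw [neg_mul, neg_im, im_ofReal_mul]
    rw [h4, Real.cos_neg, ← Real.cos_abs, abs_mul, h1, abs_of_pos (by linarith : 0 < k)] at h3
    have h5 : k * (Real.pi / (2 * k)) = Real.pi / 2 := by
      field_simp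
    rw [h5, Real.cos_pi_div_two, mul_zero] at h3
    exact lt_irrefl _ h3
  have hsec' : ∀ᶠ z in 𝓝 ((v : ℂ) * I), |(log (D' z)).im| < Real.pi / (2 * k) :=
    (hlogc _ hmem0).abs.eventually_lt continuousAt_const hsec
  obtain ⟨ε3, hε3, h3⟩ := Metric.eventually_nhds_iff_ball.1 hsec'
  have hs1 : ball ((v : ℂ) * I) (min ε1 ε3) ⊆ ball ((v : ℂ) * I) ε1 :=
    ball_subset_ball (min_le_left _ _)
  have hs3 : ball ((v : ℂ) * I) (min ε1 ε3) ⊆ ball ((v : ℂ) * I) ε3 :=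
    ball_subset_ball (min_le_right _ _)
  exact ⟨min ε1 ε3, lt_min hε1p hε3, D', hd1.mono hs1, fun z hz => hag z (hsub (hs1 hz)),
    fun z hz => hre1 z (hs1 hz), fun z hz hz0 => ⟨hI z (hs1 hz) hz0, h3 z (hs3 hz)⟩⟩

/-- all points of `i (0,1)` are regular: connectedness of `(0,1)` -/
theorem reg_all (hG : Tgt G) (hE : ExitG k G) (hH : HL k μ u q LX LD) (hk : 2 < k)
    (hB : Bs k μ u R G q LX LD DI XI) (h : SW k μ 0 R G DI D) (hX : XC k μ 0 R D XI X)
    (hbd : BD k μ dn dp DI) {v : ℝ} (hv : 0 < v) (hv1 : v < 1) : Reg k μ G D v := by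
  have hSo : IsOpen {v : ℝ | Reg k μ G D v} := by
    rw [isOpen_iff_mem_nhds]
    intro x hx
    exact Reg.open' hx
  have hne : (Ioo (0 : ℝ) 1 ∩ {v : ℝ | Reg k μ G D v}).Nonempty := by
    obtain ⟨v₀, h0, h1⟩ := reg_start hG hk hB h hbd
    refine ⟨min (v₀ / 2) (1 / 2), ⟨lt_min (by linarith) (by norm_num), ?_⟩, ?_⟩
    · exact lt_of_le_of_lt (min_le_right _ _) (by norm_num)
    · apply h1
      · exact le_min (by linarith) (by norm_num)
      · exact lt_of_le_of_lt (min_le_left _ _) (by linarith)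
  have hsub : Ioo (0 : ℝ) 1 ⊆ {v : ℝ | Reg k μ G D v} := by
    apply isPreconnected_Ioo.subset_of_closure_inter_subset hSo hne
    rintro x ⟨hx1, hx2⟩
    obtain ⟨xs, hxs, hxl⟩ := mem_closure_iff_seq_limit.1 hx1
    exact reg_closed hG hE hH hk hB h hX hx2.1 hx2.2 hxs hxl
  exact hsub ⟨hv, hv1⟩

/-- CORNER. `X z → u + i pi/2` as `z → I` in `Hq 0`. Local inverse `Ψ` of `q` at the corner
(`HL.dcorner`, `local_inverse`). In `{Re (1+z^2) < 0}` near `I`: `Re X z < u` (`a4q`), `q (X z) = z`, `X z` is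
bounded and a limit point `x` has `Re x ≤ u`, `0 ≤ Im x ≤ pi/2`, `q x = I`, so it is the corner (`Ch.expX`:
`1 + q^2 ≠ 0` for `Re x < u`; `HL.xi`; `bot`); so `X = Ψ` there near `I`; identity theorem on the convex
set `ball I r ∩ Hq 0`. -/
theorem X_corner (hH : HL k μ u q LX LD) (hk : 2 ≤ k) (hB : Bs k μ u R G q LX LD DI XI)
    (h : SW k μ 0 R G DI D) (hX : XC k μ 0 R D XI X) :
    Tendsto X (𝓝[Hq 0] I) (𝓝 ⟨u, Real.pi / 2⟩) := by
  rw [Metric.tendsto_nhdsWithin_nhds]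
  intro δ hδ
  obtain ⟨r, hr, hr'⟩ := corner hH hk hB h hX hδ
  refine ⟨r, hr, fun {z} hz hzr => ?_⟩
  rw [dist_eq_norm] at hzr ⊢
  exact hr' z (Hq_sub 0 hz) hzr

/-- THE CONTRADICTION: `v_j → 1`, `z_j ∈ Hq 0` near `i v_j` with `D z_j → 0` (`reg_all`, `Reg.near`); `z_j → I`,
`w_j = z_j - D z_j → I`, both in `Hq 0` (`SW.im`), `X w_j = X z_j - log μ`, but both tend to the corner. -/
theorem the_end (hG : Tgt G) (hE : ExitG k G) (hH : HL k μ u q LX LD) (hk : 2 < k)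
    (hB : Bs k μ u R G q LX LD DI XI) (h : SW k μ 0 R G DI D) (hbd : BD k μ dn dp DI) : False := by
  have hμ : 1 < μ := hH.ch.hμ
  obtain ⟨X, hX⟩ := SW.exists_XC hB h
  set vs : ℕ → ℝ := fun j => 1 - 1 / ((j : ℝ) + 2) with hvs
  have hlim0 : Tendsto (fun j : ℕ => 1 / ((j : ℝ) + 2)) atTop (𝓝 0) := by
    have h1 : Tendsto (fun j : ℕ => (j : ℝ) + 2) atTop atTop :=
      tendsto_atTop_add_const_right _ _ tendsto_natCast_atTop_atTop
    have h2 : Tendsto (fun j : ℕ => ((j : ℝ) + 2)⁻¹) atTop (𝓝 0) := h1.inv_tendsto_atTop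
    simpa only [one_div] using h2
  have hvl : Tendsto vs atTop (𝓝 1) := by
    have h1 := hlim0.const_sub (1 : ℝ)
    rw [sub_zero] at h1
    exact h1
  have hv0 : ∀ j, 0 < vs j ∧ vs j < 1 := by
    intro j
    have h1 : (0 : ℝ) < 1 / ((j : ℝ) + 2) := by positivity
    have h2 : 1 / ((j : ℝ) + 2) < 1 := by
      rw [div_lt_one (by positivity)]
      have : (0 : ℝ) ≤ j := Nat.cast_nonneg j
      linarith
    constructor
    · show 0 < 1 - 1 / ((j : ℝ) + 2)
      linarith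
    · show 1 - 1 / ((j : ℝ) + 2) < 1
      linarith
  have hch : ∀ j : ℕ, ∃ z ∈ Hq 0, ‖z - vs j * I‖ < 1 / ((j : ℝ) + 1) ∧
      ‖D z‖ ≤ 2 * (2 / CK k μ) ^ (1 / k) * Real.sqrt (1 - vs j ^ 2) := by
    intro j
    obtain ⟨z, h1, h2, -, h3⟩ := (reg_all hG hE hH hk hB h hX hbd (hv0 j).1 (hv0 j).2).near hk hμ
      (hv0 j).1 (hv0 j).2 (ε := 1 / ((j : ℝ) + 1)) (by positivity)
    exact ⟨z, h1, h2, h3⟩
  choose zs hzs1 hzs2 hzs3 using hch
  have hwI : Tendsto (fun j => (vs j : ℂ) * I) atTop (𝓝 I) := by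
    have h1 : Continuous (fun y : ℝ => (y : ℂ) * I) := by fun_prop
    have h2 : Tendsto (fun j => (vs j : ℂ) * I) atTop (𝓝 (((1 : ℝ) : ℂ) * I)) :=
      (h1.tendsto 1).comp hvl
    rw [ofReal_one, one_mul] at h2
    exact h2
  have hzl : Tendsto zs atTop (𝓝 I) := by
    have h1 : Tendsto (fun j => zs j - (vs j : ℂ) * I) atTop (𝓝 0) := by
      rw [tendsto_zero_iff_norm_tendsto_zero]
      exact squeeze_zero (fun j => norm_nonneg _) (fun j => (hzs2 j).le)
        tendsto_one_div_add_atTop_nhds_zero_nat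
    have h2 := h1.add hwI
    simpa using h2
  have hDl : Tendsto (fun j => D (zs j)) atTop (𝓝 0) := by
    rw [tendsto_zero_iff_norm_tendsto_zero]
    have h1 : Tendsto (fun j => 2 * (2 / CK k μ) ^ (1 / k) * Real.sqrt (1 - vs j ^ 2)) atTop
        (𝓝 (2 * (2 / CK k μ) ^ (1 / k) * Real.sqrt (1 - 1 ^ 2))) :=
      (((hvl.pow 2).const_sub 1).sqrt).const_mul _
    have h2 : (2 * (2 / CK k μ) ^ (1 / k) * Real.sqrt (1 - 1 ^ 2) : ℝ) = 0 := by simp
    rw [h2] at h1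
    exact squeeze_zero (fun j => norm_nonneg _) hzs3 h1
  have hwl : Tendsto (fun j => zs j - D (zs j)) atTop (𝓝 I) := by
    have := hzl.sub hDl
    simpa using this
  have hc := X_corner hH hk.le hB h hX
  have t1 : Tendsto (fun j => X (zs j)) atTop (𝓝 ⟨u, Real.pi / 2⟩) :=
    hc.comp (tendsto_nhdsWithin_iff.2 ⟨hzl, Eventually.of_forall hzs1⟩)
  have t2 : Tendsto (fun j => X (zs j - D (zs j))) atTop (𝓝 ⟨u, Real.pi / 2⟩) :=
    hc.comp (tendsto_nhdsWithin_iff.2 ⟨hwl, Eventually.of_forall fun j => h.im hB (hzs1 j)⟩)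
  have t3 : Tendsto (fun j => X (zs j) - X (zs j - D (zs j))) atTop
      (𝓝 ((⟨u, Real.pi / 2⟩ : ℂ) - ⟨u, Real.pi / 2⟩)) := t1.sub t2
  have t4 : (fun j => X (zs j) - X (zs j - D (zs j))) = fun _ => (Real.log μ : ℂ) := by
    funext j
    rw [hX.stepX _ (Hq_sub 0 (hzs1 j))]
    ring
  rw [t4, sub_self] at t3
  have h5 : (Real.log μ : ℂ) = 0 := tendsto_nhds_unique tendsto_const_nhds t3
  have h6 : Real.log μ = 0 := by exact_mod_cast h5
  exact (Real.log_pos hμ).ne' h6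

end EQW
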