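import Pool.Agent.Lib.MP_226de1_co.Sw.Link

/-! The exit lemma applied to the sweep. -/

set_option autoImplicit false

namespace EQW

open Complex Set Filter Topology Metric
open EQH (CK HL ff)

variable {k μ u m R : ℝ} {G : Set ℂ} {q LX LD DI XI D X : ℂ → ℂ}

/-- `w` in the open upper half of `Hp m`, `f w ∈ closure G`, `f w ≠ 1`, and `z = T w` with
`Re z ≤ -m`, `Im z > 0`: then `f w ∈ G`. The orbit is `q 0 = z`, `q (n+1) = orb D w n`,
`f (n+1) = fD k μ D (orb D w n)` (`f 0` anything), `h ζ = fD k μ D (ζ - D ζ)`. `Re w < Re z` is `reT`,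
the other `qre` are `SW.reD`; `half`: `EQW.half`; `fG`: `SW.tgt`; `hcj`: `SW.cj`, `fD_cj`. -/
theorem exit_apply (hG : Tgt G) (hE : ExitG k G) (hH : HL k μ u q LX LD) (hk : 2 < k)
    (hB : Bs k μ u R G q LX LD DI XI) (h : SW k μ m R G DI D) (hX : XC k μ m R D XI X) {w z : ℂ}
    (hw : w ∈ Hq m) (hz : z.re ≤ -m) (hzi : 0 < z.im) (hcl : fD k μ D w ∈ closure G)
    (hne : fD k μ D w ≠ 1) (hT : TD k μ D w = z) : fD k μ D w ∈ G := by
  have hm0 := h.hm
  have hsub : ∀ ζ : ℂ, ζ.re < z.re → ζ ∈ Hp m := fun ζ hζ => lt_of_lt_of_le hζ hz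
  have horb := fun n => h.orb_mem' hB hw n
  have horb' := fun n => h.orb_mem (Hq_sub m hw) n
  have hre1 : (fD k μ D w).re ≤ 1 := by
    have hc : closure G ⊆ {f : ℂ | f.re ≤ 1} :=
      closure_minimal (fun f hf => (hG.re f hf).le)
        (isClosed_le Complex.continuous_re continuous_const)
    exact hc hcl
  have hrT := reT hH hk hB h hX hw (by simp only [sub_re, one_re]; linarith) hne
  rw [hT, sub_re] at hrT
  let qq : ℕ → ℂ := fun n => Nat.casesOn n z (fun n => orb D w n)
  let fr : ℕ → ℂ := fun n => Nat.casesOn n 0 (fun n => fD k μ D (orb D w n))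
  have o : Orb k μ G qq fr (fun ζ => fD k μ D (ζ - D ζ)) := by
    refine
      { hk := hk
        hμ := hH.ch.hμ
        q0re := ?_
        qim := ?_
        qre := ?_
        step := ?_
        fn := ?_
        fG := ?_
        f1 := hcl
        f1ne := hne
        half := ?_
        dh := ?_
        hG := ?_
        hcj := ?_
        hq := ?_ }
    · show z.re ≤ 0
      linarith
    · intro n
      cases n with
      | zero => exact hzi
      | succ n => exact (horb n).2
    · intro n
      cases n with
      | zero =>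
        show w.re < z.re
        linarith
      | succ n =>
        show (orb D w (n + 1)).re < (orb D w n).re
        rw [orb_succ, sub_re]
        have := h.reD _ (horb' n)
        linarith
    · intro n
      cases n with
      | zero =>
        show z - w = exp (LS k μ (LXq w) (fD k μ D w))
        rw [← hT, TD]
        ring
      | succ n =>
        show orb D w n - orb D w (n + 1) =
          exp (LS k μ (LXq (orb D w (n + 1))) (fD k μ D (orb D w (n + 1))))
        rw [orb_succ, ← h.step (horb' n)]
        ring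
    · intro n hn
      obtain ⟨j, rfl⟩ := Nat.exists_eq_add_of_le' hn
      show fD k μ D (orb D w j) =
        exp ((k : ℂ) * (LXq (orb D w j) - log (orb D w j - orb D w (j + 1)))) / (CK k μ : ℂ)
      rw [orb_succ, sub_sub_cancel, fD]
    · intro n hn
      obtain ⟨j, rfl⟩ := Nat.exists_eq_add_of_le' hn
      show fD k μ D (orb D w (j + 1)) ∈ G
      rw [orb_succ]
      exact h.tgt _ (horb' j)
    · intro n hn hA
      obtain ⟨j, rfl⟩ := Nat.exists_eq_add_of_le' hn
      exact EQW.half hH hk.le hB h hX (horb j) hA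
    · exact h.fsdiff.mono fun ζ hζ => hsub ζ hζ
    · intro ζ hζ
      exact h.tgt ζ (hsub ζ hζ)
    · intro ζ hζ
      have hζ' := hsub ζ hζ
      have hw' := h.mem hζ'
      show fD k μ D ((starRingEnd ℂ) ζ - D ((starRingEnd ℂ) ζ)) =
        (starRingEnd ℂ) (fD k μ D (ζ - D ζ))
      rw [h.cj hB hζ', ← map_sub]
      exact fD_cj (h.reneg hw') (h.reD _ hw') (h.cj hB hw')
    · intro n hn
      obtain ⟨j, rfl⟩ := Nat.exists_eq_add_of_le' hn
      show fD k μ D (orb D w j - D (orb D w j)) = fD k μ D (orb D w (j + 1))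
      rw [orb_succ]
  exact hE μ qq fr _ o

end EQW
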