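import Pool.Agent.Lib.MP_226de1_co.Sw.Basic
import Pool.Agent.Lib.MP_226de1_co.Sw.Exit
import Pool.Agent.Lib.MP_226de1_co.E.PickTools

/-! From the pointwise exit statements `EQS.ExitHalf`, `EQS.ExitDisc` to `ExitG`. -/

set_option autoImplicit false

namespace EQW

open Complex Set Filter Topology Metric
open EQH (CK)

variable {k μ : ℝ} {G : Set ℂ}

theorem CK_gt_one (hk : 1 ≤ k) (hμ : 1 < μ) : 1 < CK k μ := by
  unfold CK
  have h1 : 0 < μ - 1 := by linarith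
  have h2 : 0 < (μ - 1) ^ k := Real.rpow_pos_of_pos h1 k
  rw [lt_div_iff₀ h2, one_mul]
  have h3 : (μ - 1) ^ k ≤ μ ^ k := Real.rpow_le_rpow h1.le (by linarith) (by linarith)
  linarith

private theorem LS_mul (hk : 0 < k) (X f : ℂ) :
    (k : ℂ) * (X - LS k μ X f) = (Real.log (CK k μ) : ℂ) + log (1 - f) := by
  unfold LS
  have : (k : ℂ) ≠ 0 := by exact_mod_cast hk.ne'
  push_cast
  field_simp
  ring

private theorem pv_LS (hk : 0 < k) (hC : 0 < CK k μ) {X f : ℂ} (hf : f ≠ 1) :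
    EQS.pv k (CK k μ) X (LS k μ X f) = 1 - f := by
  unfold EQS.pv
  rw [LS_mul hk, Complex.exp_add, Complex.exp_log (sub_ne_zero.2 (Ne.symm hf)),
    ← Complex.ofReal_exp, Real.exp_log hC, mul_div_cancel_left₀]
  exact_mod_cast hC.ne'

private theorem LS_mul_im (hk : 0 < k) (X f : ℂ) :
    k * (X - LS k μ X f).im = (log (1 - f)).im := by
  have h := congrArg Complex.im (LS_mul (μ := μ) hk X f)
  rw [Complex.im_ofReal_mul, Complex.add_im, Complex.ofReal_im, zero_add] at h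
  exact h

/-- The state of an orbit: `q i`, `d i = LS k μ (LXq (q (i+1))) (f (i+1))`, `X i = LXq (q i)`.
`pv k C X1 d0 = 1 - f 1` (as `k (X1 - d0) = log C + log (1 - f 1)`), `log (q 1 - q 2) = d 1` because
`|Im d 1| < pi/2 + pi/(2k) < pi`, so `pv k C X1 d1 = f 1`, and the same one site deeper; `Re (1 - f n) > 0`
for `n ≥ 2` and `≥ 0` for `n = 1` by `Tgt.re` and closure. -/
theorem Orb.st (hG : Tgt G) {q f : ℕ → ℂ} {h : ℂ → ℂ} (ho : Orb k μ G q f h) :
    EQS.St k (CK k μ) (q 0) (q 1) (q 2) (q 3)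
      (LS k μ (LXq (q 1)) (f 1)) (LS k μ (LXq (q 2)) (f 2)) (LS k μ (LXq (q 3)) (f 3))
      (LXq (q 1)) (LXq (q 2)) (LXq (q 3)) ∧
    EQS.pv k (CK k μ) (LXq (q 1)) (LS k μ (LXq (q 1)) (f 1)) = 1 - f 1 ∧
    EQS.pv k (CK k μ) (LXq (q 2)) (LS k μ (LXq (q 2)) (f 2)) = 1 - f 2 ∧
    EQS.pv k (CK k μ) (LXq (q 3)) (LS k μ (LXq (q 3)) (f 3)) = 1 - f 3 := by
  have hk := ho.hk
  have hμ := ho.hμ
  have hk0 : 0 < k := by linarith
  have hC1 : 1 < CK k μ := CK_gt_one (by linarith) hμ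
  have hC0 : 0 < CK k μ := by linarith
  have hre1 : (q 1).re < 0 := lt_of_lt_of_le (ho.qre 0) ho.q0re
  have hre2 : (q 2).re < 0 := lt_trans (ho.qre 1) hre1
  have hre3 : (q 3).re < 0 := lt_trans (ho.qre 2) hre2
  have hf2 : (f 2).re < 1 := hG.re _ (ho.fG 2 le_rfl)
  have hf3 : (f 3).re < 1 := hG.re _ (ho.fG 3 (by norm_num))
  have hf1 : (f 1).re ≤ 1 := by
    have h1 : G ⊆ {z : ℂ | z.re ≤ 1} := fun z hz => (hG.re z hz).le
    have h2 : IsClosed {z : ℂ | z.re ≤ 1} := isClosed_le Complex.continuous_re continuous_const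
    exact closure_minimal h1 h2 ho.f1
  have hf2n : f 2 ≠ 1 := by
    intro hc
    rw [hc, Complex.one_re] at hf2
    exact lt_irrefl _ hf2
  have hf3n : f 3 ≠ 1 := by
    intro hc
    rw [hc, Complex.one_re] at hf3
    exact lt_irrefl _ hf3
  have arg_lt : ∀ z : ℂ, z.re < 1 → |(log (1 - z)).im| < Real.pi / 2 := by
    intro z hz
    rw [Complex.log_im]
    exact Complex.abs_arg_lt_pi_div_two_iff.2 (Or.inl (by simpa using hz))
  have p2 : |k * (LXq (q 2) - LS k μ (LXq (q 2)) (f 2)).im| < Real.pi / 2 := by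
    rw [LS_mul_im hk0]
    exact arg_lt _ hf2
  have p3 : |k * (LXq (q 3) - LS k μ (LXq (q 3)) (f 3)).im| < Real.pi / 2 := by
    rw [LS_mul_im hk0]
    exact arg_lt _ hf3
  have e0 := pv_LS (X := LXq (q 1)) hk0 hC0 ho.f1ne
  have e1 := pv_LS (X := LXq (q 2)) hk0 hC0 hf2n
  have e2 := pv_LS (X := LXq (q 3)) hk0 hC0 hf3n
  -- `log (q n - q (n + 1)) = d n`
  have hlog : ∀ n, |k * (LXq (q (n + 1)) - LS k μ (LXq (q (n + 1))) (f (n + 1))).im| <
      Real.pi / 2 → (q (n + 1)).re < 0 →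
      log (q n - q (n + 1)) = LS k μ (LXq (q (n + 1))) (f (n + 1)) := by
    intro n hn hr
    have h1 := LXq_im_abs hr
    set X := LXq (q (n + 1)) with hX
    set d := LS k μ X (f (n + 1)) with hd
    have h2 : |(X - d).im| < Real.pi / 2 / 2 := by
      rw [abs_mul, abs_of_pos hk0] at hn
      have h3 : 2 * |(X - d).im| ≤ k * |(X - d).im| :=
        mul_le_mul_of_nonneg_right hk.le (abs_nonneg _)
      linarith
    rw [Complex.sub_im] at h2
    have h4 := abs_lt.1 h1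
    have h5 := abs_lt.1 h2
    have h6 := Real.pi_pos
    rw [ho.step n, ← hX, ← hd, Complex.log_exp (by linarith [h4.1, h5.2]) (by linarith [h4.2, h5.1])]
  have g1 : EQS.pv k (CK k μ) (LXq (q 1)) (LS k μ (LXq (q 2)) (f 2)) = f 1 := by
    rw [ho.fn 1 le_rfl, hlog 1 p2 hre2]
    rfl
  have g2 : EQS.pv k (CK k μ) (LXq (q 2)) (LS k μ (LXq (q 3)) (f 3)) = f 2 := by
    rw [ho.fn 2 (by norm_num), hlog 2 p3 hre3]
    rfl
  have D : ∀ n, 0 < (exp (LS k μ (LXq (q (n + 1))) (f (n + 1)))).re := by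
    intro n
    rw [← ho.step n, Complex.sub_re]
    linarith [ho.qre n]
  refine ⟨?_, e0, e1, e2⟩
  exact {
    hk := hk
    hC := hC1
    x1 := exp_two_LXq hre1
    x2 := exp_two_LXq hre2
    x3 := exp_two_LXq hre3
    a1 := LXq_im hre1 (ho.qim 1)
    a2 := LXq_im hre2 (ho.qim 2)
    a3 := LXq_im hre3 (ho.qim 3)
    s0 := by rw [← ho.step 0]; ring
    s1 := by rw [← ho.step 1]; ring
    s2 := by rw [← ho.step 2]; ring
    f1 := by rw [g1, e0]; ring
    f2 := by rw [g2, e1]; ring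
    r0 := ho.q0re
    i1 := ho.qim 1
    i2 := ho.qim 2
    i3 := ho.qim 3
    D0 := D 0
    D1 := D 1
    D2 := D 2
    p1 := by
      rw [LS_mul_im hk0]
      exact log_im_le (by simpa using hf1)
    p2 := p2
    p3 := p3 }

/-- Two point Schwarz-Pick, half plane to half plane -/
theorem pick_half {a : ℝ} {p : ℂ → ℂ} (hp : DifferentiableOn ℂ p {z : ℂ | z.re < a})
    (hre : ∀ z : ℂ, z.re < a → 0 < (p z).re) {z₁ z₂ : ℂ} (h1 : z₁.re < a) (h2 : z₂.re < a) :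
    ‖p z₁ - p z₂‖ ^ 2 * ((a - z₁.re) * (a - z₂.re)) ≤
      ‖z₁ - z₂‖ ^ 2 * ((p z₁).re * (p z₂).re) :=
  EQS.pick_hh hp hre h1 h2

/-- Two point Schwarz-Pick, half plane to unit disc -/
theorem pick_disc {a : ℝ} {p : ℂ → ℂ} (hp : DifferentiableOn ℂ p {z : ℂ | z.re < a})
    (hb : ∀ z : ℂ, z.re < a → ‖p z‖ < 1) {z₁ z₂ : ℂ} (h1 : z₁.re < a) (h2 : z₂.re < a) :
    4 * ‖p z₁ - p z₂‖ ^ 2 * ((a - z₁.re) * (a - z₂.re)) ≤
      ‖z₁ - z₂‖ ^ 2 * ((1 - ‖p z₁‖ ^ 2) * (1 - ‖p z₂‖ ^ 2)) := by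
  have := EQS.pick_hd (M := 1) one_pos hp hb h1 h2
  simpa using this

theorem tgt_half : Tgt {f : ℂ | f.re < 1} where
  op := isOpen_lt Complex.continuous_re continuous_const
  re := fun f hf => hf
  cj := fun f hf => by simpa using hf
  unit := fun x _ hx => by simpa using hx

theorem tgt_disc : Tgt {f : ℂ | ‖f‖ < 1} where
  op := isOpen_lt continuous_norm continuous_const
  re := fun f hf => (Complex.re_le_norm f).trans_lt hf
  cj := fun f hf => by simpa using hf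
  unit := fun x hx hx1 => by
    show ‖(x : ℂ)‖ < 1
    rw [Complex.norm_real, Real.norm_eq_abs, abs_of_pos hx]
    exact hx1

/-- `f 1 ∈ closure G`, `∉ G` gives `Re (f 1) = 1`, `f 1 ≠ 1`: `|arg (1 - f 1)| = pi/2`; the chart field
`half` gives `Im X1 ≥ -pi/4`; `pick_half` for `1 - h` between `q 1` and `q 2`. -/
theorem exitG_half {K : ℝ} (h : EQS.ExitHalf K) (hk : 2 < k) (hK : K ≤ k) :
    ExitG k {f : ℂ | f.re < 1} := by
  intro μ q f hh ho
  by_contra hcon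
  have hk0 : 0 < k := by linarith
  obtain ⟨hst, e0, e1, e2⟩ := ho.st tgt_half
  have hle : (f 1).re ≤ 1 := by
    have h1 : {z : ℂ | z.re < 1} ⊆ {z : ℂ | z.re ≤ 1} := fun z (hz : z.re < 1) => hz.le
    have h2 : IsClosed {z : ℂ | z.re ≤ 1} := isClosed_le Complex.continuous_re continuous_const
    exact closure_minimal h1 h2 ho.f1
  have hge : 1 ≤ (f 1).re := not_lt.1 hcon
  have heq : (f 1).re = 1 := le_antisymm hle hge
  have hX1 : -(Real.pi / 4) ≤ (LXq (q 1)).im := by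
    by_contra hc
    have h1 : (1 + (q 1) ^ 2).re < 0 := by
      by_contra h2
      have h3 := LXq_im_le (not_lt.1 h2)
      have := (abs_le.1 h3).1
      linarith
    have := ho.half 1 le_rfl h1
    linarith
  have harg : |k * (LXq (q 1) - LS k μ (LXq (q 1)) (f 1)).im| = Real.pi / 2 := by
    rw [LS_mul_im hk0, Complex.log_im]
    have h1 : (1 - f 1).re = 0 := by
      rw [Complex.sub_re, heq, Complex.one_re, sub_self]
    have h2 : 1 - f 1 ≠ 0 := sub_ne_zero.2 (Ne.symm ho.f1ne)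
    have h3 : |arg (1 - f 1)| ≤ Real.pi / 2 := Complex.abs_arg_le_pi_div_two_iff.2 h1.ge
    have h4 : ¬ |arg (1 - f 1)| < Real.pi / 2 := by
      rw [Complex.abs_arg_lt_pi_div_two_iff]
      rintro (h5 | h5)
      · linarith
      · exact h2 h5
    exact le_antisymm h3 (not_lt.1 h4)
  have key := h k (CK k μ) _ _ _ _ _ _ _ _ _ _ hK hst hX1 harg
  rw [e1, e2] at key
  have hd : DifferentiableOn ℂ (fun z => 1 - hh z) {z : ℂ | z.re < (q 0).re} :=
    ho.dh.const_sub 1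
  have hp : ∀ z : ℂ, z.re < (q 0).re → 0 < (1 - hh z).re := by
    intro z hz
    have h1 : (hh z).re < 1 := ho.hG z hz
    rw [Complex.sub_re, Complex.one_re]
    linarith
  have pk := pick_half hd hp (ho.qre 0) (lt_trans (ho.qre 1) (ho.qre 0))
  simp only [ho.hq 1 le_rfl, ho.hq 2 (by norm_num)] at pk
  have hs0 : (exp (LS k μ (LXq (q 1)) (f 1))).re = (q 0).re - (q 1).re := by
    rw [← ho.step 0, Complex.sub_re]
  have hs1 : exp (LS k μ (LXq (q 2)) (f 2)) = q 1 - q 2 := (ho.step 1).symm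
  have hs2 : (exp (LS k μ (LXq (q 1)) (f 1)) + exp (LS k μ (LXq (q 2)) (f 2))).re =
      (q 0).re - (q 2).re := by
    rw [Complex.add_re, hs0, hs1, Complex.sub_re]
    ring
  rw [hs0, hs2, hs1] at key
  linarith

/-- `‖f 1‖ = 1`; `pick_disc` for `h` between `q 1` and `q 2` -/
theorem exitG_disc {K : ℝ} (h : EQS.ExitDisc K) (hk : 2 < k) (hK : k ≤ K) :
    ExitG k {f : ℂ | ‖f‖ < 1} := by
  intro μ q f hh ho
  by_contra hcon
  have hk0 : 0 < k := by linarith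
  obtain ⟨hst, e0, e1, e2⟩ := ho.st tgt_disc
  have hle : ‖f 1‖ ≤ 1 := by
    have h1 : {z : ℂ | ‖z‖ < 1} ⊆ {z : ℂ | ‖z‖ ≤ 1} := fun z (hz : ‖z‖ < 1) => hz.le
    have h2 : IsClosed {z : ℂ | ‖z‖ ≤ 1} := isClosed_le continuous_norm continuous_const
    exact closure_minimal h1 h2 ho.f1
  have hge : 1 ≤ ‖f 1‖ := not_lt.1 hcon
  have heq : ‖f 1‖ = 1 := le_antisymm hle hge
  have hX1 : (LXq (q 1)).im < -(Real.pi / 4) →
      (EQS.pv k (CK k μ) (LXq (q 1)) (LS k μ (LXq (q 2)) (f 2))).re < 1 / 2 := by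
    intro hc
    have h0 : EQS.pv k (CK k μ) (LXq (q 1)) (LS k μ (LXq (q 2)) (f 2)) = f 1 := by
      have := hst.f1
      rw [e0] at this
      linear_combination this
    rw [h0]
    have h1 : (1 + (q 1) ^ 2).re < 0 := by
      by_contra h2
      have h3 := LXq_im_le (not_lt.1 h2)
      have := (abs_le.1 h3).1
      linarith
    exact ho.half 1 le_rfl h1
  have n1 : ‖1 - EQS.pv k (CK k μ) (LXq (q 1)) (LS k μ (LXq (q 1)) (f 1))‖ = 1 := by
    rw [e0, sub_sub_cancel, heq]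
  have n2 : ‖1 - EQS.pv k (CK k μ) (LXq (q 2)) (LS k μ (LXq (q 2)) (f 2))‖ < 1 := by
    rw [e1, sub_sub_cancel]
    exact ho.fG 2 le_rfl
  have n3 : ‖1 - EQS.pv k (CK k μ) (LXq (q 3)) (LS k μ (LXq (q 3)) (f 3))‖ < 1 := by
    rw [e2, sub_sub_cancel]
    exact ho.fG 3 (by norm_num)
  have key := h k (CK k μ) _ _ _ _ _ _ _ _ _ _ hK hst hX1 n1 n2 n3
  rw [e1, e2, sub_sub_cancel, sub_sub_cancel] at key
  have pk := pick_disc ho.dh ho.hG (ho.qre 0) (lt_trans (ho.qre 1) (ho.qre 0))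
  rw [ho.hq 1 le_rfl, ho.hq 2 (by norm_num)] at pk
  have hs0 : (exp (LS k μ (LXq (q 1)) (f 1))).re = (q 0).re - (q 1).re := by
    rw [← ho.step 0, Complex.sub_re]
  have hs1 : exp (LS k μ (LXq (q 2)) (f 2)) = q 1 - q 2 := (ho.step 1).symm
  have hs2 : (exp (LS k μ (LXq (q 1)) (f 1)) + exp (LS k μ (LXq (q 2)) (f 2))).re =
      (q 0).re - (q 2).re := by
    rw [Complex.add_re, hs0, hs1, Complex.sub_re]
    ring
  have hs3 : ‖1 - f 2 - (1 - f 3)‖ = ‖f 2 - f 3‖ := by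
    rw [sub_sub_sub_cancel_left, norm_sub_rev]
  rw [hs0, hs2, hs1, hs3] at key
  linarith

end EQW
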