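import Pool.Agent.Lib.MP_226de1_co.E1.G.Final
import Pool.Agent.Lib.MP_226de1_co.G.Final

/-! Assembly: if no line system exists for `k > 2`, then S07639. -/

set_option autoImplicit false

namespace EQW

/-- no convex body in `ℝ^d` has two distinct `k`-equipower points, `k ≥ 1` -/
theorem final_of (hN : ∀ (k μ : ℝ) (dn dp : Bool → ℝ → ℝ), 2 < k → EQK.LineSys k μ dn dp → False)
    {k : ℝ} (hk : 1 ≤ k) {d : ℕ} (hd : 2 ≤ d)
    (K : Set (EuclideanSpace ℝ (Fin d))) (hc : Convex ℝ K) (hK : IsCompact K) :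
    ¬ ∃ p q : EuclideanSpace ℝ (Fin d), p ≠ q ∧ p ∈ interior K ∧ q ∈ interior K ∧
      (∃ c : ℝ, ∀ x ∈ frontier K, ∀ y ∈ frontier K, x ≠ y → p ∈ segment ℝ x y →
        dist p x ^ k + dist p y ^ k = c) ∧
      (∃ c : ℝ, ∀ x ∈ frontier K, ∀ y ∈ frontier K, x ≠ y → q ∈ segment ℝ x y →
        dist q x ^ k + dist q y ^ k = c) := by
  rcases le_or_gt k 2 with hk2 | hk2
  · exact EQG1.final hk hk2 hd K hc hK
  · rintro ⟨p, q, hpq, hp, hq, ⟨c₁, h₁⟩, ⟨c₂, h₂⟩⟩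
    obtain ⟨K', a, h⟩ :=
      EQG.twoEqui_of_body (by linarith) hd hc hK hpq hp hq h₁ h₂
    exact hN _ _ _ _ hk2 h.lineSys

/-- the frozen statement S07639, from the non-existence of line systems for `k > 2` -/
theorem frozen_of
    (hN : ∀ (k μ : ℝ) (dn dp : Bool → ℝ → ℝ), 2 < k → EQK.LineSys k μ dn dp → False) :
    ∀ k : ℝ, 1 ≤ k →
    ∀ K : Set (EuclideanSpace ℝ (Fin 2)), Convex ℝ K → IsCompact K → (interior K).Nonempty →
    ¬ ∃ p q : EuclideanSpace ℝ (Fin 2), p ≠ q ∧ p ∈ interior K ∧ q ∈ interior K ∧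
      (∃ c : ℝ, ∀ x ∈ frontier K, ∀ y ∈ frontier K, x ≠ y → p ∈ segment ℝ x y →
        dist p x ^ k + dist p y ^ k = c) ∧
      (∃ c : ℝ, ∀ x ∈ frontier K, ∀ y ∈ frontier K, x ≠ y → q ∈ segment ℝ x y →
        dist q x ^ k + dist q y ^ k = c) :=
  fun _ hk K hc hK _ => final_of hN hk le_rfl K hc hK

end EQW
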