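import Pool.Agent.Lib.MP_226de1_co.Sw.Main
import Pool.Agent.Lib.MP_226de1_co.Sw.Top

/-! S07639 from the two exit statements. -/

set_option autoImplicit false

namespace EQW

/-- S07639 from the two exit statements -/
theorem frozen_of_exits {K : ℝ} (h1 : EQS.ExitDisc K) (h2 : EQS.ExitHalf K) :
    ∀ k : ℝ, 1 ≤ k →
    ∀ K : Set (EuclideanSpace ℝ (Fin 2)), Convex ℝ K → IsCompact K → (interior K).Nonempty →
    ¬ ∃ p q : EuclideanSpace ℝ (Fin 2), p ≠ q ∧ p ∈ interior K ∧ q ∈ interior K ∧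
      (∃ c : ℝ, ∀ x ∈ frontier K, ∀ y ∈ frontier K, x ≠ y → p ∈ segment ℝ x y →
        dist p x ^ k + dist p y ^ k = c) ∧
      (∃ c : ℝ, ∀ x ∈ frontier K, ∀ y ∈ frontier K, x ≠ y → q ∈ segment ℝ x y →
        dist q x ^ k + dist q y ^ k = c) :=
  frozen_of fun _ _ _ _ hk hL => no_lineSys' h1 h2 hk hL

/-- S07639 from a general exit statement for every `k > 2` -/
theorem frozen_of_exitG (h : ∀ k : ℝ, 2 < k → ∃ G : Set ℂ, Tgt G ∧ ExitG k G) :
    ∀ k : ℝ, 1 ≤ k →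
    ∀ K : Set (EuclideanSpace ℝ (Fin 2)), Convex ℝ K → IsCompact K → (interior K).Nonempty →
    ¬ ∃ p q : EuclideanSpace ℝ (Fin 2), p ≠ q ∧ p ∈ interior K ∧ q ∈ interior K ∧
      (∃ c : ℝ, ∀ x ∈ frontier K, ∀ y ∈ frontier K, x ≠ y → p ∈ segment ℝ x y →
        dist p x ^ k + dist p y ^ k = c) ∧
      (∃ c : ℝ, ∀ x ∈ frontier K, ∀ y ∈ frontier K, x ≠ y → q ∈ segment ℝ x y →
        dist q x ^ k + dist q y ^ k = c) :=
  frozen_of fun k _ _ _ hk hL => by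
    obtain ⟨G, hG, hE⟩ := h k hk
    exact no_lineSys hG hE hk hL

end EQW
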