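import Mathlib

/-! A critical point of an analytic map: all values near the critical value are taken twice. -/

set_option autoImplicit false

namespace EQW

open Complex Set Filter Topology Metric

/-- At a critical point of a non constant analytic function every value near (and different from)
the critical value has two different preimages in a given neighbourhood. -/
theorem fold {T : ℂ → ℂ} {z₀ : ℂ} (hT : AnalyticAt ℂ T z₀) (hd : deriv T z₀ = 0)
    (hnc : ¬ ∀ᶠ z in 𝓝 z₀, T z = T z₀) {U : Set ℂ} (hU : U ∈ 𝓝 z₀) :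
    ∀ᶠ w in 𝓝[≠] (T z₀), ∃ z ∈ U, ∃ z' ∈ U, z ≠ z' ∧ T z = w ∧ T z' = w := by
  have h1 : AnalyticAt ℂ (fun z => T z - T z₀) z₀ := hT.sub analyticAt_const
  have h2 : ¬ ∀ᶠ z in 𝓝 z₀, (fun z => T z - T z₀) z = 0 := by
    intro hc
    exact hnc (hc.mono fun z hz => sub_eq_zero.mp hz)
  obtain ⟨n, g, hg, hg0, hgeq⟩ := h1.exists_eventuallyEq_pow_smul_nonzero_iff.mpr h2
  have hgeq' : ∀ᶠ z in 𝓝 z₀, T z = T z₀ + (z - z₀) ^ n * g z := by
    filter_upwards [hgeq] with z hz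
    rw [smul_eq_mul] at hz
    rw [← hz]; ring
  have hn0 : n ≠ 0 := by
    intro h0
    have := hgeq'.self_of_nhds
    rw [h0, pow_zero, one_mul] at this
    exact hg0 (by linear_combination -this)
  have hn1 : n ≠ 1 := by
    intro h1
    have e1 : deriv T z₀ = g z₀ := by
      have e2 : T =ᶠ[𝓝 z₀] fun z => T z₀ + (z - z₀) * g z := by
        filter_upwards [hgeq'] with z hz
        rw [hz, h1, pow_one]
      rw [e2.deriv_eq]
      have e3 : HasDerivAt (fun z => T z₀ + (z - z₀) * g z)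
          (1 * g z₀ + (z₀ - z₀) * deriv g z₀) z₀ := by
        have e4 := ((hasDerivAt_id z₀).sub_const z₀).mul hg.differentiableAt.hasDerivAt
        exact e4.const_add (T z₀)
      rw [e3.deriv]; ring
    rw [e1] at hd
    exact hg0 hd
  have hn2 : 2 ≤ n := by omega
  have hnC : (n : ℂ) ≠ 0 := by exact_mod_cast hn0
  -- the root
  set ψ : ℂ → ℂ := fun z => (z - z₀) * exp (log (g z / g z₀) / n) with hψ
  have hlog : AnalyticAt ℂ (fun z => log (g z / g z₀)) z₀ := by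
    apply AnalyticAt.clog (hg.div analyticAt_const hg0)
    show g z₀ / g z₀ ∈ slitPlane
    rw [div_self hg0]
    exact Complex.one_mem_slitPlane
  have hψa : AnalyticAt ℂ ψ z₀ :=
    (analyticAt_id.sub analyticAt_const).mul (hlog.div analyticAt_const hnC).cexp
  have hψd : HasStrictDerivAt ψ 1 z₀ := by
    have e1 : HasStrictDerivAt (fun z => exp (log (g z / g z₀) / n))
        (deriv (fun z => exp (log (g z / g z₀) / n)) z₀) z₀ :=
      ((hlog.div analyticAt_const hnC).cexp).hasStrictDerivAt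
    have e3 : HasStrictDerivAt (fun z : ℂ => z - z₀) 1 z₀ :=
      (hasStrictDerivAt_id z₀).sub_const z₀
    have e2 := e3.mul e1
    have e4 : (1 : ℂ) * exp (log (g z₀ / g z₀) / n) +
        (z₀ - z₀) * deriv (fun z => exp (log (g z / g z₀) / n)) z₀ = 1 := by
      rw [div_self hg0]
      simp
    rw [e4] at e2
    exact e2
  have hmap : Filter.map ψ (𝓝 z₀) = 𝓝 (ψ z₀) := hψd.map_nhds_eq one_ne_zero
  have hψ0 : ψ z₀ = 0 := by simp [hψ]
  rw [hψ0] at hmap
  have hg1 : ∀ᶠ z in 𝓝 z₀, g z ≠ 0 := hg.continuousAt.eventually_ne hg0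
  have hS : {z | z ∈ U ∧ T z = T z₀ + (z - z₀) ^ n * g z ∧ g z ≠ 0} ∈ 𝓝 z₀ := by
    filter_upwards [hU, hgeq', hg1] with z h1 h2 h3 using ⟨h1, h2, h3⟩
  have hI := Filter.image_mem_map (m := ψ) hS
  rw [hmap, Metric.mem_nhds_iff] at hI
  obtain ⟨r, hr, hball⟩ := hI
  have hval : ∀ z, T z = T z₀ + (z - z₀) ^ n * g z → g z ≠ 0 →
      T z = T z₀ + (ψ z) ^ n * g z₀ := by
    intro z h1 h2
    rw [h1]
    simp only [hψ]
    rw [mul_pow, ← Complex.exp_nat_mul, mul_div_cancel₀ _ hnC, exp_log (div_ne_zero h2 hg0)]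
    field_simp
  have hev : ∀ᶠ w in 𝓝 (T z₀), ‖(w - T z₀) / g z₀‖ < r ^ n := by
    have hc : ContinuousAt (fun w => ‖(w - T z₀) / g z₀‖) (T z₀) := by fun_prop
    apply hc.eventually_lt continuousAt_const
    simp only [sub_self, zero_div, norm_zero]
    positivity
  filter_upwards [hev.filter_mono nhdsWithin_le_nhds, self_mem_nhdsWithin] with w hw hwne
  obtain ⟨s, hs⟩ := IsAlgClosed.exists_pow_nat_eq ((w - T z₀) / g z₀) (Nat.pos_of_ne_zero hn0)
  have hs0 : s ≠ 0 := by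
    intro h0
    rw [h0, zero_pow hn0] at hs
    have := hs.symm
    rw [div_eq_zero_iff] at this
    rcases this with h | h
    · exact hwne (sub_eq_zero.mp h)
    · exact hg0 h
  have hsr : ‖s‖ < r := by
    rw [← hs, norm_pow] at hw
    exact lt_of_pow_lt_pow_left₀ n hr.le hw
  set ζ : ℂ := exp (2 * Real.pi * I / n) with hζ
  have hprim := Complex.isPrimitiveRoot_exp n hn0
  rw [← hζ] at hprim
  have hζ1 : ζ ≠ 1 := hprim.ne_one (by omega)
  have hζn : ζ ^ n = 1 := hprim.pow_eq_one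
  have hζnorm : ‖ζ‖ = 1 := hprim.norm'_eq_one hn0
  obtain ⟨z, hz, hzs⟩ := hball (show s ∈ ball (0 : ℂ) r by rwa [mem_ball_zero_iff])
  obtain ⟨z', hz', hzs'⟩ := hball (show ζ * s ∈ ball (0 : ℂ) r by
    rw [mem_ball_zero_iff, norm_mul, hζnorm, one_mul]; exact hsr)
  refine ⟨z, hz.1, z', hz'.1, ?_, ?_, ?_⟩
  · intro h
    rw [← h, hzs] at hzs'
    have : (ζ - 1) * s = 0 := by linear_combination -hzs'
    rcases mul_eq_zero.mp this with h | h
    · exact hζ1 (sub_eq_zero.mp h)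
    · exact hs0 h
  · rw [hval z hz.2.1 hz.2.2, hzs, hs]
    field_simp
    ring
  · rw [hval z' hz'.2.1 hz'.2.2, hzs', mul_pow, hζn, one_mul, hs]
    field_simp
    ring

/-- The same along a ray. -/
theorem fold_ray {T : ℂ → ℂ} {z₀ : ℂ} (hT : AnalyticAt ℂ T z₀) (hd : deriv T z₀ = 0)
    (hnc : ¬ ∀ᶠ z in 𝓝 z₀, T z = T z₀) {U : Set ℂ} (hU : U ∈ 𝓝 z₀) {v : ℂ} (hv : v ≠ 0) :
    ∀ᶠ ε : ℝ in 𝓝[>] 0, ∃ z ∈ U, ∃ z' ∈ U, z ≠ z' ∧ T z = T z₀ + ε * v ∧
      T z' = T z₀ + ε * v := by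
  have h1 := fold hT hd hnc hU
  have h2 : Tendsto (fun ε : ℝ => T z₀ + ε * v) (𝓝[>] 0) (𝓝[≠] (T z₀)) := by
    apply tendsto_nhdsWithin_of_tendsto_nhds_of_eventually_within
    · have : ContinuousAt (fun ε : ℝ => T z₀ + ε * v) 0 := by fun_prop
      have h3 := this.tendsto
      simp only [ofReal_zero, zero_mul, add_zero] at h3
      exact h3.mono_left nhdsWithin_le_nhds
    · filter_upwards [self_mem_nhdsWithin] with ε hε
      intro h
      have h4 : (ε : ℂ) * v = 0 := by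
        have : T z₀ + (ε : ℂ) * v = T z₀ := h
        linear_combination this
      rcases mul_eq_zero.mp h4 with h | h
      · have : ε = 0 := by exact_mod_cast h
        have h5 : 0 < ε := hε
        linarith
      · exact hv h
  exact h2.eventually h1

/-- Analytic local inverse. -/
theorem loc_inv {T : ℂ → ℂ} {z₀ : ℂ} (hT : AnalyticAt ℂ T z₀) (hd : deriv T z₀ ≠ 0)
    {U : Set ℂ} (hU : U ∈ 𝓝 z₀) :
    ∃ ε : ℝ, 0 < ε ∧ ∃ S : ℂ → ℂ, DifferentiableOn ℂ S (ball (T z₀) ε) ∧ S (T z₀) = z₀ ∧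
      ∀ w ∈ ball (T z₀) ε, S w ∈ U ∧ T (S w) = w := by
  have hr : AnalyticAt ℂ (hT.hasStrictDerivAt.localInverse T (deriv T z₀) z₀ hd) (T z₀) :=
    hT.analyticAt_localInverse hd
  have h0 : hT.hasStrictDerivAt.localInverse T (deriv T z₀) z₀ hd (T z₀) = z₀ :=
    HasStrictFDerivAt.localInverse_apply_image ..
  have h1 : ∀ᶠ w in 𝓝 (T z₀),
      T (hT.hasStrictDerivAt.localInverse T (deriv T z₀) z₀ hd w) = w :=
    HasStrictDerivAt.eventually_right_inverse ..
  have h2 : ∀ᶠ w in 𝓝 (T z₀),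
      hT.hasStrictDerivAt.localInverse T (deriv T z₀) z₀ hd w ∈ U := by
    apply hr.continuousAt
    rw [h0]
    exact hU
  obtain ⟨ε, hε, hb⟩ := Metric.eventually_nhds_iff_ball.mp
    (hr.eventually_analyticAt.and (h1.and h2))
  exact ⟨ε, hε, _, fun w hw => (hb w hw).1.differentiableAt.differentiableWithinAt, h0,
    fun w hw => ⟨(hb w hw).2.2, (hb w hw).2.1⟩⟩

end EQW
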