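import Pool.Agent.Lib.MP_226de1_co.Sw.Sym

/-! Gluing: from local extensions of `D` at all points of the line `Re z = -m` to a solution on a
larger half plane, and the union: if local extensions always exist then the sweep reaches `m = 0`. -/

set_option autoImplicit false

namespace EQW

open Complex Set Filter Topology Metric
open EQH (CK)

variable {k μ u m R : ℝ} {G : Set ℂ} {q LX LD DI XI D : ℂ → ℂ}

/-- Identity theorem along a horizontal segment. -/
theorem seg_eq {W : Set ℂ} (hW : IsOpen W) {f g : ℂ → ℂ} (hf : DifferentiableOn ℂ f W)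
    (hg : DifferentiableOn ℂ g W) (hfg : ∀ w ∈ W, w.re < -m → f w = g w) {z : ℂ}
    (hz : -m ≤ z.re) (hseg : ∀ t : ℝ, 0 ≤ t → t ≤ z.re + m → z - t ∈ W) : f z = g z := by
  have hp : z - ((z.re + m : ℝ) : ℂ) ∈ W := hseg _ (by linarith) le_rfl
  obtain ⟨s, hs, hball⟩ := Metric.isOpen_iff.mp hW _ hp
  set T : ℝ := z.re + m + s / 2 with hT
  set e : ℂ := z - (T : ℂ) with he
  -- the segment is in `W`
  have hmem : ∀ t : ℝ, 0 ≤ t → t ≤ T → z - t ∈ W := by
    intro t h0 h1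
    rcases le_or_gt t (z.re + m) with h2 | h2
    · exact hseg t h0 h2
    · apply hball
      rw [mem_ball_iff_norm]
      have : z - (t : ℂ) - (z - ((z.re + m : ℝ) : ℂ)) = ((z.re + m - t : ℝ) : ℂ) := by
        push_cast; ring
      rw [this, Complex.norm_real, Real.norm_eq_abs, abs_lt]
      constructor <;> linarith
  have hsub : segment ℝ z e ⊆ W := by
    intro x hx
    obtain ⟨a, b, ha, hb, hab, rfl⟩ := hx
    have : a • z + b • e = z - ((b * T : ℝ) : ℂ) := by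
      have ha' : a = 1 - b := by linarith
      rw [he, ha']
      simp only [real_smul]
      push_cast; ring
    rw [this]
    have hT0 : 0 ≤ T := by rw [hT]; linarith
    apply hmem
    · exact mul_nonneg hb hT0
    · have hb1 : b ≤ 1 := by linarith
      nlinarith
  have hfa : AnalyticOnNhd ℂ f (segment ℝ z e) := (hf.analyticOnNhd hW).mono hsub
  have hga : AnalyticOnNhd ℂ g (segment ℝ z e) := (hg.analyticOnNhd hW).mono hsub
  have heW : e ∈ W := hsub (right_mem_segment ℝ z e)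
  have here : e.re < -m := by
    rw [he, sub_re, ofReal_re, hT]; linarith
  have hev : f =ᶠ[𝓝 e] g := by
    filter_upwards [hW.mem_nhds heW, (isOpen_Hp m).mem_nhds (show e ∈ Hp m from here)]
      with w h1 h2 using hfg w h1 h2
  exact (hfa.eqOn_of_preconnected_of_eventuallyEq hga (convex_segment z e).isPreconnected
    (right_mem_segment ℝ z e) hev) (left_mem_segment ℝ z e)

/-- moving horizontally towards the line `Re = -m` stays in a disc centred on the line -/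
private theorem ball_left {z₀ z : ℂ} {ε : ℝ} (h0 : z₀.re = -m) (hz : z ∈ ball z₀ ε) {t : ℝ}
    (ht : 0 ≤ t) (ht' : t ≤ z.re + m) : z - t ∈ ball z₀ ε := by
  rw [mem_ball_iff_norm] at hz ⊢
  refine lt_of_le_of_lt ?_ hz
  rw [Complex.norm_def, Complex.norm_def]
  apply Real.sqrt_le_sqrt
  rw [Complex.normSq_apply, Complex.normSq_apply]
  simp only [sub_re, sub_im, ofReal_re, ofReal_im, sub_zero]
  have h1 : z.re - t - z₀.re = z.re + m - t := by rw [h0]; ring
  have h2 : z.re - z₀.re = z.re + m := by rw [h0]; ring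
  rw [h1, h2]
  nlinarith

/-- moving to the left in `Re < 0` increases the modulus -/
private theorem norm_left {z : ℂ} (hz : z.re < 0) {t : ℝ} (ht : 0 ≤ t) : ‖z‖ ≤ ‖z - t‖ := by
  rw [Complex.norm_def, Complex.norm_def]
  apply Real.sqrt_le_sqrt
  rw [Complex.normSq_apply, Complex.normSq_apply]
  simp only [sub_re, sub_im, ofReal_re, ofReal_im, sub_zero]
  nlinarith

/-- GLUING -/
theorem SW.glue (hB : Bs k μ u R G q LX LD DI XI) (h : SW k μ m R G DI D) (hm : 0 < m)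
    (hloc : ∀ z₀ : ℂ, z₀.re = -m → ‖z₀‖ ≤ R + 1 → LocExt k μ m G D z₀) :
    ∃ m' : ℝ, m' < m ∧ 0 ≤ m' ∧ ∃ D' : ℂ → ℂ, SW k μ m' R G DI D' := by
  classical
  -- the compact piece of the line
  set K : Set ℂ := {z : ℂ | z.re = -m ∧ ‖z‖ ≤ R + 1} with hK
  have hKc : IsCompact K := by
    have h1 : IsClosed K :=
      (isClosed_eq Complex.continuous_re continuous_const).inter
        (isClosed_le continuous_norm continuous_const)
    refine (isCompact_closedBall (0 : ℂ) (R + 1)).of_isClosed_subset h1 fun w hw => ?_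
    rw [mem_closedBall_zero_iff]
    exact hw.2
  choose! ε hε D₁ hD₁ using fun z₀ (hz : z₀ ∈ K) => hloc z₀ hz.1 hz.2
  -- the union of the balls contains a neighbourhood of `K`
  set U : Set ℂ := ⋃ z₀ ∈ K, ball z₀ (ε z₀) with hU
  have hUo : IsOpen U := isOpen_biUnion fun _ _ => isOpen_ball
  have hKU : K ⊆ U := fun z hz => mem_biUnion hz (mem_ball_self (hε z hz))
  obtain ⟨δ, hδ, hthick⟩ := hKc.exists_thickening_subset_open hUo hKU
  set η : ℝ := min (δ / 2) (min (m / 2) (1 / 2)) with hη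
  have hη0 : 0 < η := lt_min (by linarith) (lt_min (by linarith) (by norm_num))
  have hη1 : η ≤ δ / 2 := min_le_left _ _
  have hη2 : η ≤ m / 2 := (min_le_right _ _).trans (min_le_left _ _)
  have hη3 : η ≤ 1 / 2 := (min_le_right _ _).trans (min_le_right _ _)
  -- every point of the strip with `‖z‖ ≤ R` is in one of the balls
  have hcov : ∀ z : ℂ, -m ≤ z.re → z.re < -(m - η) → ‖z‖ ≤ R →
      ∃ z₀ ∈ K, z ∈ ball z₀ (ε z₀) := by
    intro z h1 h2 h3
    have hzU : z ∈ U := by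
      apply hthick
      rw [mem_thickening_iff]
      refine ⟨z - ((z.re + m : ℝ) : ℂ), ⟨?_, ?_⟩, ?_⟩
      · simp
      · have h4 : ‖z - ((z.re + m : ℝ) : ℂ)‖ ≤ ‖z‖ + ‖((z.re + m : ℝ) : ℂ)‖ := norm_sub_le _ _
        rw [Complex.norm_real, Real.norm_eq_abs, abs_of_nonneg (by linarith)] at h4
        linarith
      · rw [dist_eq_norm]
        have : z - (z - ((z.re + m : ℝ) : ℂ)) = ((z.re + m : ℝ) : ℂ) := by ring
        rw [this, Complex.norm_real, Real.norm_eq_abs, abs_of_nonneg (by linarith)]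
        linarith
    rw [hU] at hzU
    simpa using hzU
  have hm' : 0 ≤ m - η := by linarith
  -- agreement of two local pieces
  have hAA : ∀ z₀ ∈ K, ∀ z₁ ∈ K, ∀ z : ℂ, -m ≤ z.re → z ∈ ball z₀ (ε z₀) →
      z ∈ ball z₁ (ε z₁) → D₁ z₀ z = D₁ z₁ z := by
    intro z₀ h0 z₁ h1 z hz hz0 hz1
    apply seg_eq (m := m) (isOpen_ball.inter isOpen_ball (s := ball z₀ (ε z₀))
      (t := ball z₁ (ε z₁))) ((hD₁ z₀ h0).1.mono inter_subset_left)
      ((hD₁ z₁ h1).1.mono inter_subset_right) ?_ hz ?_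
    · intro w hw hwm
      rw [(hD₁ z₀ h0).2.1 w hw.1 hwm, (hD₁ z₁ h1).2.1 w hw.2 hwm]
    · intro t ht ht'
      exact ⟨ball_left h0.1 hz0 ht ht', ball_left h1.1 hz1 ht ht'⟩
  have hAI : ∀ z₀ ∈ K, ∀ z : ℂ, -m ≤ z.re → z.re < 0 → R < ‖z‖ → z ∈ ball z₀ (ε z₀) →
      D₁ z₀ z = DI z := by
    intro z₀ h0 z hz hz' hzR hz0
    apply seg_eq (m := m) (isOpen_ball.inter (isOpen_Ar R) (s := ball z₀ (ε z₀)))
      ((hD₁ z₀ h0).1.mono inter_subset_left) (hB.dD.mono inter_subset_right) ?_ hz ?_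
    · intro w hw hwm
      rw [(hD₁ z₀ h0).2.1 w hw.1 hwm, h.ag w hwm hw.2.2]
    · intro t ht ht'
      refine ⟨ball_left h0.1 hz0 ht ht', ?_, lt_of_lt_of_le hzR (norm_left hz' ht)⟩
      show (z - (t : ℂ)).re < 0
      rw [sub_re, ofReal_re]; linarith
  -- the new function
  let D' : ℂ → ℂ := fun z => if z ∈ Hp m then D z else if R < ‖z‖ then DI z else
    if hx : ∃ z₀ ∈ K, z ∈ ball z₀ (ε z₀) then D₁ hx.choose z else 0
  have hγ : ∀ z ∈ Hp m, D' z = D z := fun z hz => if_pos hz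
  have hβ : ∀ z : ℂ, z.re < 0 → R < ‖z‖ → D' z = DI z := by
    intro z hz hn
    by_cases hzm : z ∈ Hp m
    · rw [hγ z hzm]; exact h.ag z hzm hn
    · show (if z ∈ Hp m then D z else if R < ‖z‖ then DI z else _) = DI z
      rw [if_neg hzm, if_pos hn]
  have hα : ∀ z₀ ∈ K, ∀ z ∈ ball z₀ (ε z₀), z.re < 0 → D' z = D₁ z₀ z := by
    intro z₀ h0 z hz hz'
    by_cases hzm : z ∈ Hp m
    · rw [hγ z hzm, (hD₁ z₀ h0).2.1 z hz hzm]
    · have hzm' : -m ≤ z.re := not_lt.mp hzm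
      by_cases hn : R < ‖z‖
      · rw [hβ z hz' hn, hAI z₀ h0 z hzm' hz' hn hz]
      · have hx : ∃ z₀ ∈ K, z ∈ ball z₀ (ε z₀) := ⟨z₀, h0, hz⟩
        have e1 : D' z = D₁ hx.choose z := by
          show (if z ∈ Hp m then D z else if R < ‖z‖ then DI z else
            if hx : ∃ z₀ ∈ K, z ∈ ball z₀ (ε z₀) then D₁ hx.choose z else 0) = _
          rw [if_neg hzm, if_neg hn, dif_pos hx]
        rw [e1]
        exact hAA _ hx.choose_spec.1 _ h0 z hzm' hx.choose_spec.2 hz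
  have hneg : ∀ z ∈ Hp (m - η), z.re < 0 := by
    intro z hz
    have : z.re < -(m - η) := hz
    linarith
  have hcases : ∀ z ∈ Hp (m - η), z ∈ Hp m ∨ R < ‖z‖ ∨ ∃ z₀ ∈ K, z ∈ ball z₀ (ε z₀) := by
    intro z hz
    by_cases h1 : z ∈ Hp m
    · exact Or.inl h1
    · by_cases h2 : R < ‖z‖
      · exact Or.inr (Or.inl h2)
      · exact Or.inr (Or.inr (hcov z (not_lt.mp h1) hz (not_lt.mp h2)))
  refine ⟨m - η, by linarith, hm', D', ?_⟩
  constructor
  · exact hm'
  · intro z hz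
    have hz0 := hneg z hz
    apply DifferentiableAt.differentiableWithinAt
    have hnegev : ∀ᶠ w : ℂ in 𝓝 z, w.re < 0 :=
      Complex.continuous_re.continuousAt.eventually_lt continuousAt_const hz0
    rcases hcases z hz with h1 | h1 | ⟨z₀, h0, h1⟩
    · have e : D' =ᶠ[𝓝 z] D := by
        filter_upwards [(isOpen_Hp m).mem_nhds h1] with w hw using hγ w hw
      exact (h.diffAt h1).congr_of_eventuallyEq e
    · have e : D' =ᶠ[𝓝 z] DI := by
        filter_upwards [(isOpen_Ar R).mem_nhds (show z ∈ Ar R from ⟨hz0, h1⟩)] with w hw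
          using hβ w hw.1 hw.2
      exact (hB.dD.differentiableAt ((isOpen_Ar R).mem_nhds ⟨hz0, h1⟩)).congr_of_eventuallyEq e
    · have e : D' =ᶠ[𝓝 z] D₁ z₀ := by
        filter_upwards [isOpen_ball.mem_nhds h1, hnegev] with w hw hw'
          using hα z₀ h0 w hw hw'
      exact ((hD₁ z₀ h0).1.differentiableAt (isOpen_ball.mem_nhds h1)).congr_of_eventuallyEq e
  · intro z hz
    have hz0 := hneg z hz
    rcases hcases z hz with h1 | h1 | ⟨z₀, h0, h1⟩
    · rw [hγ z h1]; exact h.reD z h1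
    · rw [hβ z hz0 h1]; exact hB.reD z ⟨hz0, h1⟩
    · rw [hα z₀ h0 z h1 hz0]; exact ((hD₁ z₀ h0).2.2 z h1).1
  · intro z hz
    have hz0 := hneg z hz
    rcases hcases z hz with h1 | h1 | ⟨z₀, h0, h1⟩
    · rw [hγ z h1, fD_congr (hγ _ (h.mem h1))]
      exact h.tgt z h1
    · have hA : z ∈ Ar R := ⟨hz0, h1⟩
      rw [hβ z hz0 h1]
      have h2 := hB.grow z hA
      have h3 : (z - DI z).re < 0 := by
        have := hB.reD z hA
        rw [sub_re]; linarith
      rw [fD_congr (hβ _ h3 (lt_of_lt_of_le h1 h2))]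
      exact hB.tgt z hA
    · have h2 := (hD₁ z₀ h0).2.2 z h1
      rw [hα z₀ h0 z h1 hz0, fD_congr (hγ _ h2.2.1)]
      exact h2.2.2.1
  · intro z hz
    have hz0 := hneg z hz
    rcases hcases z hz with h1 | h1 | ⟨z₀, h0, h1⟩
    · rw [hγ z h1, TD_congr (hγ _ (h.mem h1))]
      exact h.eqn z h1
    · have hA : z ∈ Ar R := ⟨hz0, h1⟩
      rw [hβ z hz0 h1]
      have h2 := hB.grow z hA
      have h3 : (z - DI z).re < 0 := by
        have := hB.reD z hA
        rw [sub_re]; linarith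
      rw [TD_congr (hβ _ h3 (lt_of_lt_of_le h1 h2))]
      exact hB.eqn z hA
    · have h2 := (hD₁ z₀ h0).2.2 z h1
      rw [hα z₀ h0 z h1 hz0, TD_congr (hγ _ h2.2.1)]
      exact h2.2.2.2
  · intro z hz hn
    exact hβ z (hneg z hz) hn

/-- UNION -/
theorem SW.union (hB : Bs k μ u R G q LX LD DI XI) {S : Set ℝ} (hS : S.Nonempty)
    (h0 : ∀ m ∈ S, 0 ≤ m) (hSW : ∀ m ∈ S, ∃ D : ℂ → ℂ, SW k μ m R G DI D) :
    ∃ D : ℂ → ℂ, SW k μ (sInf S) R G DI D := by
  classical
  have hbdd : BddBelow S := ⟨0, fun m hm => h0 m hm⟩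
  choose! Dm hDm using hSW
  have hex : ∀ z ∈ Hp (sInf S), ∃ m ∈ S, z ∈ Hp m := by
    intro z hz
    have h1 : sInf S < -z.re := by
      have : z.re < -sInf S := hz
      linarith
    obtain ⟨m, hm, hm'⟩ := exists_lt_of_csInf_lt hS h1
    refine ⟨m, hm, ?_⟩
    show z.re < -m
    linarith
  let D : ℂ → ℂ := fun z => if hx : ∃ m ∈ S, z ∈ Hp m then Dm hx.choose z else 0
  have hD : ∀ m ∈ S, ∀ z ∈ Hp m, D z = Dm m z := by
    intro m hm z hz
    have hx : ∃ m ∈ S, z ∈ Hp m := ⟨m, hm, hz⟩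
    have e1 : D z = Dm hx.choose z := dif_pos hx
    rw [e1]
    exact SW.unique hB (hDm _ hx.choose_spec.1) (hDm m hm) hx.choose_spec.2 hz
  refine ⟨D, ?_⟩
  constructor
  · exact le_csInf hS fun m hm => h0 m hm
  · intro z hz
    obtain ⟨m, hm, hzm⟩ := hex z hz
    have e : D =ᶠ[𝓝 z] Dm m := by
      filter_upwards [(isOpen_Hp m).mem_nhds hzm] with w hw using hD m hm w hw
    exact (((hDm m hm).diffAt hzm).congr_of_eventuallyEq e).differentiableWithinAt
  · intro z hz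
    obtain ⟨m, hm, hzm⟩ := hex z hz
    rw [hD m hm z hzm]
    exact (hDm m hm).reD z hzm
  · intro z hz
    obtain ⟨m, hm, hzm⟩ := hex z hz
    rw [hD m hm z hzm, fD_congr (hD m hm _ ((hDm m hm).mem hzm))]
    exact (hDm m hm).tgt z hzm
  · intro z hz
    obtain ⟨m, hm, hzm⟩ := hex z hz
    rw [hD m hm z hzm, TD_congr (hD m hm _ ((hDm m hm).mem hzm))]
    exact (hDm m hm).eqn z hzm
  · intro z hz hn
    obtain ⟨m, hm, hzm⟩ := hex z hz
    rw [hD m hm z hzm]
    exact (hDm m hm).ag z hzm hn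

/-- The sweep reaches `m = 0` if every solution with `m > 0` extends locally at every point of the
line `Re z = -m`. -/
theorem exists_SW0 (hB : Bs k μ u R G q LX LD DI XI)
    (hloc : ∀ (m : ℝ) (D : ℂ → ℂ), 0 < m → SW k μ m R G DI D → ∀ z₀ : ℂ, z₀.re = -m →
      LocExt k μ m G D z₀) : ∃ D : ℂ → ℂ, SW k μ 0 R G DI D := by
  set S : Set ℝ := {m : ℝ | ∃ D : ℂ → ℂ, SW k μ m R G DI D} with hS
  have hne : S.Nonempty := ⟨R, DI, hB.start⟩
  have h0 : ∀ m ∈ S, 0 ≤ m := by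
    rintro m ⟨D, hD⟩
    exact hD.hm
  have hbdd : BddBelow S := ⟨0, fun m hm => h0 m hm⟩
  obtain ⟨D, hD⟩ := SW.union hB hne h0 fun m hm => hm
  rcases (le_csInf hne h0).lt_or_eq with h1 | h1
  · exfalso
    obtain ⟨m', hm', _, D', hD'⟩ := hD.glue hB h1 fun z₀ hz₀ _ => hloc _ D h1 hD z₀ hz₀
    have := csInf_le hbdd (show m' ∈ S from ⟨D', hD'⟩)
    linarith
  · rw [← h1] at hD
    exact ⟨D, hD⟩

/-- THE SWEEP -/
theorem sweep (_hμ : 1 < μ) (hB : Bs k μ u R G q LX LD DI XI)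
    (hloc : ∀ (m : ℝ) (D : ℂ → ℂ), 0 < m → SW k μ m R G DI D → ∀ z₀ : ℂ, z₀.re = -m →
      LocExt k μ m G D z₀) :
    ∃ D : ℂ → ℂ, SW k μ 0 R G DI D := exists_SW0 hB hloc

end EQW
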