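import Mathlib

/-! Growth of functions with positive real part on a half plane. -/

set_option autoImplicit false

namespace EQW

open Complex Set Filter Topology Metric

private theorem har_re (ζ : ℂ) (hζ : ‖ζ‖ < 1) : 0 < ((1 + ζ) / (1 - ζ)).re := by
  have h1 : (1 - ζ) ≠ 0 := by
    intro h
    have : ζ = 1 := by linear_combination -h
    rw [this] at hζ
    simp at hζ
  have h2 : ((1 + ζ) / (1 - ζ)).re = (1 - ‖ζ‖ ^ 2) / normSq (1 - ζ) := by
    rw [div_re, ← add_div, ← normSq_eq_norm_sq, normSq_apply ζ]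
    simp only [add_re, one_re, sub_re, add_im, one_im, sub_im]
    congr 1
    ring
  rw [h2]
  refine div_pos ?_ (normSq_pos.mpr h1)
  nlinarith [norm_nonneg ζ]

private theorem har_quot {a b : ℂ} (ha : 0 < a.re) (hb : 0 < b.re) :
    ‖(a - b) / (a + (starRingEnd ℂ) b)‖ ≤ 1 := by
  have h1 : 0 < (a + (starRingEnd ℂ) b).re := by
    rw [add_re, conj_re]
    exact add_pos ha hb
  have h0 : a + (starRingEnd ℂ) b ≠ 0 := by
    intro h
    rw [h] at h1
    simp at h1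
  rw [norm_div, div_le_one (norm_pos_iff.mpr h0)]
  refine le_of_sq_le_sq ?_ (norm_nonneg _)
  rw [← normSq_eq_norm_sq, ← normSq_eq_norm_sq, normSq_apply, normSq_apply]
  simp only [sub_re, sub_im, add_re, add_im, conj_re, conj_im]
  nlinarith [mul_pos ha hb]

private theorem har_bound {H b G : ℂ} {t : ℝ} (ht : t < 1) (hG : ‖G‖ ≤ t)
    (hH : H - b = G * (H + (starRingEnd ℂ) b)) : ‖H‖ ≤ ‖b‖ * ((1 + t) / (1 - t)) := by
  have h1 : H * (1 - G) = b + G * (starRingEnd ℂ) b := by linear_combination hH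
  have ht1 : 0 < 1 - t := by linarith
  have h2 : ‖H‖ * (1 - t) ≤ ‖b‖ * (1 + t) := by
    calc ‖H‖ * (1 - t) ≤ ‖H‖ * ‖1 - G‖ := by
          refine mul_le_mul_of_nonneg_left ?_ (norm_nonneg _)
          have := norm_sub_norm_le (1 : ℂ) G
          rw [norm_one] at this
          linarith
      _ = ‖b + G * (starRingEnd ℂ) b‖ := by rw [← norm_mul, h1]
      _ ≤ ‖b‖ + ‖G * (starRingEnd ℂ) b‖ := norm_add_le _ _
      _ = ‖b‖ * (1 + ‖G‖) := by
          rw [norm_mul, RCLike.norm_conj]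
          ring
      _ ≤ ‖b‖ * (1 + t) := by
          refine mul_le_mul_of_nonneg_left ?_ (norm_nonneg _)
          linarith
  rw [← mul_div_assoc, le_div_iff₀ ht1]
  exact h2

/-- Harnack: `h` analytic with `Re h > 0` on `Re z < -m`. On bounded sets `‖h z‖ ≤ A / (-m - Re z)`.
Proof: Cayley transform of the half plane (centre `z₁ = -m - 1`) and of the right half plane, Schwarz
lemma (`Complex.norm_le_norm_of_mapsTo_ball` ...), or: for `w = (z - z₁)/(z + conj z₁ + 2m)`,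
`‖h z‖ ≤ C (1 + ‖w‖)/(1 - ‖w‖)`, `1 - ‖w‖^2 = 4 (-m - Re z)/‖..‖^2`. -/
theorem harnack {m : ℝ} {h : ℂ → ℂ} (hd : DifferentiableOn ℂ h {z : ℂ | z.re < -m})
    (hp : ∀ z : ℂ, z.re < -m → 0 < (h z).re) (B : ℝ) :
    ∃ A : ℝ, ∀ z : ℂ, z.re < -m → ‖z‖ ≤ B → ‖h z‖ * (-m - z.re) ≤ A := by
  set b : ℂ := h (-(m:ℂ) - 1) with hb
  have hbre : 0 < b.re := hp _ (by simp)
  -- the function on the disc
  set Z : ℂ → ℂ := fun ζ => -(m:ℂ) - (1 + ζ) / (1 - ζ) with hZ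
  have hne : ∀ ζ ∈ ball (0:ℂ) 1, (1 - ζ) ≠ 0 := by
    intro ζ hζ h0
    have h1 : ζ = 1 := by linear_combination -h0
    rw [h1] at hζ
    simp at hζ
  have hZre : ∀ ζ ∈ ball (0:ℂ) 1, (Z ζ).re < -m := by
    intro ζ hζ
    have h1 := har_re ζ (by simpa using hζ)
    simp only [hZ, sub_re, neg_re, ofReal_re]
    linarith
  set G : ℂ → ℂ := fun ζ => (h (Z ζ) - b) / (h (Z ζ) + (starRingEnd ℂ) b) with hG
  have hden : ∀ ζ ∈ ball (0:ℂ) 1, h (Z ζ) + (starRingEnd ℂ) b ≠ 0 := by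
    intro ζ hζ h0
    have h1 := hp _ (hZre ζ hζ)
    have h2 : (h (Z ζ) + (starRingEnd ℂ) b).re = 0 := by rw [h0]; rfl
    rw [add_re, conj_re] at h2
    linarith
  have hZd : DifferentiableOn ℂ Z (ball 0 1) := by
    refine DifferentiableOn.sub (differentiableOn_const _) ?_
    refine DifferentiableOn.div ?_ ?_ hne
    · exact (differentiableOn_const _).add differentiableOn_id
    · exact (differentiableOn_const _).sub differentiableOn_id
  have hhZ : DifferentiableOn ℂ (fun ζ => h (Z ζ)) (ball 0 1) :=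
    hd.comp hZd (fun ζ hζ => hZre ζ hζ)
  have hGd : DifferentiableOn ℂ G (ball 0 1) :=
    DifferentiableOn.div (hhZ.sub (differentiableOn_const _))
      (hhZ.add (differentiableOn_const _)) hden
  have hGm : MapsTo G (ball 0 1) (closedBall 0 1) := by
    intro ζ hζ
    rw [mem_closedBall_zero_iff]
    exact har_quot (hp _ (hZre ζ hζ)) hbre
  have hG0 : G 0 = 0 := by
    simp only [hG, hZ]
    have : -(m:ℂ) - (1 + 0) / (1 - 0) = -(m:ℂ) - 1 := by norm_num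
    rw [this, ← hb, sub_self, zero_div]
  refine ⟨‖b‖ * (B + |m| + 1) ^ 2, ?_⟩
  intro z hz hzB
  set s : ℂ := -(m:ℂ) - z with hs
  have hsre : 0 < s.re := by
    simp only [hs, sub_re, neg_re, ofReal_re]
    linarith
  have hs1 : s + 1 ≠ 0 := by
    intro h0
    have : (s + 1).re = 0 := by rw [h0]; rfl
    simp only [add_re, one_re] at this
    linarith
  set ζ : ℂ := (s - 1) / (s + 1) with hζ
  have hsq : ‖ζ‖ ^ 2 = 1 - 4 * s.re / ‖s + 1‖ ^ 2 := by
    have hpos : (0:ℝ) < ‖s + 1‖ ^ 2 := by positivity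
    rw [hζ, norm_div, div_pow, eq_sub_iff_add_eq, ← add_div, div_eq_one_iff_eq hpos.ne',
      ← normSq_eq_norm_sq, ← normSq_eq_norm_sq, normSq_apply, normSq_apply]
    simp only [sub_re, sub_im, add_re, add_im, one_re, one_im]
    ring
  have hpos : (0:ℝ) < ‖s + 1‖ ^ 2 := by positivity
  have hlt : ‖ζ‖ < 1 := by
    have h1 : 0 < 4 * s.re / ‖s + 1‖ ^ 2 := by positivity
    have h2 : ‖ζ‖ ^ 2 < 1 := by rw [hsq]; linarith
    nlinarith [norm_nonneg ζ]
  have hmem : ζ ∈ ball (0:ℂ) 1 := by simpa using hlt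
  have hZζ : Z ζ = z := by
    have h1 : 1 - ζ = 2 / (s + 1) := by
      rw [hζ]
      field_simp
      ring
    have h2 : 1 + ζ = 2 * s / (s + 1) := by
      rw [hζ]
      field_simp
      ring
    simp only [hZ]
    rw [h1, h2]
    have : 2 * s / (s + 1) / (2 / (s + 1)) = s := by
      field_simp
    rw [this, hs]
    ring
  have hsch := norm_le_norm_of_mapsTo_ball hGd hGm hG0 hlt
  have heq : h z - b = G ζ * (h z + (starRingEnd ℂ) b) := by
    have h1 := hden ζ hmem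
    simp only [hG]
    rw [hZζ] at h1 ⊢
    rw [div_mul_cancel₀ _ h1]
  have hb1 := har_bound hlt hsch heq
  have hfin : (1 + ‖ζ‖) / (1 - ‖ζ‖) * s.re ≤ ‖s + 1‖ ^ 2 := by
    have h1 : 0 < 1 - ‖ζ‖ := by linarith
    rw [div_mul_eq_mul_div, div_le_iff₀ h1]
    have h3 : 4 * s.re = (1 - ‖ζ‖ ^ 2) * ‖s + 1‖ ^ 2 := by
      rw [hsq]
      field_simp
      ring
    have h4 : (1 + ‖ζ‖) * s.re = (1 + ‖ζ‖) * ((1 - ‖ζ‖ ^ 2) * ‖s + 1‖ ^ 2) / 4 := by
      rw [← h3]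
      ring
    rw [h4]
    have h5 : (1 + ‖ζ‖) * ((1 - ‖ζ‖ ^ 2) * ‖s + 1‖ ^ 2) / 4 =
        (‖s + 1‖ ^ 2 * (1 - ‖ζ‖)) * ((1 + ‖ζ‖) ^ 2 / 4) := by ring
    rw [h5]
    have h6 : (1 + ‖ζ‖) ^ 2 / 4 ≤ 1 := by nlinarith [norm_nonneg ζ]
    have h7 : 0 ≤ ‖s + 1‖ ^ 2 * (1 - ‖ζ‖) := mul_nonneg hpos.le h1.le
    exact mul_le_of_le_one_right h7 h6
  have hsB : ‖s + 1‖ ≤ B + |m| + 1 := by
    calc ‖s + 1‖ ≤ ‖s‖ + ‖(1:ℂ)‖ := norm_add_le _ _
      _ ≤ (‖(-(m:ℂ))‖ + ‖z‖) + 1 := by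
          rw [norm_one]
          exact add_le_add (norm_sub_le _ _) le_rfl
      _ ≤ B + |m| + 1 := by
          rw [norm_neg, Complex.norm_real, Real.norm_eq_abs]
          linarith
  have hsr : -m - z.re = s.re := by simp [hs]
  rw [hsr]
  calc ‖h z‖ * s.re ≤ ‖b‖ * ((1 + ‖ζ‖) / (1 - ‖ζ‖)) * s.re :=
        mul_le_mul_of_nonneg_right hb1 hsre.le
    _ = ‖b‖ * ((1 + ‖ζ‖) / (1 - ‖ζ‖) * s.re) := by ring
    _ ≤ ‖b‖ * ‖s + 1‖ ^ 2 := mul_le_mul_of_nonneg_left hfin (norm_nonneg _)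
    _ ≤ ‖b‖ * (B + |m| + 1) ^ 2 := by
        refine mul_le_mul_of_nonneg_left ?_ (norm_nonneg _)
        exact pow_le_pow_left₀ (norm_nonneg _) hsB 2

end EQW
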