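import Pool.Agent.Lib.MP_226de1_co.Sw.Uniq
import Pool.Agent.Lib.MP_226de1_co.Sw.Har

/-! Limit states at a boundary point `z₀`, `Re z₀ = -m`, `Im z₀ > 0` of the sweep. `m = 0` is allowed
if `D` stays in the cone `|Im D| ≤ Re D` along the sequence and `Im z₀ < 1`. -/

set_option autoImplicit false

namespace EQW

open Complex Set Filter Topology Metric
open EQH (CK HL ff)

variable {k μ u m R : ℝ} {G : Set ℂ} {q LX LD DI XI D X : ℂ → ℂ}

private theorem one_add_ne {z : ℂ} (hz : z.re < 0) : 1 + z ^ 2 ≠ 0 :=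
  slitPlane_ne_zero (one_add_sq_slit hz)

private theorem exp_LXq {z : ℂ} (hz : z.re < 0) :
    Real.exp (LXq z).re = Real.sqrt ‖1 + z ^ 2‖ := by
  have h1 : Real.exp (LXq z).re ^ 2 = ‖1 + z ^ 2‖ := by
    rw [← exp_two_LXq hz, norm_exp, ← Real.exp_nat_mul]
    congr 1
    simp
  rw [← h1, Real.sqrt_sq (Real.exp_pos _).le]

private theorem bdd_seq {zs : ℕ → ℂ} {z₀ : ℂ} (hl : Tendsto zs atTop (𝓝 z₀)) :
    ∃ B : ℝ, ∀ j, ‖zs j‖ ≤ B := by
  obtain ⟨B, hB⟩ := hl.norm.bddAbove_range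
  exact ⟨B, fun j => hB ⟨j, rfl⟩⟩

private theorem q_large (hH : HL k μ u q LX LD) (B : ℝ) :
    ∃ a : ℝ, ∀ x : ℂ, ‖q x‖ ≤ B → a ≤ x.re := by
  have h1 := hH.ch.lq
  rw [Metric.tendsto_nhds] at h1
  have h2 := h1 (1 / 2) (by norm_num)
  rw [Filter.eventually_comap, Filter.eventually_atBot] at h2
  obtain ⟨A, hA⟩ := h2
  refine ⟨min A (-Real.log (2 * (|B| + 1))), fun x hx => ?_⟩
  by_contra hc
  push Not at hc
  have h3 := hA x.re (le_of_lt (lt_of_lt_of_le hc (min_le_left _ _))) x rfl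
  rw [dist_eq_norm, sub_neg_eq_add] at h3
  have h4 : 1 / 2 < ‖q x * exp x‖ := by
    have h5 := norm_sub_norm_le (1 : ℂ) (-(q x * exp x))
    rw [norm_one, norm_neg] at h5
    have h6 : (1 : ℂ) - -(q x * exp x) = q x * exp x + 1 := by ring
    rw [h6] at h5
    linarith
  have h7 : Real.exp x.re < (2 * (|B| + 1))⁻¹ := by
    have h8 : 0 < 2 * (|B| + 1) := by positivity
    rw [← Real.exp_log (inv_pos.2 h8), Real.log_inv]
    exact Real.exp_lt_exp.2 (lt_of_lt_of_le hc (min_le_right _ _))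
  rw [norm_mul, norm_exp] at h4
  have h8 : ‖q x‖ * Real.exp x.re ≤ |B| * (2 * (|B| + 1))⁻¹ :=
    mul_le_mul (hx.trans (le_abs_self B)) h7.le (Real.exp_pos _).le (abs_nonneg B)
  have h9 : |B| * (2 * (|B| + 1))⁻¹ ≤ 1 / 2 := by
    have := abs_nonneg B
    rw [← div_eq_mul_inv, div_le_iff₀ (by positivity)]
    linarith
  linarith

private theorem X_mem (hH : HL k μ u q LX LD) (hk : 2 ≤ k) (hB : Bs k μ u R G q LX LD DI XI)
    (h : SW k μ m R G DI D) (hX : XC k μ m R D XI X) {a B : ℝ}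
    (ha : ∀ x : ℂ, ‖q x‖ ≤ B → a ≤ x.re) {w : ℂ} (hw : w ∈ Hq m) (hwB : ‖w‖ ≤ B)
    (hwu : (X w).re < u) : X w ∈ Icc a u ×ℂ Icc 0 (Real.pi / 2) := by
  have hlm : 0 < Real.log μ := Real.log_pos hH.ch.hμ
  have h1 := link hH hk hB h hX hw (by linarith)
  have h2 := hX.imX w hw
  rw [mem_reProdIm]
  exact ⟨⟨ha _ (by rw [h1.1]; exact hwB), hwu.le⟩, ⟨h2.1.le, h2.2.le⟩⟩

/-- the equation of the forward step, in absolute value -/
private theorem key1 (hk : 0 < k) (hμ : 1 < μ) (hG : Tgt G) (h : SW k μ m R G DI D) {z : ℂ}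
    (hz : z ∈ Hp m) : ‖D z‖ ^ k * (CK k μ * ‖1 - fD k μ D (z - D z)‖) =
      Real.sqrt ‖1 + (z - D z) ^ 2‖ ^ k := by
  have hw : (z - D z).re < 0 := h.reneg (h.mem hz)
  have hf : fD k μ D (z - D z) ≠ 1 := by
    intro hc
    have h1 := hG.re _ (h.tgt z hz)
    rw [hc, one_re] at h1
    exact lt_irrefl _ h1
  have hC : 0 < CK k μ := EQH.CK_pos hμ
  have hg : 0 < ‖1 - fD k μ D (z - D z)‖ := norm_pos_iff.2 (sub_ne_zero.2 (Ne.symm hf))
  have hCg : 0 < CK k μ * ‖1 - fD k μ D (z - D z)‖ := mul_pos hC hg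
  have h2 : ‖D z‖ = Real.sqrt ‖1 + (z - D z) ^ 2‖ *
      (CK k μ * ‖1 - fD k μ D (z - D z)‖) ^ (-(1 / k)) := by
    have h3 := congrArg norm (h.step hz)
    rw [norm_exp_LS hk hμ hf, exp_LXq hw] at h3
    exact h3
  have h4 : -(1 / k) * k = -1 := by field_simp
  rw [h2, Real.mul_rpow (Real.sqrt_nonneg _) (Real.rpow_nonneg hCg.le _),
    ← Real.rpow_mul hCg.le, mul_assoc, h4, Real.rpow_neg_one, inv_mul_cancel₀ hCg.ne', mul_one]

private theorem key2 (hμ : 1 < μ) (h : SW k μ m R G DI D) {w : ℂ} (hw : w ∈ Hp m) :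
    ‖fD k μ D w‖ * CK k μ * ‖D w‖ ^ k = Real.sqrt ‖1 + w ^ 2‖ ^ k := by
  have h0 : D w ≠ 0 := by
    intro hc
    have h1 := h.reD w hw
    rw [hc, zero_re] at h1
    exact lt_irrefl _ h1
  have hC := EQH.CK_pos (k := k) hμ
  rw [norm_fD hμ (one_add_ne (h.reneg hw)) h0, div_mul_cancel₀ _ hC.ne',
    Real.div_rpow (Real.sqrt_nonneg _) (norm_nonneg _), div_mul_cancel₀]
  exact (Real.rpow_pos_of_pos (norm_pos_iff.2 h0) k).ne'

private theorem sqrt_bdd {k B : ℝ} (hk : 0 < k) {w : ℂ} (hw : ‖w‖ ≤ B) :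
    Real.sqrt ‖1 + w ^ 2‖ ^ k ≤ Real.sqrt (1 + B ^ 2) ^ k := by
  apply Real.rpow_le_rpow (Real.sqrt_nonneg _) _ hk.le
  apply Real.sqrt_le_sqrt
  calc ‖1 + w ^ 2‖ ≤ ‖(1 : ℂ)‖ + ‖w ^ 2‖ := norm_add_le _ _
    _ = 1 + ‖w‖ ^ 2 := by rw [norm_one, norm_pow]
    _ ≤ 1 + B ^ 2 := by
      have := pow_le_pow_left₀ (norm_nonneg w) hw 2
      linarith

/-- On a bounded part of the region where the chart is available `f` is bounded:
`‖ff x‖ = ‖1 + q^2‖^(k/2) / (‖D‖^k C)`, `q`, `LD` are continuous on `Re x < u + log μ`; `Re X w`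
is bounded below because `q x exp x → -1` at `-infinity` and `q (X w) = w` is bounded; `Im X w ∈ (0, pi/2)`. -/
theorem f_bdd_chart (hH : HL k μ u q LX LD) (hk : 2 ≤ k) (hB : Bs k μ u R G q LX LD DI XI)
    (h : SW k μ m R G DI D) (hX : XC k μ m R D XI X) (B : ℝ) :
    ∃ A : ℝ, ∀ w ∈ Hq m, ‖w‖ ≤ B → (X w).re < u → ‖fD k μ D w‖ ≤ A := by
  obtain ⟨a, ha⟩ := q_large hH B
  have hlm : 0 < Real.log μ := Real.log_pos hH.ch.hμ
  have hC := EQH.CK_pos (k := k) hH.ch.hμ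
  have hK : IsCompact (Icc a u ×ℂ Icc 0 (Real.pi / 2)) := isCompact_Icc.reProdIm isCompact_Icc
  have hc : ContinuousOn LD (Icc a u ×ℂ Icc 0 (Real.pi / 2)) := fun x hx =>
    ((hH.ch.dD' (by
      have := (mem_reProdIm.1 hx).1.2
      linarith)).continuousAt).continuousWithinAt
  obtain ⟨L, hL⟩ := hK.exists_bound_of_continuousOn hc
  refine ⟨Real.sqrt (1 + B ^ 2) ^ k / (CK k μ * Real.exp (-L) ^ k), fun w hw hwB hwu => ?_⟩
  have h1 := link hH hk hB h hX hw (by linarith)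
  have h2 : w ∈ Hp m := Hq_sub m hw
  have hD0 : D w ≠ 0 := by
    intro hc
    have h1 := h.reD w h2
    rw [hc, zero_re] at h1
    exact lt_irrefl _ h1
  have h3 : Real.exp (-L) ≤ ‖D w‖ := by
    have h4 : ‖D w‖ = Real.exp (LD (X w)).re := by
      rw [h1.2, ← norm_exp, exp_log hD0]
    rw [h4]
    apply Real.exp_le_exp.2
    have h5 := hL (X w) (X_mem hH hk hB h hX ha hw hwB hwu)
    have h6 := abs_re_le_norm (LD (X w))
    have h7 := neg_abs_le (LD (X w)).re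
    linarith
  have hk0 : 0 < k := by linarith
  have h4 := key2 hH.ch.hμ h h2
  have h5 := sqrt_bdd hk0 hwB
  have h6 : Real.exp (-L) ^ k ≤ ‖D w‖ ^ k := Real.rpow_le_rpow (Real.exp_pos _).le h3 hk0.le
  have h7 : 0 < Real.exp (-L) ^ k := Real.rpow_pos_of_pos (Real.exp_pos _) k
  rw [le_div_iff₀ (mul_pos hC h7)]
  calc ‖fD k μ D w‖ * (CK k μ * Real.exp (-L) ^ k)
      = (‖fD k μ D w‖ * CK k μ) * Real.exp (-L) ^ k := by ring
    _ ≤ (‖fD k μ D w‖ * CK k μ) * ‖D w‖ ^ k :=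
        mul_le_mul_of_nonneg_left h6 (mul_nonneg (norm_nonneg _) hC.le)
    _ = Real.sqrt ‖1 + w ^ 2‖ ^ k := h4
    _ ≤ _ := h5

/-- If `w_j ∈ Hq m`, `(1 + w_j^2).re < 0`, `w_j → w`, `w.re ≤ -m < 0`, `Re (1 + w^2) < 0` then (a
subsequence of) `X w_j` converges to some `x` with `Re x < u`, `0 < Im x < pi/2`, `q x = w`.
`Re x ≤ u`, `0 ≤ Im x ≤ pi/2`, `q x = w` by continuity; `Im x = 0` or `pi/2` would make `w` real (then
`1 + w^2 > 0`) or imaginary (`Qd.bot`, `Qd.top`, on the line `Re x = u` by continuity); `Re x = u` is excluded by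
`HL.xi`. -/
theorem X_limit (hH : HL k μ u q LX LD) (hk : 2 ≤ k) (hB : Bs k μ u R G q LX LD DI XI)
    (h : SW k μ m R G DI D) (hX : XC k μ m R D XI X) (hm : 0 < m) {ws : ℕ → ℂ} {w : ℂ}
    (hws : ∀ j, ws j ∈ Hq m) (hA : ∀ j, (1 + (ws j) ^ 2).re < 0) (hw : w.re ≤ -m)
    (hwA : (1 + w ^ 2).re < 0) (hl : Tendsto ws atTop (𝓝 w)) :
    ∃ x : ℂ, x.re < u ∧ 0 < x.im ∧ x.im < Real.pi / 2 ∧ q x = w ∧
      ∃ φ : ℕ → ℕ, StrictMono φ ∧ Tendsto (fun j => X (ws (φ j))) atTop (𝓝 x) := by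
  have hlm : 0 < Real.log μ := Real.log_pos hH.ch.hμ
  obtain ⟨B, hwB⟩ := bdd_seq hl
  obtain ⟨a, ha⟩ := q_large hH B
  have hK : IsCompact (Icc a u ×ℂ Icc 0 (Real.pi / 2)) := isCompact_Icc.reProdIm isCompact_Icc
  have hu : ∀ j, (X (ws j)).re < u := fun j => a4q hH hk hB h hX (hws j) (hA j)
  have hmem : ∀ j, X (ws j) ∈ Icc a u ×ℂ Icc 0 (Real.pi / 2) := fun j =>
    X_mem hH hk hB h hX ha (hws j) (hwB j) (hu j)
  obtain ⟨x, hx, φ, hφ, hlim⟩ := hK.tendsto_subseq hmem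
  rw [mem_reProdIm] at hx
  obtain ⟨⟨_, hxu⟩, hx0, hx1⟩ := hx
  have hqx : q x = w := by
    have h1 : Tendsto (fun j => q (X (ws (φ j)))) atTop (𝓝 (q x)) :=
      (hH.ch.qcontU hxu).tendsto.comp hlim
    have h2 : (fun j => q (X (ws (φ j)))) = fun j => ws (φ j) := by
      funext j
      exact (link hH hk hB h hX (hws _) (by linarith [hu (φ j)])).1
    rw [h2] at h1
    exact tendsto_nhds_unique h1 (hl.comp hφ.tendsto_atTop)
  have hw2 : (1 + w ^ 2).re = 1 + w.re ^ 2 - w.im ^ 2 := EQH.re_one_add_sq w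
  have e0 : x.im ≠ 0 := by
    intro hc
    have h1 := hH.ch.lines.2.2.2.2.1 x (by linarith) hc
    rw [hqx] at h1
    rw [hw2, h1] at hwA
    nlinarith [sq_nonneg w.re]
  have e1 : x.im ≠ Real.pi / 2 := by
    intro hc
    have h1 := hH.ch.lines.2.2.2.2.2 x (by linarith) hc
    rw [hqx] at h1
    linarith
  have g0 : 0 < x.im := lt_of_le_of_ne hx0 (Ne.symm e0)
  have g1 : x.im < Real.pi / 2 := lt_of_le_of_ne hx1 e1
  have e2 : x.re ≠ u := by
    intro hc
    have h1 := (hH.xi x.im g0 g1).2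
    have e : (⟨u, x.im⟩ : ℂ) = x := Complex.ext hc.symm rfl
    rw [e, hqx] at h1
    linarith
  exact ⟨x, lt_of_le_of_ne hxu e2, g0, g1, hqx, φ, hφ, hlim⟩

/-- `a ^ k (c (F - 1))` bounded, `F → ∞`: `a → 0` -/
private theorem small {a F : ℕ → ℝ} {c M k : ℝ} (ha : ∀ j, 0 ≤ a j) (hF : Tendsto F atTop atTop)
    (hc : 0 < c) (hk : 0 < k) (hb : ∀ j, a j ^ k * (c * (F j - 1)) ≤ M) :
    Tendsto a atTop (𝓝 0) := by
  have h1 : Tendsto (fun j => c * (F j - 1)) atTop atTop :=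
    (tendsto_atTop_add_const_right _ (-1) hF).const_mul_atTop hc
  have h2 : Tendsto (fun j => M / (c * (F j - 1))) atTop (𝓝 0) := h1.const_div_atTop M
  have h3 : Tendsto (fun j => a j ^ k) atTop (𝓝 0) := by
    refine squeeze_zero' (Eventually.of_forall fun j => Real.rpow_nonneg (ha j) k) ?_ h2
    filter_upwards [h1.eventually_gt_atTop 0] with j hj
    rw [le_div_iff₀ hj]
    exact hb j
  have h4 : Tendsto (fun j => (a j ^ k) ^ k⁻¹) atTop (𝓝 ((0 : ℝ) ^ k⁻¹)) :=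
    (Real.continuousAt_rpow_const 0 k⁻¹ (Or.inr (inv_pos.2 hk).le)).tendsto.comp h3
  rw [Real.zero_rpow (inv_pos.2 hk).ne'] at h4
  refine h4.congr fun j => ?_
  exact Real.rpow_rpow_inv (ha j) hk.ne'

private theorem exists_unbdd {F : ℕ → ℝ} (hF : ∀ j, 0 ≤ F j) (hu : ¬ ∃ A : ℝ, ∀ j, F j ≤ A) :
    ∃ φ : ℕ → ℕ, StrictMono φ ∧ Tendsto (fun j => F (φ j)) atTop atTop := by
  have h1 : ∀ n : ℕ, ∃ᶠ j in atTop, (n : ℝ) < F j := by
    intro n
    by_contra hc
    rw [Filter.not_frequently] at hc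
    obtain ⟨N, hN⟩ := Filter.eventually_atTop.1 hc
    apply hu
    refine ⟨n + ∑ j ∈ Finset.range N, F j, fun j => ?_⟩
    have hs : 0 ≤ ∑ j ∈ Finset.range N, F j := Finset.sum_nonneg fun i _ => hF i
    rcases lt_or_ge j N with hj | hj
    · have h2 := Finset.single_le_sum (f := F) (fun i _ => hF i) (Finset.mem_range.2 hj)
      have : (0 : ℝ) ≤ n := Nat.cast_nonneg n
      linarith
    · have h2 := hN j hj
      push Not at h2
      linarith
  obtain ⟨φ, hφ, hP⟩ := Filter.extraction_forall_of_frequently h1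
  exact ⟨φ, hφ, tendsto_atTop_mono (fun n => (hP n).le) tendsto_natCast_atTop_atTop⟩

/-- no collapse, the contradiction -/
private theorem no_coll (hG : Tgt G) (hH : HL k μ u q LX LD) (hk : 2 < k)
    (hB : Bs k μ u R G q LX LD DI XI) (h : SW k μ m R G DI D) (hX : XC k μ m R D XI X)
    {zs : ℕ → ℂ} {z₀ : ℂ} (hzs : ∀ j, zs j ∈ Hq m) (hz : 1 + z₀ ^ 2 ≠ 0)
    (hl : Tendsto zs atTop (𝓝 z₀))
    (hF : Tendsto (fun j => ‖fD k μ D (zs j - D (zs j))‖) atTop atTop) : False := by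
  have hμ := hH.ch.hμ
  have hk0 : 0 < k := by linarith
  have hC := EQH.CK_pos (k := k) hμ
  have hzp : ∀ j, zs j ∈ Hp m := fun j => Hq_sub m (hzs j)
  have hwq : ∀ j, zs j - D (zs j) ∈ Hq m := fun j => h.im hB (hzs j)
  have hwp : ∀ j, zs j - D (zs j) ∈ Hp m := fun j => Hq_sub m (hwq j)
  obtain ⟨B0, hB0⟩ := bdd_seq hl
  obtain ⟨B, hBT⟩ := bdd_of_T hB h B0
  have hwB : ∀ j, ‖zs j - D (zs j)‖ ≤ B := fun j =>
    hBT _ (hwp j) (by rw [h.eqn _ (hzp j)]; exact hB0 j)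
  -- `D z → 0`
  have hd0 : Tendsto (fun j => ‖D (zs j)‖) atTop (𝓝 0) := by
    refine small (c := CK k μ) (M := Real.sqrt (1 + B ^ 2) ^ k) (k := k)
      (fun j => norm_nonneg _) hF hC hk0 fun j => ?_
    have h1 := key1 hk0 hμ hG h (hzp j)
    have h2 := sqrt_bdd hk0 (hwB j)
    have h3 : ‖fD k μ D (zs j - D (zs j))‖ - 1 ≤ ‖1 - fD k μ D (zs j - D (zs j))‖ := by
      have h4 := norm_sub_norm_le (fD k μ D (zs j - D (zs j))) 1
      rw [norm_one, norm_sub_rev] at h4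
      exact h4
    have h5 : 0 ≤ ‖D (zs j)‖ ^ k := Real.rpow_nonneg (norm_nonneg _) k
    calc ‖D (zs j)‖ ^ k * (CK k μ * (‖fD k μ D (zs j - D (zs j))‖ - 1))
        ≤ ‖D (zs j)‖ ^ k * (CK k μ * ‖1 - fD k μ D (zs j - D (zs j))‖) :=
          mul_le_mul_of_nonneg_left (mul_le_mul_of_nonneg_left h3 hC.le) h5
      _ ≤ _ := by rw [h1]; exact h2
  have hw0 : Tendsto (fun j => zs j - D (zs j)) atTop (𝓝 z₀) := by
    have h1 := hl.sub (tendsto_zero_iff_norm_tendsto_zero.2 hd0)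
    rwa [sub_zero] at h1
  -- `D w → 0`
  have hd1 : Tendsto (fun j => ‖D (zs j - D (zs j))‖) atTop (𝓝 0) := by
    refine small (c := CK k μ) (M := Real.sqrt (1 + B ^ 2) ^ k) (k := k)
      (F := fun j => ‖fD k μ D (zs j - D (zs j))‖ + 1)
      (fun j => norm_nonneg _) (tendsto_atTop_add_const_right _ _ hF) hC hk0 fun j => ?_
    have h1 := key2 hμ h (hwp j)
    have h2 := sqrt_bdd hk0 (hwB j)
    rw [add_sub_cancel_right]
    calc _ = ‖fD k μ D (zs j - D (zs j))‖ * CK k μ * ‖D (zs j - D (zs j))‖ ^ k := by ring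
      _ ≤ _ := by rw [h1]; exact h2
  have hv0 : Tendsto (fun j => zs j - D (zs j) - D (zs j - D (zs j))) atTop (𝓝 z₀) := by
    have h1 := hw0.sub (tendsto_zero_iff_norm_tendsto_zero.2 hd1)
    rwa [sub_zero] at h1
  -- the limit of `sqrt`
  set s0 : ℝ := Real.sqrt ‖1 + z₀ ^ 2‖ ^ k with hs0
  have hs0p : 0 < s0 := Real.rpow_pos_of_pos (Real.sqrt_pos.2 (norm_pos_iff.2 hz)) k
  have hcont : ContinuousAt (fun z : ℂ => Real.sqrt ‖1 + z ^ 2‖ ^ k) z₀ := by
    apply ContinuousAt.rpow_const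
    · fun_prop
    · exact Or.inl (Real.sqrt_pos.2 (norm_pos_iff.2 hz)).ne'
  have hx1 : Tendsto (fun j => Real.sqrt ‖1 + (zs j - D (zs j)) ^ 2‖ ^ k) atTop (𝓝 s0) :=
    hcont.tendsto.comp hw0
  have hx2 : Tendsto (fun j => Real.sqrt ‖1 + (zs j - D (zs j) - D (zs j - D (zs j))) ^ 2‖ ^ k)
      atTop (𝓝 s0) := hcont.tendsto.comp hv0
  -- Harnack
  obtain ⟨A, hA⟩ := harnack (m := m) (h := fun z => 1 - fD k μ D (z - D z))
    ((differentiableOn_const 1).sub h.fsdiff)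
    (fun z hz' => by
      have h1 := hG.re _ (h.tgt z hz')
      rw [sub_re, one_re]
      linarith) B
  -- the chart
  obtain ⟨A1, hA1⟩ := f_bdd_chart hH hk.le hB h hX B
  set c : ℝ := Real.cos (Real.pi / 4 + Real.pi / (2 * k)) with hc
  have hcp : 0 < c := by
    have hk1 : 1 / k < 1 / 2 := one_div_lt_one_div_of_lt (by norm_num) hk
    have hp := Real.pi_pos
    have e1 : Real.pi / (2 * k) = 1 / k * (Real.pi / 2) := by
      field_simp
    have hk2 : 0 < 1 / k := by positivity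
    have h5 : 1 / k * (Real.pi / 2) < 1 / 2 * (Real.pi / 2) :=
      mul_lt_mul_of_pos_right hk1 (by linarith)
    apply Real.cos_pos_of_mem_Ioo
    rw [e1]
    constructor
    · have := mul_pos hk2 (half_pos hp)
      linarith
    · linarith
  -- `F d0` is bounded
  set K1 : ℝ := |A| * (2 * s0) / (s0 / 2 * c) with hK1
  have hK1n : 0 ≤ K1 := by positivity
  set K2 : ℝ := K1 ^ k * CK k μ / (s0 / 2) with hK2
  have hK2n : 0 ≤ K2 := by
    have := Real.rpow_nonneg hK1n k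
    positivity
  have hev : ∀ᶠ _j : ℕ in atTop, False := by
    filter_upwards [hx1.eventually_lt_const (show s0 < 2 * s0 by linarith),
      hx1.eventually_const_lt (show s0 / 2 < s0 by linarith),
      hx2.eventually_const_lt (show s0 / 2 < s0 by linarith),
      hF.eventually_gt_atTop A1, hF.eventually_gt_atTop (K2 + 1 + K2)] with j g1 g2 g3 g4 g5
    set z := zs j with hzj
    set w := z - D z with hwj
    set v := w - D w with hvj
    set F := ‖fD k μ D w‖ with hFj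
    set d0 := ‖D z‖ with hd0j
    set x1 := Real.sqrt ‖1 + w ^ 2‖ ^ k with hx1j
    set x2 := Real.sqrt ‖1 + v ^ 2‖ ^ k with hx2j
    have hzj' : z ∈ Hp m := hzp j
    have hwj' : w ∈ Hp m := hwp j
    have hF1 : 1 ≤ F := by linarith
    have hre : 0 ≤ (1 + w ^ 2).re := by
      by_contra hcon
      push Not at hcon
      have h1 := a4q hH hk.le hB h hX (hwq j) hcon
      have h2 := hA1 w (hwq j) (hwB j) h1
      linarith
    have hfr : 0 ≤ (1 - fD k μ D w).re := by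
      have h1 := hG.re _ (h.tgt z hzj')
      rw [sub_re, one_re]
      linarith
    have hcone : c * d0 ≤ (D z).re := by
      have h1 := re_exp_LS (μ := μ) hk (LXq_im_le hre) hfr
      rw [← h.step hzj'] at h1
      exact h1
    have hharn : ‖1 - fD k μ D v‖ * (c * d0) ≤ |A| := by
      have h1 := hA w hwj' (hwB j)
      have h2 : (D z).re ≤ -m - w.re := by
        have h3 : z.re < -m := hzj'
        rw [hwj, sub_re]
        linarith
      calc ‖1 - fD k μ D v‖ * (c * d0) ≤ ‖1 - fD k μ D v‖ * (-m - w.re) :=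
            mul_le_mul_of_nonneg_left (hcone.trans h2) (norm_nonneg _)
        _ ≤ A := h1
        _ ≤ |A| := le_abs_self A
    have k1 := key1 hk0 hμ hG h hzj'
    have k2 := key2 hμ h hwj'
    have k3 := key1 hk0 hμ hG h hwj'
    rw [← hwj, ← hd0j, ← hx1j] at k1
    rw [← hFj, ← hx1j] at k2
    rw [← hvj, ← hx2j] at k3
    -- `F x2 = x1 g1`
    have e1 : F * x2 = x1 * ‖1 - fD k μ D v‖ := by
      rw [← k3, ← k2]
      ring
    have hd0n : 0 ≤ d0 := norm_nonneg _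
    have e2 : F * d0 ≤ K1 := by
      rw [hK1, le_div_iff₀ (by positivity)]
      have h1 : x1 * (‖1 - fD k μ D v‖ * (c * d0)) ≤ (2 * s0) * |A| :=
        mul_le_mul g1.le hharn (by positivity) (by positivity)
      have h2 : F * d0 * (s0 / 2 * c) ≤ F * d0 * (x2 * c) := by
        apply mul_le_mul_of_nonneg_left _ (by positivity)
        exact mul_le_mul_of_nonneg_right g3.le hcp.le
      calc F * d0 * (s0 / 2 * c) ≤ F * d0 * (x2 * c) := h2
        _ = (F * x2) * (c * d0) := by ring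
        _ = x1 * (‖1 - fD k μ D v‖ * (c * d0)) := by rw [e1]; ring
        _ ≤ |A| * (2 * s0) := by linarith
    have e3 : F ^ k * d0 ^ k ≤ K1 ^ k := by
      rw [← Real.mul_rpow (by linarith) hd0n]
      exact Real.rpow_le_rpow (by positivity) e2 hk0.le
    have e4 : ‖1 - fD k μ D w‖ ≤ 1 + F := by
      have h1 := norm_sub_le (1 : ℂ) (fD k μ D w)
      rw [norm_one] at h1
      exact h1
    have e5 : F ^ k ≤ K2 * (1 + F) := by
      have hFk : 0 ≤ F ^ k := Real.rpow_nonneg (by linarith) k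
      have h1 : F ^ k * x1 ≤ K1 ^ k * (CK k μ * (1 + F)) := by
        rw [← k1]
        calc F ^ k * (d0 ^ k * (CK k μ * ‖1 - fD k μ D w‖))
            = (F ^ k * d0 ^ k) * (CK k μ * ‖1 - fD k μ D w‖) := by ring
          _ ≤ K1 ^ k * (CK k μ * (1 + F)) :=
            mul_le_mul e3 (mul_le_mul_of_nonneg_left e4 hC.le) (by positivity)
              (Real.rpow_nonneg hK1n k)
      have h2 : F ^ k * (s0 / 2) ≤ F ^ k * x1 := mul_le_mul_of_nonneg_left g2.le hFk
      have h3 : K2 * (1 + F) = K1 ^ k * (CK k μ * (1 + F)) / (s0 / 2) := by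
        rw [hK2]
        ring
      rw [h3, le_div_iff₀ (by linarith)]
      linarith
    have e6 : F ^ 2 ≤ F ^ k := by
      rw [← Real.rpow_natCast F 2]
      exact Real.rpow_le_rpow_of_exponent_le hF1 (by norm_num; linarith)
    nlinarith
  exact hev.exists.elim fun _ h => h

/-- NO COLLAPSE. `z_j ∈ Hq m`, `z_j → z₀`, `w_j = z_j - D z_j`: then `f w_j` is bounded.
Otherwise (subsequence) `f w_j → ∞`; `w_j` is bounded (`bdd_of_T`); `D z_j → 0` (`norm_exp_LS`), so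
`w_j → z₀`; `D w_j → 0` (`norm_fD`), so `w_j - D w_j → z₀`. By `f_bdd_chart`, `a4q` eventually
`Re (1 + w_j^2) ≥ 0`, so `Re D z_j ≥ c ‖D z_j‖` (`LXq_im_le`, `re_exp_LS`). `h z = 1 - fD (z - D z)` has
positive real part: `harnack` at `w_j` (`-m - Re w_j ≥ Re D z_j`): `‖1 - f (w_j - D w_j)‖ ≤ A/‖D z_j‖`. And
`‖f w_j‖ = (‖xi(w_j)‖/‖D w_j‖)^k / C`, `‖D w_j‖ = ‖xi(w_j - D w_j)‖ (C ‖1 - f(w_j - D w_j)‖)^(-1/k)`,
`‖D z_j‖ = ‖xi(w_j)‖ (C ‖1 - f w_j‖)^(-1/k)`; `xi → xi(z₀) ≠ 0` everywhere: `‖f w_j‖ ≤ A' ‖1 - f w_j‖^(1/k)`,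
contradiction as `k > 1`. -/
theorem no_collapse (hG : Tgt G) (hH : HL k μ u q LX LD) (hk : 2 < k)
    (hB : Bs k μ u R G q LX LD DI XI) (h : SW k μ m R G DI D) (hX : XC k μ m R D XI X)
    {zs : ℕ → ℂ} {z₀ : ℂ} (hzs : ∀ j, zs j ∈ Hq m) (hz : 1 + z₀ ^ 2 ≠ 0)
    (hl : Tendsto zs atTop (𝓝 z₀)) :
    ∃ A : ℝ, ∀ j, ‖fD k μ D (zs j - D (zs j))‖ ≤ A := by
  by_contra hc
  obtain ⟨φ, hφ, hF⟩ := exists_unbdd (F := fun j => ‖fD k μ D (zs j - D (zs j))‖)
    (fun j => norm_nonneg _) hc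
  exact no_coll hG hH hk hB h hX (zs := fun j => zs (φ j)) (fun j => hzs _) hz
    (hl.comp hφ.tendsto_atTop) hF

/-- THE LIMIT STATE. A subsequence of `w_j = z_j - D z_j` converges to `w ∈ Hq m` with `f w ∈ G`,
`T w = z₀`.
Proof. `w_j`, `f w_j` bounded: pass to the limits `w`, `f`; `Re w ≤ -m`, `Im w ≥ 0`, `Re (1 - f) ≥ 0`.
(1) `m = 0`: the limit `D₀ = z₀ - w` of `D z_j` has `|Im D₀| ≤ Re D₀`. `f ≠ 1`: otherwise
`‖D z_j‖ → ∞` unless `xi(w_j) → 0`, i.e. `w = I` and `D₀ = z₀ - I` is not in the cone (`Im z₀ < 1`).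
(2) `m > 0`: `1 + w^2 ≠ 0` as `Re w < 0`, so `f ≠ 1` as before.
(3) `D₀ = exp (LS (LXq w) f)` if `Re w < 0` (continuity), so `D₀ ≠ 0`. `Re D₀ > 0`: for `m = 0` by the cone
(if `Re w = 0` then `D₀ = 0`, `w = z₀`, and `‖D z_j‖ = ‖xi(w_j)‖ (C‖1 - f w_j‖)^(-1/k)` does not tend to `0`); for
`m > 0`, if `Re (1 + w^2) ≥ 0` by `LXq_im_le`, `re_exp_LS`; if `< 0` by `X_limit`, `step_chart` and
`EQH.HL.reD` at `x + log μ`. (4) So `Re w < -m`, `f = fD w`. `Im w = 0` is impossible (`T_real`). `exit_apply`. -/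
theorem limit_state (hG : Tgt G) (hE : ExitG k G) (hH : HL k μ u q LX LD) (hk : 2 < k)
    (hB : Bs k μ u R G q LX LD DI XI) (h : SW k μ m R G DI D) (hX : XC k μ m R D XI X)
    {zs : ℕ → ℂ} {z₀ : ℂ} (hzs : ∀ j, zs j ∈ Hq m) (hz : z₀.re = -m) (hzi : 0 < z₀.im)
    (hl : Tendsto zs atTop (𝓝 z₀))
    (hc : 0 < m ∨ (z₀.im < 1 ∧ ∀ j, |(D (zs j)).im| ≤ (D (zs j)).re)) :
    ∃ w ∈ Hq m, fD k μ D w ∈ G ∧ TD k μ D w = z₀ ∧ ∃ φ : ℕ → ℕ, StrictMono φ ∧
      Tendsto (fun j => zs (φ j) - D (zs (φ j))) atTop (𝓝 w) := by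
  have hμ := hH.ch.hμ
  have hk0 : 0 < k := by linarith
  have hC := EQH.CK_pos (k := k) hμ
  have hlm : 0 < Real.log μ := Real.log_pos hμ
  have hzp : ∀ j, zs j ∈ Hp m := fun j => Hq_sub m (hzs j)
  have hwq : ∀ j, zs j - D (zs j) ∈ Hq m := fun j => h.im hB (hzs j)
  have hwp : ∀ j, zs j - D (zs j) ∈ Hp m := fun j => Hq_sub m (hwq j)
  have hz2 : 1 + z₀ ^ 2 ≠ 0 := by
    rcases hc with hm | ⟨hv, _⟩
    · exact one_add_ne (by rw [hz]; linarith)
    · intro h0
      have h1 := congrArg Complex.re h0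
      have h2 := congrArg Complex.im h0
      rw [EQH.re_one_add_sq, zero_re] at h1
      rw [EQH.im_one_add_sq, zero_im] at h2
      have h3 : z₀.re = 0 := by
        rcases mul_eq_zero.1 h2 with h3 | h3
        · linarith
        · linarith
      rw [h3] at h1
      nlinarith
  obtain ⟨A, hA⟩ := no_collapse hG hH hk hB h hX hzs hz2 hl
  obtain ⟨B0, hB0⟩ := bdd_seq hl
  obtain ⟨B, hBT⟩ := bdd_of_T hB h B0
  have hwB : ∀ j, ‖zs j - D (zs j)‖ ≤ B := fun j =>
    hBT _ (hwp j) (by rw [h.eqn _ (hzp j)]; exact hB0 j)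
  -- subsequence
  have hK : IsCompact (closedBall (0 : ℂ) B ×ˢ closedBall (0 : ℂ) A) :=
    (isCompact_closedBall 0 B).prod (isCompact_closedBall 0 A)
  obtain ⟨⟨w, f₀⟩, _, φ, hφ, hlim⟩ := hK.tendsto_subseq
    (x := fun j => (zs j - D (zs j), fD k μ D (zs j - D (zs j)))) (fun j => by
      refine ⟨?_, ?_⟩
      · simpa using hwB j
      · simpa using hA j)
  have hwl : Tendsto (fun j => zs (φ j) - D (zs (φ j))) atTop (𝓝 w) :=
    (continuous_fst.tendsto _).comp hlim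
  have hfl : Tendsto (fun j => fD k μ D (zs (φ j) - D (zs (φ j)))) atTop (𝓝 f₀) :=
    (continuous_snd.tendsto _).comp hlim
  have hzl : Tendsto (fun j => zs (φ j)) atTop (𝓝 z₀) := hl.comp hφ.tendsto_atTop
  have hDl : Tendsto (fun j => D (zs (φ j))) atTop (𝓝 (z₀ - w)) := by
    have h1 := hzl.sub hwl
    refine h1.congr fun j => ?_
    ring
  -- closed conditions
  have hwre : w.re ≤ -m := by
    refine le_of_tendsto ((continuous_re.tendsto _).comp hwl) (Eventually.of_forall fun j => ?_)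
    exact le_of_lt (hwp (φ j))
  have hwim : 0 ≤ w.im := by
    refine ge_of_tendsto ((continuous_im.tendsto _).comp hwl) (Eventually.of_forall fun j => ?_)
    exact (hwq (φ j)).2.le
  have hf0cl : f₀ ∈ closure G :=
    mem_closure_of_tendsto hfl (Eventually.of_forall fun j => h.tgt _ (hzp (φ j)))
  have hf0re : 0 ≤ (1 - f₀).re := by
    have h1 : Tendsto (fun j => (1 - fD k μ D (zs (φ j) - D (zs (φ j)))).re) atTop
        (𝓝 (1 - f₀).re) := (continuous_re.tendsto _).comp (tendsto_const_nhds.sub hfl)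
    refine ge_of_tendsto h1 (Eventually.of_forall fun j => ?_)
    have h2 := hG.re _ (h.tgt _ (hzp (φ j)))
    rw [sub_re, one_re]
    linarith
  -- the equation of the moduli in the limit
  have hmod : ‖z₀ - w‖ ^ k * (CK k μ * ‖1 - f₀‖) = Real.sqrt ‖1 + w ^ 2‖ ^ k := by
    have h1 : Tendsto (fun j => ‖D (zs (φ j))‖ ^ k *
        (CK k μ * ‖1 - fD k μ D (zs (φ j) - D (zs (φ j)))‖)) atTop
        (𝓝 (‖z₀ - w‖ ^ k * (CK k μ * ‖1 - f₀‖))) := by
      refine Tendsto.mul ?_ ((tendsto_const_nhds.sub hfl).norm.const_mul _)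
      exact (Real.continuousAt_rpow_const _ k (Or.inr hk0.le)).tendsto.comp hDl.norm
    have h2 : Tendsto (fun j => Real.sqrt ‖1 + (zs (φ j) - D (zs (φ j))) ^ 2‖ ^ k) atTop
        (𝓝 (Real.sqrt ‖1 + w ^ 2‖ ^ k)) := by
      have h3 : Continuous fun z : ℂ => Real.sqrt ‖1 + z ^ 2‖ := by fun_prop
      exact (Real.continuousAt_rpow_const _ k (Or.inr hk0.le)).tendsto.comp
        ((h3.tendsto _).comp hwl)
    refine tendsto_nhds_unique (h1.congr fun j => ?_) h2
    exact key1 hk0 hμ hG h (hzp (φ j))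
  have hcone : m = 0 → |(z₀ - w).im| ≤ (z₀ - w).re := by
    intro hm0
    rcases hc with hm | ⟨_, hcn⟩
    · exact absurd hm0 hm.ne'
    · refine le_of_tendsto_of_tendsto ((continuous_abs.tendsto _).comp
        ((continuous_im.tendsto _).comp hDl)) ((continuous_re.tendsto _).comp hDl)
        (Eventually.of_forall fun j => hcn (φ j))
  have hw2 : 1 + w ^ 2 ≠ 0 := by
    rcases hc with hm | ⟨hv, _⟩
    · exact one_add_ne (by linarith)
    · intro h0
      have hm0 : m = 0 := by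
        rcases h.hm.lt_or_eq with hm | hm
        · exact absurd h0 (one_add_ne (by linarith))
        · exact hm.symm
      have h1 := congrArg Complex.re h0
      have h2 := congrArg Complex.im h0
      rw [EQH.re_one_add_sq, zero_re] at h1
      rw [EQH.im_one_add_sq, zero_im] at h2
      have h3 : w.re = 0 := by
        rcases mul_eq_zero.1 h2 with h3 | h3
        · linarith
        · rw [h3] at h1
          nlinarith [sq_nonneg w.re]
      rw [h3] at h1
      have h4 : w.im = 1 := by nlinarith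
      have h5 := hcone hm0
      rw [sub_re, sub_im, hz, h3, h4, hm0] at h5
      have h6 : z₀.im - 1 < 0 := by linarith
      rw [abs_of_neg h6] at h5
      linarith
  have hrhs : 0 < Real.sqrt ‖1 + w ^ 2‖ ^ k :=
    Real.rpow_pos_of_pos (Real.sqrt_pos.2 (norm_pos_iff.2 hw2)) k
  have hf1 : f₀ ≠ 1 := by
    intro h0
    rw [h0, sub_self, norm_zero, mul_zero, mul_zero] at hmod
    exact absurd hmod hrhs.ne
  have hD0 : z₀ - w ≠ 0 := by
    intro h0
    rw [h0, norm_zero, Real.zero_rpow hk0.ne', zero_mul] at hmod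
    exact absurd hmod hrhs.ne
  have hslit : 1 - f₀ ∈ slitPlane := slit_of_re hf0re (sub_ne_zero.2 (Ne.symm hf1))
  -- the step in the limit
  have hLSl : w.re < 0 → Tendsto (fun j => LS k μ (LXq (zs (φ j) - D (zs (φ j))))
      (fD k μ D (zs (φ j) - D (zs (φ j))))) atTop (𝓝 (LS k μ (LXq w) f₀)) := by
    intro hw0
    exact (LS_cont (k := k) (μ := μ) hslit).tendsto.comp
      (((LXq_diff hw0).continuousAt.tendsto.comp hwl).prodMk_nhds hfl)
  have hstep : w.re < 0 → z₀ - w = exp (LS k μ (LXq w) f₀) := by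
    intro hw0
    have h1 := (continuous_exp.tendsto _).comp (hLSl hw0)
    refine tendsto_nhds_unique (hDl.congr fun j => ?_) h1
    exact h.step (hzp (φ j))
  have hreD : 0 < (z₀ - w).re := by
    rcases h.hm.lt_or_eq with hm | hm
    · have hw0 : w.re < 0 := by linarith
      rcases le_or_gt 0 ((1 + w ^ 2).re) with hre | hre
      · rw [hstep hw0]
        refine lt_of_lt_of_le ?_ (re_exp_LS hk (LXq_im_le hre) hf0re)
        apply mul_pos _ (by rw [Complex.norm_exp]; exact Real.exp_pos _)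
        have hk1 : 1 / k < 1 / 2 := one_div_lt_one_div_of_lt (by norm_num) hk
        have hp := Real.pi_pos
        have e1 : Real.pi / (2 * k) = 1 / k * (Real.pi / 2) := by
          field_simp
        have hk2 : 0 < 1 / k := by positivity
        have h5 : 1 / k * (Real.pi / 2) < 1 / 2 * (Real.pi / 2) :=
          mul_lt_mul_of_pos_right hk1 (by linarith)
        apply Real.cos_pos_of_mem_Ioo
        rw [e1]
        constructor
        · have := mul_pos hk2 (half_pos hp)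
          linarith
        · linarith
      · -- pass to a tail
        have hev : ∀ᶠ j in atTop, (1 + (zs (φ j) - D (zs (φ j))) ^ 2).re < 0 := by
          have h3 : Continuous fun z : ℂ => (1 + z ^ 2).re := by fun_prop
          exact ((h3.tendsto w).comp hwl).eventually_lt_const hre
        obtain ⟨N, hN⟩ := Filter.eventually_atTop.1 hev
        have hl' : Tendsto (fun j => zs (φ (j + N)) - D (zs (φ (j + N)))) atTop (𝓝 w) :=
          hwl.comp (tendsto_add_atTop_nat N)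
        obtain ⟨x, hxu, hx0, hx1, _, ψ, hψ, hXl⟩ := X_limit hH hk.le hB h hX hm
          (ws := fun j => zs (φ (j + N)) - D (zs (φ (j + N))))
          (fun j => hwq _) (fun j => hN _ (Nat.le_add_left N j)) hwre hre hl'
        have hx' : (x + (Real.log μ : ℂ)).re < u + Real.log μ := by
          rw [add_re, ofReal_re]
          linarith
        have h6 : Tendsto (fun j => LD (X (zs (φ (ψ j + N)) - D (zs (φ (ψ j + N)))) +
            (Real.log μ : ℂ))) atTop (𝓝 (LD (x + (Real.log μ : ℂ)))) :=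
          (hH.ch.dD' hx').continuousAt.tendsto.comp (hXl.add_const _)
        have h7 : Tendsto (fun j => D (zs (φ (ψ j + N)))) atTop (𝓝 (z₀ - w)) :=
          hDl.comp ((tendsto_add_atTop_nat N).comp hψ.tendsto_atTop)
        have h8 : z₀ - w = exp (LD (x + (Real.log μ : ℂ))) := by
          refine tendsto_nhds_unique (h7.congr fun j => ?_) ((continuous_exp.tendsto _).comp h6)
          have h9 := a4q hH hk.le hB h hX (hwq (φ (ψ j + N))) (hN _ (Nat.le_add_left N _))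
          show D (zs (φ (ψ j + N))) = exp (LD (X (zs (φ (ψ j + N)) - D (zs (φ (ψ j + N)))) +
            (Real.log μ : ℂ)))
          rw [step_chart hH hk.le hB h hX (hwq (φ (ψ j + N))) h9]
          exact h.step (hzp _)
        rw [h8]
        apply hH.reD hk.le hx'
        · simpa using hx0
        · simpa using hx1
    · have h1 := hcone hm.symm
      have h2 : 0 ≤ (z₀ - w).re := (abs_nonneg _).trans h1
      rcases h2.lt_or_eq with h3 | h3
      · exact h3
      · exfalso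
        rw [← h3] at h1
        have h4 : (z₀ - w).im = 0 := abs_eq_zero.1 (le_antisymm h1 (abs_nonneg _))
        exact hD0 (Complex.ext h3.symm h4)
  have hwm : w ∈ Hp m := by
    show w.re < -m
    rw [sub_re, hz] at hreD
    linarith
  have hw0 : w.re < 0 := h.reneg hwm
  have hfw : fD k μ D w = f₀ :=
    tendsto_nhds_unique ((h.fdiff hwm).continuousAt.tendsto.comp hwl) hfl
  have hT : TD k μ D w = z₀ := by
    unfold TD
    rw [hfw, ← hstep hw0]
    ring
  have hwim' : 0 < w.im := by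
    rcases hwim.lt_or_eq with h1 | h1
    · exact h1
    · exfalso
      have h2 := T_real hG hB h hwm h1.symm (by rw [hfw]; exact hf0re) (by rw [hfw]; exact hf1)
      rw [hT] at h2
      linarith
  have hwQ : w ∈ Hq m := ⟨hwm, hwim'⟩
  exact ⟨w, hwQ, exit_apply hG hE hH hk hB h hX hwQ hz.le hzi (by rw [hfw]; exact hf0cl)
    (by rw [hfw]; exact hf1) hT, hT, φ, hφ, hwl⟩

end EQW
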