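import Pool.Agent.Lib.MP_226de1_co.Sw.Orbit
import Pool.Agent.Lib.MP_226de1_co.H.ReD

/-! Link with the chart of Theorem H, (A4), `Re f < 1/2` where `|arg xi| > pi/4`, and `Re D > 0`
for the forward step. -/

set_option autoImplicit false

namespace EQW

open Complex Set Filter Topology Metric
open EQH (CK HL ff)

variable {k μ u m R : ℝ} {G : Set ℂ} {q LX LD DI XI D X : ℂ → ℂ}

private theorem mem_Ar' (h : SW k μ m R G DI D) {z : ℂ} (hz : z ∈ Hp m) (hn : R < ‖z‖) :
    z ∈ Ar R := ⟨h.reneg hz, hn⟩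

private theorem LX_princ (hH : HL k μ u q LX LD) {x : ℂ} (hx : x.re < u) (h0 : 0 < x.im)
    (h1 : x.im < Real.pi / 2) : LXq (q x) = LX x := by
  have h2 := hH.qd.imX x hx h0 h1
  unfold LXq
  rw [← hH.ch.expX x hx, log_exp]
  · rw [mul_div_cancel_left₀ _ two_ne_zero]
  · simp only [mul_im, re_ofNat, im_ofNat, zero_mul, add_zero]
    linarith [h2.1, Real.pi_pos]
  · simp only [mul_im, re_ofNat, im_ofNat, zero_mul, add_zero]
    linarith [h2.2, Real.pi_pos]

private theorem LS_im (X f : ℂ) : (LS k μ X f).im = X.im - 1 / k * arg (1 - f) := by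
  unfold LS
  rw [sub_im, im_ofReal_mul, add_im, ofReal_im, log_im, zero_add]

/-- `|Im LD (x + l)| < pi` -/
private theorem LD_im (hH : HL k μ u q LX LD) (hk : 2 ≤ k) {x : ℂ} (hx : x.re < u)
    (h0 : 0 < x.im) (h1 : x.im < Real.pi / 2) :
    -Real.pi < (LD (x + Real.log μ)).im ∧ (LD (x + Real.log μ)).im ≤ Real.pi := by
  have h2 := hH.qd.imX x hx h0 h1
  have h3 := hH.lp.fl x hx
  have h4 : |arg (1 - EQH.ff k μ LX LD x)| ≤ Real.pi / 2 := by
    rw [Complex.abs_arg_le_pi_div_two_iff]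
    rw [sub_re, one_re]
    linarith
  rw [hH.ch.LD1_eq hH.lp hx]
  have e : (LX x - ((1 / k : ℝ) : ℂ) * ((Real.log (CK k μ) : ℂ) +
      log (1 - EQH.ff k μ LX LD x))).im = (LX x).im - 1 / k * arg (1 - EQH.ff k μ LX LD x) := by
    rw [sub_im, im_ofReal_mul, add_im, ofReal_im, log_im, zero_add]
  rw [e]
  have hk0 : 0 < 1 / k := by positivity
  have hk1 : 1 / k ≤ 1 / 2 := by
    apply one_div_le_one_div_of_le (by norm_num) hk
  have h5 := abs_le.mp h4
  have hp := Real.pi_pos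
  have h6 : |1 / k * arg (1 - EQH.ff k μ LX LD x)| ≤ 1 / 2 * (Real.pi / 2) := by
    rw [abs_mul, abs_of_pos hk0]
    exact mul_le_mul hk1 h4 (abs_nonneg _) (by norm_num)
  have h7 := abs_le.mp h6
  constructor
  · linarith [h2.1, h7.2]
  · linarith [h2.2, h7.1]

/-- `q (X z) = z` and the two logs of `D` agree, as long as `Re (X z) < u + log μ`. Induction on the
first `n` with `R < ‖orb z n‖` (`SW.orb_far`); start: `Bs.qX`, `Bs.LDX`. Step: `w = z - D z`,
`X w = X z - log μ`, `Re (X w) < u`, so `q (X w) = w`; `exp (2 LX) = 1 + w^2 = exp (2 LXq w)` and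
`Im LX (X w) ∈ (-pi/2, 0)` (`Qd.imX`), `LXq_im_abs` give `LX (X w) = LXq w`; so
`ff (X w) = fD w`; `Ch.LD1_eq` gives `LD (X z) = LS (LXq w) (fD w)`, `exp` of it is `D z` by
`SW.step`, and its imaginary part is in `(-pi, pi)` (`Re (1 - ff) > 1/2`), so it is `log (D z)`;
`q (X z) = q (X w) + exp (LD (X z)) = w + D z = z` by `Ch.expD`. -/
theorem link (hH : HL k μ u q LX LD) (hk : 2 ≤ k) (hB : Bs k μ u R G q LX LD DI XI)
    (h : SW k μ m R G DI D) (hX : XC k μ m R D XI X) {z : ℂ} (hz : z ∈ Hq m)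
    (hu : (X z).re < u + Real.log μ) : q (X z) = z ∧ LD (X z) = log (D z) := by
  have hlm : 0 < Real.log μ := Real.log_pos hH.ch.hμ
  obtain ⟨n, hn⟩ := h.orb_far (Hq_sub m hz)
  induction n generalizing z with
  | zero =>
    have hn' : R < ‖z‖ := hn
    have hA := mem_Ar' h (Hq_sub m hz) hn'
    rw [hX.ag z (Hq_sub m hz) hn', h.ag z (Hq_sub m hz) hn']
    exact ⟨hB.qX z hA, hB.LDX z hA⟩
  | succ n ih =>
    rw [orb_succ'] at hn
    set w := z - D z with hw
    have hwm : w ∈ Hq m := h.im hB hz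
    have hXw : X w = X z - Real.log μ := hX.stepX z (Hq_sub m hz)
    have hXwre : (X w).re < u := by
      rw [hXw, sub_re, ofReal_re]; linarith
    have hih := ih (z := w) hwm (by linarith) hn
    have hXwi := hX.imX w hwm
    have h1 : LXq w = LX (X w) := by
      have := LX_princ hH hXwre hXwi.1 hXwi.2
      rwa [hih.1] at this
    have h2 : fD k μ D w = EQH.ff k μ LX LD (X w) := by
      unfold fD EQH.ff
      rw [h1, ← hih.2]
    have h3 : D z = exp (LD (X z)) := by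
      have h4 := h.eqn z (Hq_sub m hz)
      unfold TD LS at h4
      rw [← hw, h1, h2, ← hH.ch.LD1_eq hH.lp hXwre] at h4
      have h5 : X w + (Real.log μ : ℂ) = X z := by rw [hXw]; ring
      rw [h5] at h4
      have h6 : D z = z - w := by rw [hw]; ring
      rw [h6]
      nth_rewrite 1 [← h4]
      ring
    have h5 : X z = X w + (Real.log μ : ℂ) := by rw [hXw]; ring
    constructor
    · have h6 := hH.ch.expD (X z) hu
      rw [← h3, ← hXw, hih.1] at h6
      have h7 : q (X z) = w + D z := by rw [h6]; ring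
      rw [h7, hw]; ring
    · rw [h3]
      have := LD_im hH hk hXwre hXwi.1 hXwi.2
      rw [← h5] at this
      rw [log_exp this.1 this.2]

theorem link_LX (hH : HL k μ u q LX LD) (hk : 2 ≤ k) (hB : Bs k μ u R G q LX LD DI XI)
    (h : SW k μ m R G DI D) (hX : XC k μ m R D XI X) {z : ℂ} (hz : z ∈ Hq m)
    (hu : (X z).re < u) : LX (X z) = LXq z ∧ ff k μ LX LD (X z) = fD k μ D z := by
  have hlm : 0 < Real.log μ := Real.log_pos hH.ch.hμ
  have h0 := link hH hk hB h hX hz (by linarith)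
  have hi := hX.imX z hz
  have h1 : LXq z = LX (X z) := by
    have := LX_princ hH hu hi.1 hi.2
    rwa [h0.1] at this
  refine ⟨h1.symm, ?_⟩
  unfold fD EQH.ff
  rw [h1, ← h0.2]

/-- the set `|arg xi| > pi/4` in the second quadrant -/
private theorem Wset_convex (m : ℝ) : Convex ℝ {z : ℂ | z ∈ Hq m ∧ (1 + z ^ 2).re < 0} := by
  have e : {z : ℂ | z ∈ Hq m ∧ (1 + z ^ 2).re < 0} =
      Hq m ∩ {z : ℂ | 0 < z.im ∧ 1 + z.re ^ 2 < z.im ^ 2} := by
    ext z
    simp only [mem_setOf_eq, mem_inter_iff, add_re, one_re, sq, mul_re]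
    constructor
    · rintro ⟨h1, h2⟩
      exact ⟨h1, h1.2, by linarith⟩
    · rintro ⟨h1, _, h3⟩
      exact ⟨h1, by linarith⟩
  rw [e]
  refine (convex_Hq m).inter ?_
  rintro x ⟨hx1, hx2⟩ y ⟨hy1, hy2⟩ a b ha hb hab
  simp only [mem_setOf_eq, add_im, add_re, smul_im, smul_re, smul_eq_mul]
  have hpos : 0 < a * x.im + b * y.im := by
    rcases ha.lt_or_eq with h | h
    · have := mul_pos h hx1
      have := mul_nonneg hb hy1.le
      linarith
    · have hb1 : b = 1 := by linarith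
      rw [← h, hb1]
      linarith
  refine ⟨hpos, ?_⟩
  -- `x.im * y.im > 1 + x.re * y.re`
  have hxy : 1 + x.re * y.re < x.im * y.im := by
    by_contra hcon
    rw [not_lt] at hcon
    have h1 : 0 < x.im * y.im := mul_pos hx1 hy1
    have h2 : (x.im * y.im) ^ 2 ≤ (1 + x.re * y.re) ^ 2 := by
      apply pow_le_pow_left₀ h1.le hcon
    have h3 : (1 + x.re ^ 2) * (1 + y.re ^ 2) < x.im ^ 2 * y.im ^ 2 :=
      mul_lt_mul'' hx2 hy2 (by positivity) (by positivity)
    nlinarith [sq_nonneg (x.re - y.re)]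
  have hb1 : b = 1 - a := by linarith
  have h4 : 0 ≤ a * b * (x.im * y.im - (1 + x.re * y.re)) :=
    mul_nonneg (mul_nonneg ha hb) (by linarith)
  have h5 : 0 ≤ a ^ 2 * (x.im ^ 2 - (1 + x.re ^ 2)) := mul_nonneg (sq_nonneg _) (by linarith)
  have h6 : 0 ≤ b ^ 2 * (y.im ^ 2 - (1 + y.re ^ 2)) := mul_nonneg (sq_nonneg _) (by linarith)
  have h7 : 0 < a ^ 2 * (x.im ^ 2 - (1 + x.re ^ 2)) + b ^ 2 * (y.im ^ 2 - (1 + y.re ^ 2)) := by
    rcases ha.lt_or_eq with h | h
    · have : 0 < a ^ 2 * (x.im ^ 2 - (1 + x.re ^ 2)) := mul_pos (by positivity) (by linarith)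
      linarith
    · have hb1 : b = 1 := by linarith
      have : 0 < b ^ 2 * (y.im ^ 2 - (1 + y.re ^ 2)) := by
        rw [hb1]; linarith
      linarith
  have e2 : (a * x.im + b * y.im) ^ 2 - (1 + (a * x.re + b * y.re) ^ 2) =
      a ^ 2 * (x.im ^ 2 - (1 + x.re ^ 2)) + b ^ 2 * (y.im ^ 2 - (1 + y.re ^ 2)) +
      2 * (a * b * (x.im * y.im - (1 + x.re * y.re))) + ((a + b) ^ 2 - 1) := by ring
  rw [hab] at e2
  linarith

private theorem Wset_open (m : ℝ) : IsOpen {z : ℂ | z ∈ Hq m ∧ (1 + z ^ 2).re < 0} := by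
  have : {z : ℂ | z ∈ Hq m ∧ (1 + z ^ 2).re < 0} = Hq m ∩ {z : ℂ | (1 + z ^ 2).re < 0} := rfl
  rw [this]
  exact (isOpen_Hq m).inter (isOpen_lt (by fun_prop) continuous_const)

/-- (A4): `EQH.HL.a4` on the convex open set `{z ∈ Hq m, Re (1 + z ^ 2) < 0}`
(`|Im z| > sqrt (1 + (Re z) ^ 2)`), `s = id`; base point far away on it. -/
theorem a4q (hH : HL k μ u q LX LD) (hk : 2 ≤ k) (hB : Bs k μ u R G q LX LD DI XI)
    (h : SW k μ m R G DI D) (hX : XC k μ m R D XI X) {z : ℂ} (hz : z ∈ Hq m)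
    (hA : (1 + z ^ 2).re < 0) : (X z).re < u := by
  have hlm : 0 < Real.log μ := Real.log_pos hH.ch.hμ
  set W : Set ℂ := {z : ℂ | z ∈ Hq m ∧ (1 + z ^ 2).re < 0} with hW
  -- a far point of `W`
  have hm := h.hm
  let z1 : ℂ := ⟨-m - 1, |R| + m + 3⟩
  have hz1q : z1 ∈ Hq m := by
    constructor
    · show -m - 1 < -m
      linarith
    · show 0 < |R| + m + 3
      positivity
  have hz1n : R < ‖z1‖ := by
    have h1 := Complex.abs_im_le_norm z1
    have h2 : |z1.im| = |R| + m + 3 := abs_of_pos (by positivity)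
    have h3 := le_abs_self R
    linarith
  have hz1W : z1 ∈ W := by
    refine ⟨hz1q, ?_⟩
    have e : (1 + z1 ^ 2).re = 1 + (-m - 1) ^ 2 - (|R| + m + 3) ^ 2 := by
      simp only [add_re, one_re, sq, mul_re]
      show 1 + ((-m - 1) * (-m - 1) - (|R| + m + 3) * (|R| + m + 3)) = _
      ring
    rw [e]
    have := abs_nonneg R
    nlinarith
  have hXW : DifferentiableOn ℂ X W := hX.dX.mono (fun y hy => Hq_sub m hy.1)
  refine (hH.a4 (W := W) (X := X) (s := fun y => y) (Wset_open m)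
    (Wset_convex m).isPreconnected hXW differentiableOn_id
    (fun y hy => hX.imX y hy.1) (fun y hy => hy.2.le) hz1W ?_ ?_ z ⟨hz, hA⟩).1
  · rw [hX.ag z1 (Hq_sub m hz1q) hz1n]
    exact hB.reX z1 (mem_Ar' h (Hq_sub m hz1q) hz1n)
  · have e1 : ∀ᶠ y in 𝓝 z1, y ∈ Hp m := (isOpen_Hp m).mem_nhds (Hq_sub m hz1q)
    have e2 : ∀ᶠ y : ℂ in 𝓝 z1, R < ‖y‖ :=
      continuousAt_const.eventually_lt continuous_norm.continuousAt hz1n
    filter_upwards [e1, e2] with y h1 h2
    rw [hX.ag y h1 h2]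
    exact hB.qX y (mem_Ar' h h1 h2)

/-- `Lp.fl` -/
theorem half (hH : HL k μ u q LX LD) (hk : 2 ≤ k) (hB : Bs k μ u R G q LX LD DI XI)
    (h : SW k μ m R G DI D) (hX : XC k μ m R D XI X) {z : ℂ} (hz : z ∈ Hq m)
    (hA : (1 + z ^ 2).re < 0) : (fD k μ D z).re < 1 / 2 := by
  have h1 := a4q hH hk hB h hX hz hA
  rw [← (link_LX hH hk hB h hX hz h1).2]
  exact hH.lp.fl _ h1

/-- the forward step from `w` in the chart, where `|arg xi| > pi/4`:
`exp (LS ..) = exp (LD (X w + log μ))` -/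
theorem step_chart (hH : HL k μ u q LX LD) (hk : 2 ≤ k) (hB : Bs k μ u R G q LX LD DI XI)
    (h : SW k μ m R G DI D) (hX : XC k μ m R D XI X) {w : ℂ} (hw : w ∈ Hq m)
    (hu : (X w).re < u) :
    LD (X w + Real.log μ) = LS k μ (LXq w) (fD k μ D w) := by
  have h2 := link_LX hH hk hB h hX hw hu
  rw [hH.ch.LD1_eq hH.lp hu, h2.1, h2.2]
  rfl

/-- pointwise: `|arg xi| ≤ pi/4`, `|arg p| ≤ pi/2`, `k > 2`: `Re D > 0`, with a cone bound -/
theorem re_exp_LS (hk : 2 < k) {X f : ℂ} (hX : |X.im| ≤ Real.pi / 4) (hf : 0 ≤ (1 - f).re) :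
    Real.cos (Real.pi / 4 + Real.pi / (2 * k)) * ‖exp (LS k μ X f)‖ ≤ (exp (LS k μ X f)).re := by
  have hk0 : 0 < 1 / k := by positivity
  have hk1 : 1 / k < 1 / 2 := one_div_lt_one_div_of_lt (by norm_num) hk
  have hp := Real.pi_pos
  have h2 : |arg (1 - f)| ≤ Real.pi / 2 := by
    rw [Complex.abs_arg_le_pi_div_two_iff]; exact hf
  have h3 : |1 / k * arg (1 - f)| ≤ 1 / k * (Real.pi / 2) := by
    rw [abs_mul, abs_of_pos hk0]
    exact mul_le_mul_of_nonneg_left h2 hk0.le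
  have e1 : Real.pi / (2 * k) = 1 / k * (Real.pi / 2) := by
    field_simp
  have h4 : |(LS k μ X f).im| ≤ Real.pi / 4 + Real.pi / (2 * k) := by
    rw [LS_im, e1]
    calc |X.im - 1 / k * arg (1 - f)| ≤ |X.im| + |1 / k * arg (1 - f)| := abs_sub _ _
      _ ≤ _ := by linarith
  have h5 : 1 / k * (Real.pi / 2) < 1 / 2 * (Real.pi / 2) :=
    mul_lt_mul_of_pos_right hk1 (by linarith)
  have h6 : Real.cos (Real.pi / 4 + Real.pi / (2 * k)) ≤ Real.cos (LS k μ X f).im := by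
    rw [← Real.cos_abs (LS k μ X f).im]
    apply Real.cos_le_cos_of_nonneg_of_le_pi (abs_nonneg _) _ h4
    rw [e1]; linarith
  rw [Complex.norm_exp, Complex.exp_re, mul_comm]
  exact mul_le_mul_of_nonneg_left h6 (Real.exp_pos _).le

/-- The forward step has positive real part. If `Re (1 + w^2) ≥ 0`: `LXq_im_le`, `re_exp_LS`.
Otherwise `a4q`, `step_chart` and `EQH.HL.reD` at `X w + log μ`. -/
theorem reT (hH : HL k μ u q LX LD) (hk : 2 < k) (hB : Bs k μ u R G q LX LD DI XI)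
    (h : SW k μ m R G DI D) (hX : XC k μ m R D XI X) {w : ℂ} (hw : w ∈ Hq m)
    (hp : 0 ≤ (1 - fD k μ D w).re) (hp0 : fD k μ D w ≠ 1) :
    0 < (TD k μ D w - w).re := by
  have e0 : TD k μ D w - w = exp (LS k μ (LXq w) (fD k μ D w)) := by
    unfold TD; ring
  rw [e0]
  rcases le_or_gt 0 ((1 + w ^ 2).re) with hA | hA
  · refine lt_of_lt_of_le ?_ (re_exp_LS hk (LXq_im_le hA) hp)
    apply mul_pos _ (by rw [Complex.norm_exp]; exact Real.exp_pos _)
    have hk0 : 0 < 1 / k := by positivity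
    have hk1 : 1 / k < 1 / 2 := one_div_lt_one_div_of_lt (by norm_num) hk
    have hp := Real.pi_pos
    have e1 : Real.pi / (2 * k) = 1 / k * (Real.pi / 2) := by
      field_simp
    have h5 : 1 / k * (Real.pi / 2) < 1 / 2 * (Real.pi / 2) :=
      mul_lt_mul_of_pos_right hk1 (by linarith)
    apply Real.cos_pos_of_mem_Ioo
    rw [e1]
    constructor
    · have := mul_pos hk0 (half_pos hp); linarith
    · linarith
  · have h1 := a4q hH hk.le hB h hX hw hA
    have hi := hX.imX w hw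
    rw [← step_chart hH hk.le hB h hX hw h1]
    apply hH.reD hk.le
    · rw [add_re, ofReal_re]; linarith
    · simpa using hi.1
    · simpa using hi.2

end EQW
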