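import Pool.Agent.Lib.MP_226de1_co.Sw.Glue
import Pool.Agent.Lib.MP_226de1_co.Sw.End
import Pool.Agent.Lib.MP_226de1_co.Sw.Base
import Pool.Agent.Lib.MP_226de1_co.Sw.ExitLink

/-! Assembly of the sweep. -/

set_option autoImplicit false

namespace EQW

open Complex Set Filter Topology Metric
open EQH (CK HL ff)

variable {k μ : ℝ} {dn dp : Bool → ℝ → ℝ}

private theorem locExt_up {u m R : ℝ} {G : Set ℂ} {q LX LD DI XI D : ℂ → ℂ} (hG : Tgt G)
    (hE : ExitG k G) (hH : HL k μ u q LX LD) (hk : 2 < k)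
    (hB : Bs k μ u R G q LX LD DI XI) (hm : 0 < m)
    (h : SW k μ m R G DI D) {z₀ : ℂ} (hz : z₀.re = -m) (hzi : 0 < z₀.im) :
    LocExt k μ m G D z₀ := by
  obtain ⟨X, hX⟩ := h.exists_XC hB
  have hzs : ∀ j : ℕ, z₀ - ((1 / ((j : ℝ) + 1) : ℝ) : ℂ) ∈ Hq m := by
    intro j
    have hj : (0 : ℝ) < 1 / ((j : ℝ) + 1) := by positivity
    refine ⟨?_, ?_⟩
    · show (z₀ - ((1 / ((j : ℝ) + 1) : ℝ) : ℂ)).re < -m
      rw [sub_re, ofReal_re]
      linarith
    · show 0 < (z₀ - ((1 / ((j : ℝ) + 1) : ℝ) : ℂ)).im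
      rw [sub_im, ofReal_im]
      linarith
  have hl : Tendsto (fun j : ℕ => z₀ - ((1 / ((j : ℝ) + 1) : ℝ) : ℂ)) atTop (𝓝 z₀) := by
    have h1 : Tendsto (fun j : ℕ => ((1 / ((j : ℝ) + 1) : ℝ) : ℂ)) atTop (𝓝 ((0 : ℝ) : ℂ)) :=
      (Complex.continuous_ofReal.tendsto 0).comp tendsto_one_div_add_atTop_nhds_zero_nat
    have h2 := h1.const_sub z₀
    simpa using h2
  obtain ⟨w, hw, hf, hT, φ, hφ, hws⟩ :=
    limit_state hG hE hH hk hB h hX hzs hz hzi hl (Or.inl hm)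
  exact locExt_of hG hE hH hk hB h hX hw hf hz hzi hT
    (zs := fun j => z₀ - ((1 / (((φ j : ℕ) : ℝ) + 1) : ℝ) : ℂ)) (fun j => hzs (φ j)) hws

/-- `limit_state` (`m > 0`) and `locExt_of` for `Im z₀ > 0`, `SW.locExt_cj` for `Im z₀ < 0`, `real_ext` for
`Im z₀ = 0`. -/
theorem locExt_all {u m R : ℝ} {G : Set ℂ} {q LX LD DI XI D : ℂ → ℂ} (hG : Tgt G)
    (hE : ExitG k G) (hH : HL k μ u q LX LD) (hk : 2 < k)
    (hB : Bs k μ u R G q LX LD DI XI) (hbd : BD k μ dn dp DI) (hm : 0 < m)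
    (h : SW k μ m R G DI D) {z₀ : ℂ} (hz : z₀.re = -m) : LocExt k μ m G D z₀ := by
  rcases lt_trichotomy z₀.im 0 with h0 | h0 | h0
  · have h1 := locExt_up hG hE hH hk hB hm h (z₀ := (starRingEnd ℂ) z₀)
      (by rw [conj_re]; exact hz) (by rw [conj_im]; linarith)
    have h2 := h.locExt_cj hG hB h1
    rwa [Complex.conj_conj] at h2
  · have h1 : z₀ = ((-m : ℝ) : ℂ) := by
      apply Complex.ext
      · rw [ofReal_re]; exact hz
      · rw [ofReal_im]; exact h0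
    rw [h1]
    exact real_ext hG hB h hbd
  · exact locExt_up hG hE hH hk hB hm h hz h0

/-- MAIN THEOREM of the sweep: no line system for `k > 2` if the exit lemma holds for some
admissible target. -/
theorem no_lineSys {G : Set ℂ} (hG : Tgt G) (hE : ExitG k G) (hk : 2 < k)
    (hL : EQK.LineSys k μ dn dp) : False := by
  obtain ⟨u, R, q, LX, LD, DI, XI, hH, hB, hbd⟩ := exists_Bs hG hk hL
  obtain ⟨D, h⟩ := exists_SW0 hB
    (fun m D hm h z₀ hz => locExt_all hG hE hH hk hB hbd hm h hz)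
  exact the_end hG hE hH hk hB h hbd

/-- with the two exit statements -/
theorem no_lineSys' {K : ℝ} (h1 : EQS.ExitDisc K) (h2 : EQS.ExitHalf K) (hk : 2 < k)
    (hL : EQK.LineSys k μ dn dp) : False := by
  rcases le_total k K with h | h
  · exact no_lineSys tgt_disc (exitG_disc h1 hk h) hk hL
  · exact no_lineSys tgt_half (exitG_half h2 hk h) hk hL

end EQW
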