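import Pool.Agent.Lib.MP_226de1_co.Sw.Sym

/-! Backward orbits go to infinity; the `x`-coordinate on `Re z < -m`. -/

set_option autoImplicit false

namespace EQW

open Complex Set Filter Topology Metric
open EQH (CK)

variable {k μ u m R : ℝ} {G : Set ℂ} {q LX LD DI XI D : ℂ → ℂ}

/-- the backward orbit -/
noncomputable def orb (D : ℂ → ℂ) (z : ℂ) (n : ℕ) : ℂ := (fun z => z - D z)^[n] z

theorem orb_succ (D : ℂ → ℂ) (z : ℂ) (n : ℕ) : orb D z (n + 1) = orb D z n - D (orb D z n) :=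
  Function.iterate_succ_apply' _ n z

theorem orb_succ' (D : ℂ → ℂ) (z : ℂ) (n : ℕ) : orb D z (n + 1) = orb D (z - D z) n :=
  Function.iterate_succ_apply _ n z

theorem SW.orb_mem (h : SW k μ m R G DI D) {z : ℂ} (hz : z ∈ Hp m) (n : ℕ) :
    orb D z n ∈ Hp m := by
  induction n with
  | zero => exact hz
  | succ n ih => rw [orb_succ]; exact h.mem ih

theorem SW.orb_mem' (hB : Bs k μ u R G q LX LD DI XI) (h : SW k μ m R G DI D) {z : ℂ}
    (hz : z ∈ Hq m) (n : ℕ) : orb D z n ∈ Hq m := by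
  induction n with
  | zero => exact hz
  | succ n ih => rw [orb_succ]; exact h.im hB ih

/-- If the orbit stayed in `‖·‖ ≤ R` it would stay in the compact set
`{Re ≤ Re z} ∩ {‖·‖ ≤ R} ⊆ Hp m`, where `Re D ≥ δ > 0`. -/
theorem SW.orb_far (h : SW k μ m R G DI D) {z : ℂ} (hz : z ∈ Hp m) :
    ∃ n, R < ‖orb D z n‖ := by
  by_contra hcon
  push Not at hcon
  have hzm : z.re < -m := hz
  have hKc : IsCompact {w : ℂ | w.re ≤ z.re ∧ ‖w‖ ≤ R} := by
    have h1 : IsClosed {w : ℂ | w.re ≤ z.re ∧ ‖w‖ ≤ R} :=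
      (isClosed_le Complex.continuous_re continuous_const).inter
        (isClosed_le continuous_norm continuous_const)
    refine (isCompact_closedBall (0 : ℂ) R).of_isClosed_subset h1 fun w hw => ?_
    rw [mem_closedBall_zero_iff]
    exact hw.2
  have hKs : {w : ℂ | w.re ≤ z.re ∧ ‖w‖ ≤ R} ⊆ Hp m := fun w hw => by
    have : w.re ≤ z.re := hw.1
    exact lt_of_le_of_lt this hzm
  have hzK : z ∈ {w : ℂ | w.re ≤ z.re ∧ ‖w‖ ≤ R} := ⟨le_rfl, hcon 0⟩
  have hcont : ContinuousOn (fun w => (D w).re) {w : ℂ | w.re ≤ z.re ∧ ‖w‖ ≤ R} :=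
    Complex.continuous_re.comp_continuousOn (h.dD.continuousOn.mono hKs)
  obtain ⟨w₀, hw₀, hmin⟩ := hKc.exists_isMinOn ⟨z, hzK⟩ hcont
  have hδ : 0 < (D w₀).re := h.reD w₀ (hKs hw₀)
  have hmin' : ∀ w : ℂ, w.re ≤ z.re → ‖w‖ ≤ R → (D w₀).re ≤ (D w).re := fun w h1 h2 =>
    hmin (show w ∈ {w : ℂ | w.re ≤ z.re ∧ ‖w‖ ≤ R} from ⟨h1, h2⟩)
  have hre : ∀ n : ℕ, (orb D z n).re ≤ z.re - n * (D w₀).re := by
    intro n
    induction n with
    | zero => simp [orb]
    | succ n ih =>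
      have h1 : (orb D z n).re ≤ z.re := by
        have : 0 ≤ (n : ℝ) * (D w₀).re := by positivity
        linarith
      have h2 := hmin' _ h1 (hcon n)
      rw [orb_succ, Complex.sub_re]
      push_cast
      linarith
  obtain ⟨n, hn⟩ := exists_nat_gt ((z.re + R) / (D w₀).re)
  rw [div_lt_iff₀ hδ] at hn
  have h3 := hre n
  have h4 : -R ≤ (orb D z n).re := by
    have := (abs_le.mp ((Complex.abs_re_le_norm (orb D z n)).trans (hcon n))).1
    exact this
  linarith

/-- once far it stays far (`Bs.grow`) -/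
theorem SW.orb_stay (hB : Bs k μ u R G q LX LD DI XI) (h : SW k μ m R G DI D) {z : ℂ}
    (hz : z ∈ Hp m) {n n' : ℕ} (hn : R < ‖orb D z n‖) (hnn : n ≤ n') : R < ‖orb D z n'‖ := by
  induction n', hnn using Nat.le_induction with
  | base => exact hn
  | succ j _ ih =>
    have hm := h.orb_mem hz j
    have hA : orb D z j ∈ Ar R := ⟨h.reneg hm, ih⟩
    rw [orb_succ, h.ag _ hm ih]
    exact lt_of_lt_of_le ih (hB.grow _ hA)

private theorem orb_diff (h : SW k μ m R G DI D) {z : ℂ} (hz : z ∈ Hp m) (n : ℕ) :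
    DifferentiableAt ℂ (fun w => orb D w n) z := by
  induction n with
  | zero => exact differentiableAt_id
  | succ n ih =>
    have h1 : (fun w => orb D w (n + 1)) = fun w => orb D w n - D (orb D w n) :=
      funext fun w => orb_succ D w n
    rw [h1]
    exact ih.sub ((h.diffAt (h.orb_mem hz n)).comp z ih)

private theorem XI_orb (hB : Bs k μ u R G q LX LD DI XI) (h : SW k μ m R G DI D) {z : ℂ}
    (hz : z ∈ Hp m) {n n' : ℕ} (hn : R < ‖orb D z n‖) (hnn : n ≤ n') :
    XI (orb D z n') + (n' : ℂ) * (Real.log μ : ℂ) = XI (orb D z n) + (n : ℂ) * (Real.log μ : ℂ) := by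
  induction n', hnn using Nat.le_induction with
  | base => rfl
  | succ j hj ih =>
    have hm := h.orb_mem hz j
    have hf := h.orb_stay hB hz hn hj
    have hA : orb D z j ∈ Ar R := ⟨h.reneg hm, hf⟩
    rw [← ih, orb_succ, h.ag _ hm hf, hB.stepX _ hA]
    push_cast
    ring

/-- `X z = XI (orb z n) + n log μ` for any `n` with `R < ‖orb z n‖` (independent of `n` by
`Bs.stepX`, `SW.ag`, `orb_stay`); locally one `n` works, so `X` is analytic; `Im X z = Im XI (..)`. -/
theorem SW.exists_XC (hB : Bs k μ u R G q LX LD DI XI) (h : SW k μ m R G DI D) :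
    ∃ X : ℂ → ℂ, XC k μ m R D XI X := by
  classical
  let X : ℂ → ℂ := fun z => if hx : ∃ n, R < ‖orb D z n‖ then
    XI (orb D z (Nat.find hx)) + ((Nat.find hx : ℕ) : ℂ) * (Real.log μ : ℂ) else 0
  have key : ∀ z ∈ Hp m, ∀ n : ℕ, R < ‖orb D z n‖ →
      X z = XI (orb D z n) + (n : ℂ) * (Real.log μ : ℂ) := by
    intro z hz n hn
    have hx : ∃ n, R < ‖orb D z n‖ := ⟨n, hn⟩
    have h1 : X z = XI (orb D z (Nat.find hx)) + ((Nat.find hx : ℕ) : ℂ) * (Real.log μ : ℂ) :=
      dif_pos hx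
    rw [h1]
    exact (XI_orb hB h hz (Nat.find_spec hx) (Nat.find_min' hx hn)).symm
  refine ⟨X, ?_, ?_, ?_, ?_⟩
  · intro z hz
    obtain ⟨n, hn⟩ := h.orb_far hz
    have hm := h.orb_mem hz n
    have hA : orb D z n ∈ Ar R := ⟨h.reneg hm, hn⟩
    have hd := orb_diff h hz n
    have hXI : DifferentiableAt ℂ XI (orb D z n) :=
      hB.dX.differentiableAt ((isOpen_Ar R).mem_nhds hA)
    have h1 : DifferentiableAt ℂ
        (fun w => XI (orb D w n) + (n : ℂ) * (Real.log μ : ℂ)) z :=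
      (hXI.comp z hd).add_const _
    have h2 : ∀ᶠ w in 𝓝 z, R < ‖orb D w n‖ :=
      (continuousAt_const.eventually_lt hd.continuousAt.norm hn)
    have h3 : ∀ᶠ w in 𝓝 z, w ∈ Hp m := (isOpen_Hp m).mem_nhds hz
    have h4 : X =ᶠ[𝓝 z] fun w => XI (orb D w n) + (n : ℂ) * (Real.log μ : ℂ) := by
      filter_upwards [h2, h3] with w hw1 hw2
      exact key w hw2 n hw1
    exact (h1.congr_of_eventuallyEq h4).differentiableWithinAt
  · intro z hz
    have hz' := Hq_sub m hz
    obtain ⟨n, hn⟩ := h.orb_far hz'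
    have hm := h.orb_mem' hB hz n
    have hA : orb D z n ∈ Ar R := ⟨h.reneg (Hq_sub m hm), hn⟩
    have h1 := hB.imX _ hA hm.2
    have h2 : (X z).im = (XI (orb D z n)).im := by
      rw [key z hz' n hn]
      simp
    rw [h2]
    exact h1
  · intro z hz
    obtain ⟨n, hn⟩ := h.orb_far hz
    have hn1 := h.orb_stay hB hz hn (Nat.le_succ n)
    have hn2 : R < ‖orb D (z - D z) n‖ := by rw [← orb_succ']; exact hn1
    rw [key z hz (n + 1) hn1, key _ (h.mem hz) n hn2, orb_succ']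
    push_cast
    ring
  · intro z hz hR
    have := key z hz 0 hR
    rw [this]
    simp [orb]

end EQW
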