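import Pool.Agent.Lib.MP_226de1_co.Sw.Basic

/-! Symmetry, injectivity, quadrant invariance of the sweep map `z ↦ z - D z`. -/

set_option autoImplicit false

namespace EQW

open Complex Set Filter Topology Metric
open EQH (CK)

variable {k μ u m R : ℝ} {G : Set ℂ} {q LX LD DI XI D : ℂ → ℂ}

private theorem sy_re_cj (z : ℂ) : ((starRingEnd ℂ) z).re = z.re := conj_re z

private theorem sy_conj_diff {f : ℂ → ℂ} {z : ℂ} (hf : DifferentiableAt ℂ f z) :
    DifferentiableAt ℂ (fun w => (starRingEnd ℂ) (f ((starRingEnd ℂ) w))) ((starRingEnd ℂ) z) := by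
  exact hf.star_star

/-- the identity theorem on a half plane -/
private theorem sy_ident {m B : ℝ} {f g : ℂ → ℂ} (hf : DifferentiableOn ℂ f (Hp m))
    (hg : DifferentiableOn ℂ g (Hp m)) (he : ∀ z ∈ Hp m, B < ‖z‖ → f z = g z) {z : ℂ}
    (hz : z ∈ Hp m) : f z = g z := by
  have h1 : AnalyticOnNhd ℂ f (Hp m) := hf.analyticOnNhd (isOpen_Hp m)
  have h2 : AnalyticOnNhd ℂ g (Hp m) := hg.analyticOnNhd (isOpen_Hp m)
  set w : ℂ := ((-(|m| + |B| + 1) : ℝ) : ℂ) with hw
  have hwm : w ∈ Hp m := by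
    show w.re < -m
    rw [hw, ofReal_re]
    have := le_abs_self m
    have := abs_nonneg B
    linarith
  have hwB : B < ‖w‖ := by
    rw [hw, norm_real, norm_neg, Real.norm_eq_abs, abs_of_nonneg (by positivity)]
    have := le_abs_self B
    have := abs_nonneg m
    linarith
  have hev : f =ᶠ[𝓝 w] g := by
    have h3 : ∀ᶠ z in 𝓝 w, B < ‖z‖ :=
      (isOpen_lt continuous_const continuous_norm).mem_nhds hwB
    filter_upwards [(isOpen_Hp m).mem_nhds hwm, h3] with z a b using he z a b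
  exact h1.eqOn_of_preconnected_of_eventuallyEq h2 (convex_Hp m).isPreconnected hwm hev hz

namespace SW

theorem diffAt (h : SW k μ m R G DI D) {z : ℂ} (hz : z ∈ Hp m) : DifferentiableAt ℂ D z :=
  h.dD.differentiableAt ((isOpen_Hp m).mem_nhds hz)

theorem reneg (h : SW k μ m R G DI D) {z : ℂ} (hz : z ∈ Hp m) : z.re < 0 := by
  have h1 : z.re < -m := hz
  have h2 := h.hm
  linarith

theorem mem (h : SW k μ m R G DI D) {z : ℂ} (hz : z ∈ Hp m) : z - D z ∈ Hp m := by
  have h1 : z.re < -m := hz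
  have h2 := h.reD z hz
  show (z - D z).re < -m
  rw [sub_re]
  linarith

/-- `T (z - D z) = z` -/
theorem inj (h : SW k μ m R G DI D) {z z' : ℂ} (hz : z ∈ Hp m) (hz' : z' ∈ Hp m)
    (he : z - D z = z' - D z') : z = z' := by
  rw [← h.eqn z hz, ← h.eqn z' hz', he]

/-- restriction to a smaller half plane -/
theorem mono (h : SW k μ m R G DI D) {m' : ℝ} (hm : m ≤ m') : SW k μ m' R G DI D where
  hm := h.hm.trans hm
  dD := h.dD.mono (Hp_mono hm)
  reD := fun z hz => h.reD z (Hp_mono hm hz)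
  tgt := fun z hz => h.tgt z (Hp_mono hm hz)
  eqn := fun z hz => h.eqn z (Hp_mono hm hz)
  ag := fun z hz => h.ag z (Hp_mono hm hz)

/-- identity theorem on the connected set `Hp m`: both sides are analytic and agree far away
(`Bs.cjD`). `z ↦ conj (D (conj z))` is analytic: `DifferentiableAt.star_star` or
`HasDerivAt.star_conj`. -/
theorem cj (hB : Bs k μ u R G q LX LD DI XI) (h : SW k μ m R G DI D) {z : ℂ} (hz : z ∈ Hp m) :
    D ((starRingEnd ℂ) z) = (starRingEnd ℂ) (D z) := by
  have hd : DifferentiableOn ℂ (fun w => (starRingEnd ℂ) (D ((starRingEnd ℂ) w))) (Hp m) := by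
    intro w hw
    have h1 := sy_conj_diff (h.diffAt (Hp_cj hw))
    rw [conj_conj] at h1
    exact h1.differentiableWithinAt
  have key := sy_ident (B := R) h.dD hd (fun w hw hR => by
    have hA : w ∈ Ar R := ⟨h.reneg hw, hR⟩
    have hR' : R < ‖(starRingEnd ℂ) w‖ := by rwa [norm_conj]
    rw [h.ag w hw hR, h.ag _ (Hp_cj hw) hR', hB.cjD w hA, conj_conj]) (Hp_cj hz)
  rw [key, conj_conj]

/-- two solutions coincide -/
theorem unique (hB : Bs k μ u R G q LX LD DI XI) {m' : ℝ} {D' : ℂ → ℂ}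
    (h : SW k μ m R G DI D) (h' : SW k μ m' R G DI D') {z : ℂ} (hz : z ∈ Hp m)
    (hz' : z ∈ Hp m') : D z = D' z := by
  have h1 := h.mono (le_max_left m m')
  have h2 := h'.mono (le_max_right m m')
  have hz2 : z ∈ Hp (max m m') := by
    have a : z.re < -m := hz
    have b : z.re < -m' := hz'
    show z.re < -(max m m')
    rcases max_choice m m' with e | e <;> rw [e] <;> assumption
  exact sy_ident (B := R) h1.dD h2.dD (fun w hw hR => by
    rw [h1.ag w hw hR, h2.ag w hw hR]) hz2

/-- upper half to upper half: if `z - D z` is real then by `cj` and `inj` `z` is real, so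
`Im (z - D z)` has no zero on the connected set `Hq m`; far away it is positive (`Bs.imD`). -/
theorem im (hB : Bs k μ u R G q LX LD DI XI) (h : SW k μ m R G DI D) {z : ℂ} (hz : z ∈ Hq m) :
    z - D z ∈ Hq m := by
  refine ⟨h.mem (Hq_sub m hz), ?_⟩
  have hcont : ContinuousOn (fun w => (w - D w).im) (Hq m) := by
    refine Complex.continuous_im.comp_continuousOn ?_
    exact continuousOn_id.sub (h.dD.continuousOn.mono (Hq_sub m))
  have hne : ∀ w ∈ Hq m, (w - D w).im ≠ 0 := by
    intro w hw h0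
    have hwp := Hq_sub m hw
    have h1 : (starRingEnd ℂ) w - D ((starRingEnd ℂ) w) = w - D w := by
      rw [cj hB h hwp, ← map_sub]
      exact conj_eq_iff_im.2 h0
    have h2 := h.inj (Hp_cj hwp) hwp h1
    have h3 : w.im = 0 := conj_eq_iff_im.1 h2
    have h4 : 0 < w.im := hw.2
    linarith
  by_contra hneg
  push Not at hneg
  -- a far point
  set w : ℂ := ⟨-(|m| + 1), |R| + 1⟩ with hw
  have hwq : w ∈ Hq m := by
    refine ⟨?_, ?_⟩
    · show -(|m| + 1) < -m
      have := le_abs_self m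
      linarith
    · show 0 < |R| + 1
      positivity
  have hwR : R < ‖w‖ := by
    have h1 : |w.im| ≤ ‖w‖ := abs_im_le_norm w
    have h2 : w.im = |R| + 1 := rfl
    rw [h2, abs_of_nonneg (by positivity)] at h1
    have := le_abs_self R
    linarith
  have hwpos : 0 < (w - D w).im := by
    rw [h.ag w (Hq_sub m hwq) hwR]
    exact hB.imD w ⟨h.reneg (Hq_sub m hwq), hwR⟩ hwq.2
  have hpre : IsPreconnected (Hq m) := (convex_Hq m).isPreconnected
  have himg := hpre.intermediate_value hz hwq hcont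
  obtain ⟨v, hv, hv0⟩ := himg ⟨hneg, hwpos.le⟩
  exact hne v hv hv0

/-- real on the real axis -/
theorem real (hB : Bs k μ u R G q LX LD DI XI) (h : SW k μ m R G DI D) {z : ℂ} (hz : z ∈ Hp m)
    (h0 : z.im = 0) : (D z).im = 0 := by
  have h1 := cj hB h hz
  rw [conj_eq_iff_im.2 h0] at h1
  exact conj_eq_iff_im.1 h1.symm

theorem fdiff (h : SW k μ m R G DI D) {z : ℂ} (hz : z ∈ Hp m) :
    DifferentiableAt ℂ (fD k μ D) z :=
  fD_diff (h.reneg hz) (h.diffAt hz) (h.reD z hz)

/-- `f` of the preimage is analytic, with values in `G` -/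
theorem fsdiff (h : SW k μ m R G DI D) :
    DifferentiableOn ℂ (fun z => fD k μ D (z - D z)) (Hp m) := by
  intro z hz
  have h1 : DifferentiableAt ℂ (fun z => z - D z) z := differentiableAt_id.sub (h.diffAt hz)
  have h2 : DifferentiableAt ℂ (fD k μ D) (z - D z) := h.fdiff (h.mem hz)
  exact (DifferentiableAt.comp z h2 h1).differentiableWithinAt

/-- the step: `D z = exp (LS (LXq w) (f w))`, `w = z - D z` -/
theorem step (h : SW k μ m R G DI D) {z : ℂ} (hz : z ∈ Hp m) :
    D z = exp (LS k μ (LXq (z - D z)) (fD k μ D (z - D z))) := by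
  have h1 : (z - D z) + exp (LS k μ (LXq (z - D z)) (fD k μ D (z - D z))) = z := h.eqn z hz
  linear_combination -h1

/-- conjugate of a boundary extension -/
theorem locExt_cj (hG : Tgt G) (hB : Bs k μ u R G q LX LD DI XI) (h : SW k μ m R G DI D)
    {z₀ : ℂ} (hz : LocExt k μ m G D z₀) : LocExt k μ m G D ((starRingEnd ℂ) z₀) := by
  obtain ⟨ε, hε, D', hd, hag, hD'⟩ := hz
  have hball : ∀ w : ℂ, w ∈ ball ((starRingEnd ℂ) z₀) ε → (starRingEnd ℂ) w ∈ ball z₀ ε := by
    intro w hw
    rw [mem_ball, dist_eq_norm] at hw ⊢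
    have h1 : (starRingEnd ℂ) w - z₀ = (starRingEnd ℂ) (w - (starRingEnd ℂ) z₀) := by
      rw [map_sub, conj_conj]
    rw [h1, norm_conj]
    exact hw
  refine ⟨ε, hε, fun w => (starRingEnd ℂ) (D' ((starRingEnd ℂ) w)), ?_, ?_, ?_⟩
  · intro w hw
    have h1 := sy_conj_diff (hd.differentiableAt (isOpen_ball.mem_nhds (hball w hw)))
    rw [conj_conj] at h1
    exact h1.differentiableWithinAt
  · intro w hw hwm
    show (starRingEnd ℂ) (D' ((starRingEnd ℂ) w)) = D w
    rw [hag _ (hball w hw) (Hp_cj hwm), cj hB h hwm, conj_conj]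
  · intro w hw
    obtain ⟨a1, a2, a3, a4⟩ := hD' _ (hball w hw)
    set v : ℂ := (starRingEnd ℂ) w - D' ((starRingEnd ℂ) w) with hv
    have e1 : w - (starRingEnd ℂ) (D' ((starRingEnd ℂ) w)) = (starRingEnd ℂ) v := by
      rw [hv, map_sub, conj_conj]
    have hvre : v.re < 0 := h.reneg a2
    have hvD : 0 < (D v).re := h.reD v a2
    have hvc : D ((starRingEnd ℂ) v) = (starRingEnd ℂ) (D v) := cj hB h a2
    have hsl : 1 - fD k μ D v ∈ slitPlane := by
      left
      rw [sub_re, one_re]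
      have := hG.re _ a3
      linarith
    refine ⟨?_, ?_, ?_, ?_⟩
    · show 0 < ((starRingEnd ℂ) (D' ((starRingEnd ℂ) w))).re
      rw [conj_re]
      exact a1
    · rw [e1]
      exact Hp_cj a2
    · rw [e1, fD_cj hvre hvD hvc]
      exact hG.cj _ a3
    · rw [e1, TD_cj hvre hvD hvc hsl, a4, conj_conj]

end SW

/-- start of the sweep: `Hp R ⊆ Ar R` -/
theorem Bs.start (hB : Bs k μ u R G q LX LD DI XI) : SW k μ R R G DI DI := by
  have hR := hB.hR
  have hA : ∀ z ∈ Hp R, z ∈ Ar R := by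
    intro z hz
    have h1 : z.re < -R := hz
    refine ⟨?_, ?_⟩
    · show z.re < 0
      linarith
    · have h2 : |z.re| ≤ ‖z‖ := abs_re_le_norm z
      have h3 : -z.re ≤ |z.re| := neg_le_abs _
      show R < ‖z‖
      linarith
  exact
    { hm := hR.le
      dD := hB.dD.mono hA
      reD := fun z hz => hB.reD z (hA z hz)
      tgt := fun z hz => hB.tgt z (hA z hz)
      eqn := fun z hz => hB.eqn z (hA z hz)
      ag := fun _ _ _ => rfl }

end EQW
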