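import Mathlib
import Pool.Agent.Lib.MP_226de1_co.Sw.Fold

/-! Two local lemmas on analytic functions: a critical point has two preimages; a noncritical point
has an analytic local inverse. -/

set_option autoImplicit false

namespace EQW

open Complex Set Filter Topology Metric

/-- At a critical point (function not locally constant) every nearby value other than the critical
one has two different preimages nearby. Proof without normal forms: choose a closed ball around `w`
inside `N` where `Q - Q w` and `deriv Q` vanish only at `w`. For `z` near `Q w` there is a preimage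
`a` near `w` (open mapping, `AnalyticAt.eventually_constant_or_nhds_le_map_nhds`), `a → w` as `z → Q w`. If
it were the only one in the ball, `g(w') = (Q w' - z)/(w' - a)` (extended by `deriv Q a ≠ 0` at `a`:
`dslope`) has no zero in the ball, so by the maximum principle for `1/g`
`‖g w‖ ≥ min over the sphere of ‖g‖ ≥ c > 0` (uniformly, as `g → (Q - Q w)/(· - w)` on the sphere),
but `g w = (Q w - Q a)/(w - a) → deriv Q w = 0`. -/
theorem two_pre {Q : ℂ → ℂ} {w : ℂ} (hQ : AnalyticAt ℂ Q w) (hd : deriv Q w = 0)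
    (hnc : ¬ ∀ᶠ w' in 𝓝 w, Q w' = Q w) {N : Set ℂ} (hN : N ∈ 𝓝 w) :
    ∀ᶠ z in 𝓝 (Q w), z ≠ Q w → ∃ a ∈ N, ∃ b ∈ N, a ≠ b ∧ Q a = z ∧ Q b = z := by
  exact eventually_nhdsWithin_iff.1 (fold hQ hd hnc hN)

/-- analytic local inverse -/
theorem local_inverse {Q : ℂ → ℂ} {w : ℂ} (hQ : AnalyticAt ℂ Q w) (hd : deriv Q w ≠ 0) :
    ∃ τ : ℂ → ℂ, AnalyticAt ℂ τ (Q w) ∧ τ (Q w) = w ∧ (∀ᶠ z in 𝓝 (Q w), Q (τ z) = z) ∧
      (∀ᶠ w' in 𝓝 w, τ (Q w') = w') := by
  exact ⟨hQ.hasStrictDerivAt.localInverse Q (deriv Q w) w hd, hQ.analyticAt_localInverse hd,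
    HasStrictFDerivAt.localInverse_apply_image .., HasStrictDerivAt.eventually_right_inverse ..,
    HasStrictDerivAt.eventually_left_inverse ..⟩

/-- a compact open subset of the plane is empty -/
theorem compact_open_empty {S : Set ℂ} (ho : IsOpen S) (hc : IsCompact S) : S = ∅ := by
  rcases isClopen_iff.1 ⟨hc.isClosed, ho⟩ with h | h
  · exact h
  · rw [h] at hc
    exact absurd hc (noncompact_univ ℂ)

end EQW
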