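import Pool.Agent.Lib.MP_226de1_co.Sw.ExitApply
import Pool.Agent.Lib.MP_226de1_co.Sw.TwoPre

/-! Uniqueness of the preimage in the upper quadrant:
`w, z ∈ Hq m`, `f w ∈ G`, `T w = z` imply `w = z - D z`. -/

set_option autoImplicit false

namespace EQW

open Complex Set Filter Topology Metric
open EQH (CK HL ff)

variable {k μ u m R : ℝ} {G : Set ℂ} {q LX LD DI XI D X : ℂ → ℂ}

/-- If `T (w_j)` is bounded and `Re w_j < 0`, `w_j ∈ Hp m` then `w_j` is bounded (`Bs.far`: for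
`‖w‖ > R` `T` is computed from `DI`). -/
theorem bdd_of_T (hB : Bs k μ u R G q LX LD DI XI) (h : SW k μ m R G DI D) (A : ℝ) :
    ∃ B : ℝ, ∀ w ∈ Hp m, ‖TD k μ D w‖ ≤ A → ‖w‖ ≤ B := by
  obtain ⟨B, hBf⟩ := hB.far A
  refine ⟨max B R, fun w hw hA => ?_⟩
  by_contra hcon
  rw [not_le, max_lt_iff] at hcon
  have h1 := hBf w ⟨h.reneg hw, hcon.2⟩ hcon.1
  rw [← TD_congr (k := k) (μ := μ) (h.ag w hw hcon.2)] at h1
  linarith

/-- `T` is real on the real axis: `Im (T w) = 0` for real `w` with `Re (1 - f w) ≥ 0`, `f w ≠ 1`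
(`fD w` is real and positive by `fD_real`, so `0 < 1 - f w < 1`, the step is real). -/
theorem T_real (hG : Tgt G) (hB : Bs k μ u R G q LX LD DI XI) (h : SW k μ m R G DI D) {w : ℂ}
    (hw : w ∈ Hp m) (h0 : w.im = 0) (hp : 0 ≤ (1 - fD k μ D w).re) (hne : fD k μ D w ≠ 1) :
    (TD k μ D w).im = 0 := by
  have hx : w = ((w.re : ℝ) : ℂ) := by
    apply Complex.ext <;> simp [h0]
  have hLX : (LXq w).im = 0 := by
    rw [hx, LXq_real, ofReal_im]
  have hD0 : (D w).im = 0 := h.real hB hw h0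
  have hDr : 0 < (D w).re := h.reD w hw
  have hlogD : (log (D w)).im = 0 := by
    rw [log_im, arg_eq_zero_iff]
    exact ⟨hDr.le, hD0⟩
  have hfi : (fD k μ D w).im = 0 := by
    have e1 : ((k : ℂ) * (LXq w - log (D w))).im = 0 := by
      rw [im_ofReal_mul, sub_im, hLX, hlogD]
      ring
    have e2 : (exp ((k : ℂ) * (LXq w - log (D w)))).im = 0 := by
      rw [exp_im, e1, Real.sin_zero, mul_zero]
    unfold fD
    rw [Complex.div_ofReal_im, e2, zero_div]
  have harg : arg (1 - fD k μ D w) = 0 := by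
    rw [arg_eq_zero_iff]
    refine ⟨hp, ?_⟩
    rw [sub_im, one_im, hfi]
    ring
  have hLS : (LS k μ (LXq w) (fD k μ D w)).im = 0 := by
    unfold LS
    rw [sub_im, im_ofReal_mul, add_im, ofReal_im, log_im, harg, hLX]
    ring
  unfold TD
  rw [add_im, exp_im, hLS, h0, Real.sin_zero]
  ring

/-- Compactness of fibres. `w_j ∈ Hq m`, `f w_j ∈ G`, `T w_j = z_j → z ∈ Hq m`, `w_j → w`: then
`w ∈ Hq m`, `f w ∈ G`, `T w = z`.
Proof. `Re w_j < Re z_j` by `reT`, `Im w_j > 0`. So `Re w ≤ Re z < -m`: `w ∈ Hp m`, `f` is continuous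
at `w`, `f w ∈ closure G`, `Re (1 - f w) ≥ 0`. `f w ≠ 1`: otherwise `‖T w_j - w_j‖ → ∞`
(`norm_exp_LS`). So `T` is continuous at `w` and `T w = z`. `Im w = 0` is impossible by `T_real`.
`exit_apply` gives `f w ∈ G`. -/
theorem fibre_closed (hG : Tgt G) (hE : ExitG k G) (hH : HL k μ u q LX LD) (hk : 2 < k)
    (hB : Bs k μ u R G q LX LD DI XI) (h : SW k μ m R G DI D) (hX : XC k μ m R D XI X)
    {ws zs : ℕ → ℂ} {w z : ℂ} (hws : ∀ j, ws j ∈ Hq m) (hf : ∀ j, fD k μ D (ws j) ∈ G)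
    (hT : ∀ j, TD k μ D (ws j) = zs j) (hz : z ∈ Hq m) (hzl : Tendsto zs atTop (𝓝 z))
    (hwl : Tendsto ws atTop (𝓝 w)) :
    w ∈ Hq m ∧ fD k μ D w ∈ G ∧ TD k μ D w = z := by
  have hμ : 1 < μ := hH.ch.hμ
  have hk0 : 0 < k := by linarith
  have hfre : ∀ j, 0 < (1 - fD k μ D (ws j)).re := fun j => by
    have := hG.re _ (hf j)
    rw [sub_re, one_re]
    linarith
  have hfne : ∀ j, fD k μ D (ws j) ≠ 1 := fun j he => by
    have := hfre j
    rw [he] at this
    simp at this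
  have hre : ∀ j, (ws j).re ≤ (zs j).re := fun j => by
    have := reT hH hk hB h hX (hws j) (hfre j).le (hfne j)
    rw [hT j, sub_re] at this
    linarith
  have hwre : w.re ≤ z.re := le_of_tendsto_of_tendsto'
    ((Complex.continuous_re.tendsto w).comp hwl) ((Complex.continuous_re.tendsto z).comp hzl) hre
  have hwm : w ∈ Hp m := lt_of_le_of_lt hwre hz.1
  have hwim : 0 ≤ w.im := ge_of_tendsto' ((Complex.continuous_im.tendsto w).comp hwl)
    fun j => (hws j).2.le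
  have hfc : Tendsto (fun j => fD k μ D (ws j)) atTop (𝓝 (fD k μ D w)) :=
    (h.fdiff hwm).continuousAt.tendsto.comp hwl
  have hcl : fD k μ D w ∈ closure G := mem_closure_of_tendsto hfc (Eventually.of_forall hf)
  have hre1 : 0 ≤ (1 - fD k μ D w).re := by
    have h1 : Tendsto (fun j => (1 - fD k μ D (ws j)).re) atTop (𝓝 (1 - fD k μ D w).re) :=
      (Complex.continuous_re.tendsto _).comp (hfc.const_sub 1)
    exact ge_of_tendsto' h1 fun j => (hfre j).le
  have hne : fD k μ D w ≠ 1 := by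
    intro he
    have hLc : Tendsto (fun j => LXq (ws j)) atTop (𝓝 (LXq w)) :=
      (LXq_diff (h.reneg hwm)).continuousAt.tendsto.comp hwl
    have hEc : Tendsto (fun j => Real.exp (LXq (ws j)).re) atTop (𝓝 (Real.exp (LXq w).re)) :=
      (Real.continuous_exp.tendsto _).comp ((Complex.continuous_re.tendsto _).comp hLc)
    have hC := EQH.CK_pos (k := k) hμ
    have hid : ∀ j, ‖zs j - ws j‖ * (CK k μ * ‖1 - fD k μ D (ws j)‖) ^ (1 / k) =
        Real.exp (LXq (ws j)).re := fun j => by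
      have e0 : zs j - ws j = exp (LS k μ (LXq (ws j)) (fD k μ D (ws j))) := by
        rw [← hT j]
        unfold TD
        ring
      have hpos : 0 < CK k μ * ‖1 - fD k μ D (ws j)‖ := by
        refine mul_pos hC (norm_pos_iff.mpr ?_)
        exact sub_ne_zero.mpr (hfne j).symm
      rw [e0, norm_exp_LS hk0 hμ (hfne j), mul_assoc, Real.rpow_neg hpos.le,
        inv_mul_cancel₀ (Real.rpow_pos_of_pos hpos _).ne', mul_one]
    have hN : Tendsto (fun j => ‖zs j - ws j‖ * (CK k μ * ‖1 - fD k μ D (ws j)‖) ^ (1 / k)) atTop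
        (𝓝 (‖z - w‖ * (CK k μ * ‖1 - fD k μ D w‖) ^ (1 / k))) := by
      refine (hzl.sub hwl).norm.mul ?_
      refine Tendsto.rpow_const ?_ (Or.inr (by positivity))
      exact (hfc.const_sub 1).norm.const_mul _
    rw [he, sub_self, norm_zero, mul_zero, Real.zero_rpow (by positivity), mul_zero] at hN
    simp_rw [hid] at hN
    have := tendsto_nhds_unique hN hEc
    exact absurd this (Real.exp_pos _).ne
  have hTc : Tendsto (fun j => TD k μ D (ws j)) atTop (𝓝 (TD k μ D w)) := by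
    have h1 : 1 - fD k μ D w ∈ slitPlane := slit_of_re hre1 (sub_ne_zero.mpr hne.symm)
    exact (TD_diff (h.reneg hwm) (h.diffAt hwm) (h.reD w hwm) h1).continuousAt.tendsto.comp hwl
  simp_rw [hT] at hTc
  have hTw : TD k μ D w = z := tendsto_nhds_unique hTc hzl
  have hwim' : 0 < w.im := by
    rcases hwim.lt_or_eq with h1 | h1
    · exact h1
    · exfalso
      have h2 := T_real hG hB h hwm h1.symm hre1 hne
      rw [hTw] at h2
      exact absurd h2 hz.2.ne'
  have hwq : w ∈ Hq m := ⟨hwm, hwim'⟩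
  exact ⟨hwq, exit_apply hG hE hH hk hB h hX hwq (le_of_lt hz.1) hz.2 hcl hne hTw, hTw⟩

/-- `T` is analytic near every `w ∈ Hp m` with `f w ∈ G` -/
theorem T_analytic (hG : Tgt G) (h : SW k μ m R G DI D) {w : ℂ} (hw : w ∈ Hp m)
    (hf : fD k μ D w ∈ G) : AnalyticAt ℂ (TD k μ D) w := by
  have hc : ContinuousOn (fD k μ D) (Hp m) := fun x hx =>
    (h.fdiff hx).continuousAt.continuousWithinAt
  have ho : IsOpen (Hp m ∩ fD k μ D ⁻¹' G) := hc.isOpen_inter_preimage (isOpen_Hp m) hG.op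
  have hd : DifferentiableOn ℂ (TD k μ D) (Hp m ∩ fD k μ D ⁻¹' G) := fun x hx => by
    have h1 : 1 - fD k μ D x ∈ slitPlane := by
      left
      have := hG.re _ hx.2
      rw [sub_re, one_re]
      linarith
    exact (TD_diff (h.reneg hx.1) (h.diffAt hx.1) (h.reD x hx.1) h1).differentiableWithinAt
  exact hd.analyticAt (ho.mem_nhds ⟨hw, hf⟩)

/-- `T` is not locally constant at a point `w ∈ Hq m`, `f w ∈ G`, `T w = z ∈ Hq m`: the set of the
`w' ∈ Hq m` with `f w' ∈ G` near which `T` is constant `= z` is open and (by `bdd_of_T`,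
`fibre_closed` with `zs = z`, identity theorem) compact, so empty (`compact_open_empty`). -/
theorem T_not_const (hG : Tgt G) (hE : ExitG k G) (hH : HL k μ u q LX LD) (hk : 2 < k)
    (hB : Bs k μ u R G q LX LD DI XI) (h : SW k μ m R G DI D) (hX : XC k μ m R D XI X) {w : ℂ}
    (hw : w ∈ Hq m) (hf : fD k μ D w ∈ G) (hz : TD k μ D w ∈ Hq m) :
    ¬ ∀ᶠ w' in 𝓝 w, TD k μ D w' = TD k μ D w := by
  intro hcon
  set z := TD k μ D w with hzdef
  let S : Set ℂ := {w' : ℂ | w' ∈ Hq m ∧ fD k μ D w' ∈ G ∧ ∀ᶠ w'' in 𝓝 w', TD k μ D w'' = z}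
  have hc : ContinuousOn (fD k μ D) (Hq m) := fun x hx =>
    (h.fdiff (Hq_sub m hx)).continuousAt.continuousWithinAt
  have hSo : IsOpen S := by
    have e : S = (Hq m ∩ fD k μ D ⁻¹' G) ∩ {w' : ℂ | ∀ᶠ w'' in 𝓝 w', TD k μ D w'' = z} := by
      ext x
      simp only [S, mem_ofPred_eq, mem_inter_iff, mem_preimage, and_assoc]
    rw [e]
    exact (hc.isOpen_inter_preimage (isOpen_Hq m) hG.op).inter isOpen_setOfPred_eventually_nhds
  have hSc : IsClosed S := by
    apply IsSeqClosed.isClosed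
    intro ws w' hwsS hwl
    have h1 := fibre_closed hG hE hH hk hB h hX (ws := ws) (zs := fun _ => z) (w := w') (z := z)
      (fun j => (hwsS j).1) (fun j => (hwsS j).2.1) (fun j => (hwsS j).2.2.self_of_nhds) hz
      tendsto_const_nhds hwl
    refine ⟨h1.1, h1.2.1, ?_⟩
    have hA := T_analytic hG h (Hq_sub m h1.1) h1.2.1
    have hfr : ∃ᶠ w'' in 𝓝[≠] w', TD k μ D w'' = z := by
      rw [frequently_iff]
      intro U hU
      rw [mem_nhdsWithin] at hU
      obtain ⟨V, hVo, hwV, hVU⟩ := hU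
      obtain ⟨j, hj⟩ := (hwl.eventually (hVo.mem_nhds hwV)).exists
      have h1V : ∀ᶠ w'' in 𝓝 (ws j), w'' ∈ V := hVo.mem_nhds hj
      have h2 : ∀ᶠ w'' in 𝓝 (ws j), w'' ∈ V ∧ TD k μ D w'' = z := h1V.and (hwsS j).2.2
      have h3 : ∀ᶠ w'' in 𝓝[≠] (ws j), w'' ∈ V ∧ TD k μ D w'' = z :=
        h2.filter_mono nhdsWithin_le_nhds
      have h4 : ∀ᶠ w'' in 𝓝[≠] (ws j), w'' ≠ w' := by
        rcases eq_or_ne (ws j) w' with he | he
        · rw [he]
          exact eventually_mem_nhdsWithin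
        · have h5 : ∀ᶠ w'' in 𝓝 (ws j), w'' ≠ w' := isOpen_ne.mem_nhds he
          exact h5.filter_mono nhdsWithin_le_nhds
      obtain ⟨x, hx, hxw⟩ := (h3.and h4).exists
      exact ⟨x, hVU ⟨hx.1, hxw⟩, hx.2⟩
    exact (hA.frequently_eq_iff_eventually_eq analyticAt_const).mp hfr
  obtain ⟨B, hBd⟩ := bdd_of_T hB h ‖z‖
  have hSk : IsCompact S := by
    refine (isCompact_closedBall (0 : ℂ) B).of_isClosed_subset hSc fun x hx => ?_
    rw [mem_closedBall_zero_iff]
    refine hBd x (Hq_sub m hx.1) ?_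
    rw [hx.2.2.self_of_nhds]
  have hS0 := compact_open_empty hSo hSk
  have : w ∈ S := ⟨hw, hf, hcon⟩
  rw [hS0] at this
  exact this

/-- The preimage map `z ↦ z - D z` is locally a right and left inverse of `T`: for `z ∈ Hq m`,
`w = z - D z`, if `ws → w`, `zs → z` (in `Hq m`) with `T (ws j) = zs j` then eventually
`ws j = zs j - D (zs j)`. (`T ∘ (z - D z) = z` gives `deriv T w ≠ 0`; `local_inverse`.) -/
theorem near_sigma (hG : Tgt G) (hB : Bs k μ u R G q LX LD DI XI) (h : SW k μ m R G DI D)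
    {ws zs : ℕ → ℂ} {z : ℂ} (hz : z ∈ Hp m) (hT : ∀ j, TD k μ D (ws j) = zs j)
    (hzl : Tendsto zs atTop (𝓝 z)) (hwl : Tendsto ws atTop (𝓝 (z - D z))) :
    ∀ᶠ j in atTop, ws j = zs j - D (zs j) := by
  have hA := T_analytic hG h (h.mem hz) (h.tgt z hz)
  have hTz : TD k μ D (z - D z) = z := h.eqn z hz
  have hσ : DifferentiableAt ℂ (fun y => y - D y) z := differentiableAt_id.sub (h.diffAt hz)
  have hd : deriv (TD k μ D) (z - D z) ≠ 0 := by
    intro hd0
    have h1 : HasDerivAt (TD k μ D) (deriv (TD k μ D) (z - D z)) (z - D z) :=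
      hA.differentiableAt.hasDerivAt
    have h2 : HasDerivAt (fun y => TD k μ D (y - D y))
        (deriv (TD k μ D) (z - D z) * deriv (fun y => y - D y) z) z :=
      HasDerivAt.comp (h₂ := TD k μ D) (h := fun y => y - D y) z h1 hσ.hasDerivAt
    have h3 : (fun y => TD k μ D (y - D y)) =ᶠ[𝓝 z] fun y => y := by
      filter_upwards [(isOpen_Hp m).mem_nhds hz] with y hy
      exact h.eqn y hy
    have h4 : HasDerivAt (fun y => TD k μ D (y - D y)) 1 z :=
      (hasDerivAt_id' z).congr_of_eventuallyEq h3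
    have h5 := h2.unique h4
    rw [hd0, zero_mul] at h5
    exact zero_ne_one h5
  obtain ⟨τ, -, -, -, hτ⟩ := local_inverse hA hd
  have h1 : ∀ᶠ j in atTop, τ (TD k μ D (ws j)) = ws j := hwl.eventually hτ
  have h2 : Tendsto (fun j => zs j - D (zs j)) atTop (𝓝 (z - D z)) :=
    hσ.continuousAt.tendsto.comp hzl
  have h3 : ∀ᶠ j in atTop, τ (TD k μ D (zs j - D (zs j))) = zs j - D (zs j) :=
    h2.eventually hτ
  have h4 : ∀ᶠ j in atTop, zs j ∈ Hp m := hzl.eventually ((isOpen_Hp m).mem_nhds hz)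
  filter_upwards [h1, h3, h4] with j e1 e2 e3
  rw [h.eqn _ e3] at e2
  rw [hT j] at e1
  rw [← e1, e2]

/-- THE UNIQUENESS THEOREM. `A := {z ∈ Hq m | ∃ w ∈ Hq m, f w ∈ G, T w = z, w ≠ z - D z}` is open
in `Hq m` (open mapping theorem at `w`, `T_not_const`), closed in `Hq m` (`bdd_of_T`, convergent
subsequence, `fibre_closed`; the limit `w` is not `z - D z` by `near_sigma`), and does not contain
`z` with `Re z` very negative (`Re w < Re z` by `reT`, so `‖w‖` is large and `Bs.inj` applies, `D = DI`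
there). `Hq m` is convex, so `A` is empty. -/
theorem uniq (hG : Tgt G) (hE : ExitG k G) (hH : HL k μ u q LX LD) (hk : 2 < k)
    (hB : Bs k μ u R G q LX LD DI XI) (h : SW k μ m R G DI D) (hX : XC k μ m R D XI X) {w z : ℂ}
    (hw : w ∈ Hq m) (hz : z ∈ Hq m) (hf : fD k μ D w ∈ G) (hT : TD k μ D w = z) :
    w = z - D z := by
  by_contra hwne
  let A : Set ℂ := {z : ℂ | z ∈ Hq m ∧ ∃ w ∈ Hq m, fD k μ D w ∈ G ∧ TD k μ D w = z ∧ w ≠ z - D z}
  have hAne : (Hq m ∩ A).Nonempty := ⟨z, hz, hz, w, hw, hf, hT, hwne⟩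
  have hAo : IsOpen A := by
    rw [isOpen_iff_mem_nhds]
    rintro z' ⟨hz', w', hw', hf', hT', hne'⟩
    have hA := T_analytic hG h (Hq_sub m hw') hf'
    have hz'' : TD k μ D w' ∈ Hq m := by rw [hT']; exact hz'
    have hnc := T_not_const hG hE hH hk hB h hX hw' hf' hz''
    have hop : 𝓝 (TD k μ D w') ≤ map (TD k μ D) (𝓝 w') := by
      rcases hA.eventually_constant_or_nhds_le_map_nhds with h1 | h1
      · exact absurd h1 hnc
      · exact h1
    have hc : ContinuousAt (fun x => TD k μ D x - D (TD k μ D x)) w' := by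
      have h1 : ContinuousAt (TD k μ D) w' := hA.continuousAt
      have h2 : ContinuousAt D (TD k μ D w') := (h.diffAt (Hq_sub m hz'')).continuousAt
      exact h1.sub (ContinuousAt.comp (g := D) (f := TD k μ D) h2 h1)
    have hne2 : w' ≠ TD k μ D w' - D (TD k μ D w') := by rw [hT']; exact hne'
    have hN1 : ∀ᶠ x in 𝓝 w', x ≠ TD k μ D x - D (TD k μ D x) :=
      (ContinuousAt.ne_iff_eventually_ne continuousAt_id hc).mp hne2
    have hN2 : ∀ᶠ x in 𝓝 w', x ∈ Hq m := (isOpen_Hq m).mem_nhds hw'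
    have hN3 : ∀ᶠ x in 𝓝 w', fD k μ D x ∈ G :=
      (h.fdiff (Hq_sub m hw')).continuousAt.eventually (hG.op.mem_nhds hf')
    have hN : {x : ℂ | x ≠ TD k μ D x - D (TD k μ D x) ∧ x ∈ Hq m ∧ fD k μ D x ∈ G} ∈ 𝓝 w' :=
      hN1.and (hN2.and hN3)
    have hI := hop (image_mem_map hN)
    rw [hT'] at hI
    filter_upwards [hI, (isOpen_Hq m).mem_nhds hz'] with y hy hyq
    obtain ⟨x, ⟨hx1, hx2, hx3⟩, hxy⟩ := hy
    refine ⟨hyq, x, hx2, hx3, hxy, ?_⟩
    rw [← hxy]
    exact hx1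
  have hAc : closure A ∩ Hq m ⊆ A := by
    rintro z' ⟨hz'c, hz'⟩
    obtain ⟨zs, hzsA, hzsl⟩ := mem_closure_iff_seq_limit.mp hz'c
    choose _ ws hws hfs hTs hnes using hzsA
    have hb : ∃ M : ℝ, ∀ j, ‖zs j‖ ≤ M := by
      obtain ⟨M, hM⟩ := hzsl.norm.bddAbove_range
      exact ⟨M, fun j => hM ⟨j, rfl⟩⟩
    obtain ⟨M, hM⟩ := hb
    obtain ⟨B, hBd⟩ := bdd_of_T hB h M
    have hwb : ∀ j, ws j ∈ closedBall (0 : ℂ) B := fun j => by
      rw [mem_closedBall_zero_iff]
      refine hBd _ (Hq_sub m (hws j)) ?_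
      rw [hTs j]
      exact hM j
    obtain ⟨w', -, φ, hφ, hwl⟩ := (isCompact_closedBall (0 : ℂ) B).tendsto_subseq hwb
    have hzl' : Tendsto (zs ∘ φ) atTop (𝓝 z') := hzsl.comp hφ.tendsto_atTop
    have h1 := fibre_closed hG hE hH hk hB h hX (ws := ws ∘ φ) (zs := zs ∘ φ) (w := w') (z := z')
      (fun j => hws _) (fun j => hfs _) (fun j => hTs _) hz' hzl' hwl
    refine ⟨hz', w', h1.1, h1.2.1, h1.2.2, ?_⟩
    intro he
    rw [he] at hwl
    obtain ⟨j, hj⟩ := (near_sigma hG hB h (Hq_sub m hz') (fun j => hTs (φ j)) hzl' hwl).exists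
    exact hnes (φ j) hj
  have hsub := (convex_Hq m).isPreconnected.subset_of_closure_inter_subset hAo hAne hAc
  obtain ⟨B, hinj⟩ := hB.inj
  have hm := h.hm
  let z1 : ℂ := ⟨-(|B| + |R| + m + 1), 1⟩
  have hz1 : z1 ∈ Hq m := by
    constructor
    · show -(|B| + |R| + m + 1) < -m
      have := abs_nonneg B
      have := abs_nonneg R
      linarith
    · show (0 : ℝ) < 1
      norm_num
  obtain ⟨-, w1, hw1, hf1, hT1, hne1⟩ := hsub hz1
  have hfre : 0 < (1 - fD k μ D w1).re := by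
    have := hG.re _ hf1
    rw [sub_re, one_re]
    linarith
  have hfne : fD k μ D w1 ≠ 1 := fun he => by
    rw [he] at hfre
    simp at hfre
  have hlt := reT hH hk hB h hX hw1 hfre.le hfne
  rw [hT1, sub_re] at hlt
  have hn1 : |B| + |R| + m + 1 < ‖w1‖ := by
    have h1 := Complex.abs_re_le_norm w1
    have h2 := neg_abs_le w1.re
    have h3 : z1.re = -(|B| + |R| + m + 1) := rfl
    linarith
  have hBn : B < ‖w1‖ := by
    have := le_abs_self B
    have := abs_nonneg R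
    linarith
  have hRn : R < ‖w1‖ := by
    have := abs_nonneg B
    have := le_abs_self R
    linarith
  have hTeq : TD k μ DI w1 = z1 := by
    rw [← hT1]
    exact (TD_congr (h.ag w1 (Hq_sub m hw1) hRn)).symm
  have hz1re : z1.re < 0 := h.reneg (Hq_sub m hz1)
  have h5 := hinj w1 ⟨h.reneg (Hq_sub m hw1), hRn⟩ hBn (by rw [hTeq]; exact hz1re)
  rw [hTeq] at h5
  apply hne1
  rw [h.ag z1 (Hq_sub m hz1) h5.1]
  exact h5.2.symm

end EQW
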